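import Pool.Agent.Lib.MRF.Defs
import Pool.Agent.Lib.MRL.NR

/-!
# Row F_NR: `MRDF f` implies `ShortF f`

The sharp window of length `h` is compared with a superposition of Gaussian bumps of bounded width;
the mean square of the Gaussian averages is the mean square of the Dirichlet polynomial.
-/

set_option autoImplicit false

namespace Pool.Agent.MRF.NR

open Finset MeasureTheory
open Pool.Agent.MRL (nt g gw gw_nonneg gw_continuous gw_integrable gw_integral es es_continuous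
  es_int energy tp tp_continuous cs_interval)

/-- the coefficients `f(n)/n` -/
noncomputable def fb (f : ℕ → ℂ) (n : ℕ) : ℂ := ((1 / (n : ℝ) : ℝ) : ℂ) * f n

theorem AF_eq (f : ℕ → ℂ) (Y t : ℝ) :
    AF f Y t = ∑ n ∈ Ioc ⌊Y⌋₊ ⌊2 * Y⌋₊, fb f n * nt n t := rfl

theorem tp_eq (f : ℕ → ℂ) (s : Finset ℕ) (t : ℝ) :
    tp s (fun n => -Real.log n) (fb f) t = ∑ n ∈ s, fb f n * nt n t := by
  unfold tp
  exact Finset.sum_congr rfl fun n _ => by rw [Pool.Agent.MRL.NR.nt_eq]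

theorem tp_split (f : ℕ → ℂ) {X : ℝ} (hX : 0 ≤ X) (t : ℝ) :
    tp (Ioc ⌊X / 4⌋₊ ⌊4 * X⌋₊) (fun n => -Real.log n) (fb f) t =
      AF f (X / 4) t + AF f (X / 2) t + AF f X t + AF f (2 * X) t := by
  rw [tp_eq, AF_eq, AF_eq, AF_eq, AF_eq]
  have h1 : 2 * (X / 4) = X / 2 := by ring
  have h2 : 2 * (X / 2) = X := by ring
  have h3 : 2 * (2 * X) = 4 * X := by ring
  rw [h1, h2, h3]
  have e1 : ⌊X / 4⌋₊ ≤ ⌊X / 2⌋₊ := Nat.floor_mono (by linarith)
  have e2 : ⌊X / 2⌋₊ ≤ ⌊X⌋₊ := Nat.floor_mono (by linarith)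
  have e3 : ⌊X⌋₊ ≤ ⌊2 * X⌋₊ := Nat.floor_mono (by linarith)
  have e4 : ⌊2 * X⌋₊ ≤ ⌊4 * X⌋₊ := Nat.floor_mono (by linarith)
  rw [Finset.sum_Ioc_consecutive _ e1 e2, Finset.sum_Ioc_consecutive _ (e1.trans e2) e3,
    Finset.sum_Ioc_consecutive _ ((e1.trans e2).trans e3) e4]

theorem AF_g_int (f : ℕ → ℂ) (Y : ℝ) {T : ℝ} (hT : 0 < T) :
    Integrable fun t => ‖AF f Y t‖ ^ 2 * g T t := by
  have hg : (fun t => ‖AF f Y t‖ ^ 2 * g T t) =
      fun t => ‖AF f Y t‖ ^ 2 * Real.exp (-(1 / T ^ 2) * t ^ 2) := by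
    funext t
    unfold g
    congr 2
    field_simp
  rw [hg]
  have hb : (0 : ℝ) < 1 / T ^ 2 := by positivity
  have hbd : ∀ t, ‖AF f Y t‖ ≤ ∑ n ∈ Ioc ⌊Y⌋₊ ⌊2 * Y⌋₊, ‖fb f n‖ := by
    intro t
    rw [AF_eq]
    refine (norm_sum_le _ _).trans (Finset.sum_le_sum fun n _ => ?_)
    rw [norm_mul, norm_nt, mul_one]
  refine ((integrable_exp_neg_mul_sq hb).const_mul
    ((∑ n ∈ Ioc ⌊Y⌋₊ ⌊2 * Y⌋₊, ‖fb f n‖) ^ 2)).mono' ?_ ?_
  · apply Continuous.aestronglyMeasurable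
    have := continuous_AF f Y
    fun_prop
  · refine Filter.Eventually.of_forall fun t => ?_
    rw [Real.norm_of_nonneg (by positivity)]
    refine mul_le_mul_of_nonneg_right ?_ (Real.exp_pos _).le
    exact pow_le_pow_left₀ (norm_nonneg _) (hbd t) 2

/-- the energy of the Gaussian averages -/
theorem energy_le {f : ℕ → ℂ} {ε h X0 X : ℝ} (hh : 1 ≤ h)
    (H : ∀ X : ℝ, X0 ≤ X → ∀ T : ℝ, 1 ≤ T → T ≤ X / h → ∫ t : ℝ, ‖AF f X t‖ ^ 2 * g T t ≤ ε)
    (hX0 : 4 * X0 ≤ X) (hX1 : 4 * h ≤ X) (hX : 0 < X) (hε : 0 ≤ ε) :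
    ∫ u, ‖es (Ioc ⌊X / 4⌋₊ ⌊4 * X⌋₊) (fun n => Real.log n) (fb f) (4 * h / X) u‖ ^ 2
      ≤ 3 * ε := by
  have hδ : 0 < 4 * h / X := by positivity
  rw [energy hδ]
  set T : ℝ := 1 / (4 * h / X) with hT
  have hTX : T = X / (4 * h) := by rw [hT]; field_simp
  have hT0 : 0 < T := by rw [hTX]; positivity
  have hT1 : 1 ≤ T := by
    rw [hTX, le_div_iff₀ (by positivity)]
    linarith
  have hk : ∀ Y : ℝ, X / 4 ≤ Y → ∫ t : ℝ, ‖AF f Y t‖ ^ 2 * g T t ≤ ε := by
    intro Y hY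
    refine H Y (by linarith) T hT1 ?_
    rw [hTX, show X / (4 * h) = X / 4 / h by field_simp]
    exact div_le_div_of_nonneg_right hY (by linarith)
  have h1 := hk (X / 4) le_rfl
  have h2 := hk (X / 2) (by linarith)
  have h3 := hk X (by linarith)
  have h4 := hk (2 * X) (by linarith)
  have hpt : ∀ t : ℝ, ‖tp (Ioc ⌊X / 4⌋₊ ⌊4 * X⌋₊) (fun n => -Real.log n) (fb f) t‖ ^ 2 *
      Real.exp (-(1 / T ^ 2) * t ^ 2) ≤
      4 * (‖AF f (X / 4) t‖ ^ 2 * g T t + ‖AF f (X / 2) t‖ ^ 2 * g T t +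
        ‖AF f X t‖ ^ 2 * g T t + ‖AF f (2 * X) t‖ ^ 2 * g T t) := by
    intro t
    have hg : g T t = Real.exp (-(1 / T ^ 2) * t ^ 2) := by
      unfold g
      congr 1
      field_simp
    rw [tp_split f hX.le, ← hg]
    have hg0 : 0 ≤ g T t := by unfold g; positivity
    have h5 : ‖AF f (X / 4) t + AF f (X / 2) t + AF f X t + AF f (2 * X) t‖ ≤
        ‖AF f (X / 4) t‖ + ‖AF f (X / 2) t‖ + ‖AF f X t‖ + ‖AF f (2 * X) t‖ := by
      refine (norm_add_le _ _).trans (add_le_add ?_ le_rfl)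
      refine (norm_add_le _ _).trans (add_le_add ?_ le_rfl)
      exact norm_add_le _ _
    have h6 : ‖AF f (X / 4) t + AF f (X / 2) t + AF f X t + AF f (2 * X) t‖ ^ 2 ≤
        4 * (‖AF f (X / 4) t‖ ^ 2 + ‖AF f (X / 2) t‖ ^ 2 + ‖AF f X t‖ ^ 2 +
          ‖AF f (2 * X) t‖ ^ 2) := by
      refine (pow_le_pow_left₀ (norm_nonneg _) h5 2).trans ?_
      nlinarith [sq_nonneg (‖AF f (X / 4) t‖ - ‖AF f (X / 2) t‖),
        sq_nonneg (‖AF f (X / 4) t‖ - ‖AF f X t‖),
        sq_nonneg (‖AF f (X / 4) t‖ - ‖AF f (2 * X) t‖),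
        sq_nonneg (‖AF f (X / 2) t‖ - ‖AF f X t‖),
        sq_nonneg (‖AF f (X / 2) t‖ - ‖AF f (2 * X) t‖),
        sq_nonneg (‖AF f X t‖ - ‖AF f (2 * X) t‖)]
    nlinarith [mul_le_mul_of_nonneg_right h6 hg0]
  have i1 := AF_g_int f (X / 4) hT0
  have i2 := AF_g_int f (X / 2) hT0
  have i3 := AF_g_int f X hT0
  have i4 := AF_g_int f (2 * X) hT0
  have h7 : ∫ t : ℝ, ‖tp (Ioc ⌊X / 4⌋₊ ⌊4 * X⌋₊) (fun n => -Real.log n) (fb f) t‖ ^ 2 *
      Real.exp (-(1 / T ^ 2) * t ^ 2) ≤ 4 * (4 * ε) := by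
    refine (integral_mono_of_nonneg (Filter.Eventually.of_forall fun t => by positivity)
      ((((i1.add i2).add i3).add i4).const_mul 4)
      (Filter.Eventually.of_forall hpt)).trans ?_
    have h8 : ∫ t : ℝ, 4 * (‖AF f (X / 4) t‖ ^ 2 * g T t + ‖AF f (X / 2) t‖ ^ 2 * g T t +
        ‖AF f X t‖ ^ 2 * g T t + ‖AF f (2 * X) t‖ ^ 2 * g T t) =
        4 * ((∫ t, ‖AF f (X / 4) t‖ ^ 2 * g T t) + (∫ t, ‖AF f (X / 2) t‖ ^ 2 * g T t) +
          (∫ t, ‖AF f X t‖ ^ 2 * g T t) + (∫ t, ‖AF f (2 * X) t‖ ^ 2 * g T t)) := by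
      have e1 := integral_add i1 i2
      have e2 := integral_add (i1.add i2) i3
      have e3 := integral_add ((i1.add i2).add i3) i4
      simp only [Pi.add_apply] at e2 e3
      rw [integral_const_mul, e3, e2, e1]
    exact h8.le.trans (by linarith)
  have hpi : 1 / (2 * Real.pi) ≤ 1 / 6 := by
    apply one_div_le_one_div_of_le (by norm_num)
    have := Real.pi_gt_three
    linarith
  have hpi0 : 0 ≤ 1 / (2 * Real.pi) := by positivity
  calc 1 / (2 * Real.pi) * ∫ t : ℝ,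
        ‖tp (Ioc ⌊X / 4⌋₊ ⌊4 * X⌋₊) (fun n => -Real.log n) (fb f) t‖ ^ 2 *
        Real.exp (-(1 / T ^ 2) * t ^ 2) ≤ 1 / (2 * Real.pi) * (4 * (4 * ε)) :=
        mul_le_mul_of_nonneg_left h7 hpi0
    _ ≤ 1 / 6 * (4 * (4 * ε)) := mul_le_mul_of_nonneg_right hpi (by positivity)
    _ ≤ 3 * ε := by linarith

/-! ### the tail of the Gaussian -/

theorem gw_tail_pt {δ y v : ℝ} (hδ : 0 < δ) (hy : 0 < y) (hv : y ≤ |v|) :
    gw δ v ≤ 6 * δ ^ 2 / y ^ 2 * gw (√2 * δ) v := by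
  have h2 : √2 * √2 = 2 := Real.mul_self_sqrt (by norm_num)
  have hs2 : 0 < √2 := by positivity
  have hs2' : √2 ≤ 1.5 := by
    rw [Real.sqrt_le_left (by norm_num)]
    norm_num
  have hyv : y ^ 2 ≤ v ^ 2 := by
    rw [← sq_abs v]
    exact pow_le_pow_left₀ hy.le hv 2
  set z : ℝ := 1 / (4 * δ ^ 2) * v ^ 2 with hz
  have hz0 : 0 < z := by
    have : 0 < v ^ 2 := lt_of_lt_of_le (by positivity) hyv
    positivity
  have e1 : -(1 / (2 * δ ^ 2)) * v ^ 2 = -z + -z := by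
    rw [hz]
    field_simp
    ring
  have e2 : -(1 / (2 * (√2 * δ) ^ 2)) * v ^ 2 = -z := by
    rw [hz, show (√2 * δ) ^ 2 = (√2 * √2) * δ ^ 2 by ring, h2]
    field_simp
    ring
  have e3 : Real.exp (-z) ≤ 4 * δ ^ 2 / y ^ 2 := by
    have h3 : Real.exp (-z) ≤ 1 / z := by
      rw [Real.exp_neg, inv_eq_one_div]
      apply one_div_le_one_div_of_le hz0
      linarith [Real.add_one_le_exp z]
    refine h3.trans ?_
    rw [hz, div_le_div_iff₀ (by positivity) (by positivity)]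
    have h4 : 4 * δ ^ 2 * (1 / (4 * δ ^ 2) * v ^ 2) = v ^ 2 := by field_simp
    rw [h4]
    linarith
  unfold gw
  rw [e1, e2, Real.exp_add]
  have h5 : Real.exp (-z) * Real.exp (-z) / (δ * √(2 * Real.pi)) =
      √2 * Real.exp (-z) * (Real.exp (-z) / (√2 * δ * √(2 * Real.pi))) := by
    field_simp
  rw [h5]
  refine mul_le_mul_of_nonneg_right ?_ (by positivity)
  calc √2 * Real.exp (-z) ≤ 1.5 * (4 * δ ^ 2 / y ^ 2) :=
        mul_le_mul hs2' e3 (Real.exp_pos _).le (by norm_num)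
    _ = 6 * δ ^ 2 / y ^ 2 := by ring

theorem gw_shift_int {δ : ℝ} (hδ : 0 < δ) (z : ℝ) : Integrable fun u => gw δ (z - u) :=
  (gw_integrable hδ).comp_sub_left z

theorem gw_shift_one {δ : ℝ} (hδ : 0 < δ) (z : ℝ) : ∫ u, gw δ (z - u) = 1 := by
  rw [integral_sub_left_eq_self (fun v => gw δ v) volume z, gw_integral hδ]

theorem gw_tail {δ y z : ℝ} (hδ : 0 < δ) (hy : 0 < y) {E : Set ℝ} (hE : MeasurableSet E)
    (h : ∀ u ∈ E, y ≤ |z - u|) : ∫ u in E, gw δ (z - u) ≤ 6 * δ ^ 2 / y ^ 2 := by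
  have hδ2 : 0 < √2 * δ := by positivity
  have h1 : ∫ u in E, gw δ (z - u) ≤ ∫ u in E, 6 * δ ^ 2 / y ^ 2 * gw (√2 * δ) (z - u) := by
    refine setIntegral_mono_on (gw_shift_int hδ z).integrableOn
      ((gw_shift_int hδ2 z).const_mul _).integrableOn hE fun u hu => ?_
    exact gw_tail_pt hδ hy (h u hu)
  refine h1.trans ?_
  rw [integral_const_mul]
  have h2 : ∫ u in E, gw (√2 * δ) (z - u) ≤ 1 := by
    rw [← gw_shift_one hδ2 z]
    exact setIntegral_le_integral (gw_shift_int hδ2 z)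
      (Filter.Eventually.of_forall fun u => gw_nonneg hδ2 _)
  have h3 : 0 ≤ 6 * δ ^ 2 / y ^ 2 := by positivity
  nlinarith

/-- the weight of `z` in the window `(a, b]` -/
noncomputable def kn (δ a b z : ℝ) : ℝ := ∫ u in a..b, gw δ (z - u)

/-- the indicator of the window -/
noncomputable def ind (a b z : ℝ) : ℝ := if a < z ∧ z ≤ b then 1 else 0

theorem kn_nonneg {δ a b : ℝ} (hδ : 0 < δ) (hab : a ≤ b) (z : ℝ) : 0 ≤ kn δ a b z :=
  intervalIntegral.integral_nonneg hab fun _ _ => gw_nonneg hδ _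

theorem kn_le_one {δ a b : ℝ} (hδ : 0 < δ) (hab : a ≤ b) (z : ℝ) : kn δ a b z ≤ 1 := by
  unfold kn
  rw [intervalIntegral.integral_of_le hab, ← gw_shift_one hδ z]
  exact setIntegral_le_integral (gw_shift_int hδ z)
    (Filter.Eventually.of_forall fun _ => gw_nonneg hδ _)

theorem ind_kn_le_one {δ a b : ℝ} (hδ : 0 < δ) (hab : a ≤ b) (z : ℝ) :
    |ind a b z - kn δ a b z| ≤ 1 := by
  have h1 := kn_nonneg hδ hab z
  have h2 := kn_le_one hδ hab z
  unfold ind
  split_ifs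
  · rw [abs_of_nonneg (by linarith)]; linarith
  · rw [zero_sub, abs_neg, abs_of_nonneg h1]; exact h2

theorem ind_kn_tail {δ a b z y : ℝ} (hδ : 0 < δ) (hab : a ≤ b) (hy : 0 < y)
    (ha : y ≤ |z - a|) (hb : y ≤ |z - b|) :
    |ind a b z - kn δ a b z| ≤ 6 * δ ^ 2 / y ^ 2 := by
  have h1 := kn_nonneg hδ hab z
  have h2 := kn_le_one hδ hab z
  have hk : kn δ a b z = ∫ u in Set.Ioc a b, gw δ (z - u) := by
    unfold kn
    exact intervalIntegral.integral_of_le hab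
  unfold ind
  split_ifs with hc
  · rw [abs_of_nonneg (by linarith)]
    have h3 := integral_add_compl (measurableSet_Ioc (a := a) (b := b)) (gw_shift_int hδ z)
    rw [gw_shift_one hδ z, ← hk] at h3
    have h4 : (1 : ℝ) - kn δ a b z = ∫ u in (Set.Ioc a b)ᶜ, gw δ (z - u) := by linarith
    rw [h4]
    refine gw_tail hδ hy measurableSet_Ioc.compl fun u hu => ?_
    rw [Set.mem_compl_iff, Set.mem_Ioc, not_and_or, not_lt, not_le] at hu
    rw [abs_of_nonneg (by linarith [hc.1])] at ha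
    rw [abs_of_nonpos (by linarith [hc.2])] at hb
    rcases hu with hu | hu
    · exact le_trans (by linarith) (le_abs_self _)
    · exact le_trans (by linarith) (neg_le_abs _)
  · rw [zero_sub, abs_neg, abs_of_nonneg h1, hk]
    refine gw_tail hδ hy measurableSet_Ioc fun u hu => ?_
    rw [not_and_or, not_lt, not_le] at hc
    rcases hc with hc | hc
    · rw [abs_of_nonpos (by linarith)] at ha
      exact le_trans (by linarith [hu.1]) (neg_le_abs _)
    · rw [abs_of_nonneg (by linarith)] at hb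
      exact le_trans (by linarith [hu.2]) (le_abs_self _)

/-! ### sums of the weights -/

/-- the bound of the weight at distance `d` -/
noncomputable def ph (m d : ℕ) : ℝ := if d ≤ m then 1 else (m : ℝ) ^ 2 / (d : ℝ) ^ 2

theorem ph_nonneg (m d : ℕ) : 0 ≤ ph m d := by
  unfold ph
  split_ifs <;> positivity

theorem ph_sum {m : ℕ} (hm : 1 ≤ m) (K : ℕ) : ∑ k ∈ range K, ph m k ≤ 2 * m + 1 := by
  have h0 : ∑ k ∈ range K, ph m k ≤ ∑ k ∈ range (m + 1 + K), ph m k := by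
    refine Finset.sum_le_sum_of_subset_of_nonneg ?_ fun k _ _ => ph_nonneg m k
    exact Finset.range_mono (by omega)
  refine h0.trans ?_
  rw [Finset.sum_range_add]
  have h1 : ∑ k ∈ range (m + 1), ph m k = m + 1 := by
    rw [Finset.sum_congr rfl (g := fun _ => (1 : ℝ))]
    · simp
    · intro k hk
      rw [Finset.mem_range] at hk
      unfold ph
      rw [if_pos (by omega)]
  have h2 : ∑ k ∈ range K, ph m (m + 1 + k) =
      (m : ℝ) ^ 2 * ∑ k ∈ range K, 1 / (((m : ℝ) + 1) + k) ^ 2 := by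
    rw [Finset.mul_sum]
    refine Finset.sum_congr rfl fun k _ => ?_
    unfold ph
    rw [if_neg (by omega)]
    push_cast
    ring
  have hm' : (1 : ℝ) ≤ m := by exact_mod_cast hm
  have h3 := Pool.Agent.MRL.NR.sum_inv_sq_le (m := (m : ℝ) + 1) (by linarith) K
  have h4 : 1 / ((m : ℝ) + 1 - 1) - 1 / ((m : ℝ) + 1 - 1 + K) ≤ 1 / m := by
    have e1 : (m : ℝ) + 1 - 1 = m := by ring
    rw [e1]
    have : 0 ≤ 1 / ((m : ℝ) + K) := by positivity
    linarith
  rw [h1, h2]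
  have h5 : (m : ℝ) ^ 2 * ∑ k ∈ range K, 1 / (((m : ℝ) + 1) + k) ^ 2 ≤ (m : ℝ) ^ 2 * (1 / m) :=
    mul_le_mul_of_nonneg_left (h3.trans h4) (by positivity)
  have h6 : (m : ℝ) ^ 2 * (1 / m) = m := by
    field_simp
  linarith

theorem ph_sum_dist {m : ℕ} (hm : 1 ≤ m) (a : ℕ) (s : Finset ℕ) :
    ∑ n ∈ s, ph m (Nat.dist n a) ≤ 6 * m := by
  obtain ⟨N, hN⟩ : ∃ N, s ⊆ range N := by
    refine ⟨s.sup id + 1, fun n hn => ?_⟩
    rw [Finset.mem_range]
    exact Nat.lt_succ_of_le (Finset.le_sup (f := id) hn)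
  have h0 : ∑ n ∈ s, ph m (Nat.dist n a) ≤ ∑ n ∈ range (a + N), ph m (Nat.dist n a) := by
    refine Finset.sum_le_sum_of_subset_of_nonneg ?_ fun k _ _ => ph_nonneg m _
    exact hN.trans (Finset.range_mono (by omega))
  refine h0.trans ?_
  rw [Finset.sum_range_add]
  have h1 : ∑ n ∈ range a, ph m (Nat.dist n a) ≤ 2 * m + 1 := by
    have h2 : ∑ n ∈ range a, ph m (Nat.dist n a) = ∑ n ∈ range a, ph m (n + 1) := by
      rw [← Finset.sum_range_reflect]
      refine Finset.sum_congr rfl fun n hn => ?_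
      rw [Finset.mem_range] at hn
      congr 1
      unfold Nat.dist
      omega
    have h3 := ph_sum hm (a + 1)
    rw [Finset.sum_range_succ'] at h3
    rw [h2]
    linarith [ph_nonneg m 0]
  have h3 : ∑ n ∈ range N, ph m (Nat.dist (a + n) a) ≤ 2 * m + 1 := by
    refine le_trans (le_of_eq ?_) (ph_sum hm N)
    refine Finset.sum_congr rfl fun n _ => ?_
    congr 1
    unfold Nat.dist
    omega
  have hm' : (1 : ℝ) ≤ m := by exact_mod_cast hm
  linarith

/-! ### one window -/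

theorem ind_log {x h n : ℕ} (hx : 0 < x) (hn : 0 < n) :
    ind (Real.log x) (Real.log ((x : ℝ) + h)) (Real.log n) =
      if x < n ∧ n ≤ x + h then 1 else 0 := by
  have hx' : (0 : ℝ) < x := by exact_mod_cast hx
  have hn' : (0 : ℝ) < n := by exact_mod_cast hn
  have hh' : (0 : ℝ) ≤ h := Nat.cast_nonneg _
  have h1 : Real.log x < Real.log n ↔ x < n := by
    rw [Real.log_lt_log_iff hx' hn']
    exact Nat.cast_lt
  have h2 : Real.log n ≤ Real.log ((x : ℝ) + h) ↔ n ≤ x + h := by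
    rw [Real.log_le_log_iff hn' (by positivity)]
    constructor
    · intro h3
      exact_mod_cast h3
    · intro h3
      exact_mod_cast h3
  unfold ind
  simp only [h1, h2]

theorem dist_log {X : ℝ} {n a : ℕ} (hn : 0 < n) (ha : 0 < a) (hn2 : (n : ℝ) ≤ 4 * X)
    (ha2 : (a : ℝ) ≤ 4 * X) :
    (Nat.dist n a : ℝ) / (4 * X) ≤ |Real.log n - Real.log a| := by
  have hn' : (0 : ℝ) < n := by exact_mod_cast hn
  have ha' : (0 : ℝ) < a := by exact_mod_cast ha
  rcases le_total n a with h | h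
  · have h1 : (Nat.dist n a : ℝ) = (a : ℝ) - n := by
      rw [Nat.dist_eq_sub_of_le h, Nat.cast_sub h]
    have h2 : (n : ℝ) ≤ a := by exact_mod_cast h
    have h3 := Pool.Agent.MRL.NR.log_spacing_real hn' h2 ha2
    rw [h1]
    exact h3.trans (by rw [abs_sub_comm]; exact le_abs_self _)
  · have h1 : (Nat.dist n a : ℝ) = (n : ℝ) - a := by
      rw [Nat.dist_eq_sub_of_le_right h, Nat.cast_sub h]
    have h2 : (a : ℝ) ≤ n := by exact_mod_cast h
    have h3 := Pool.Agent.MRL.NR.log_spacing_real ha' h2 hn2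
    rw [h1]
    exact h3.trans (le_abs_self _)

theorem weight_le {w X : ℝ} {x h m n : ℕ} (hw : 1 ≤ w) (hm : 40 * w ≤ m) (hX : 0 < X)
    (hx : 0 < x) (hn : 0 < n) (hn2 : (n : ℝ) ≤ 4 * X) (hxh : (x : ℝ) + h ≤ 4 * X) :
    |ind (Real.log x) (Real.log ((x : ℝ) + h)) (Real.log n) -
      kn (4 * w / X) (Real.log x) (Real.log ((x : ℝ) + h)) (Real.log n)| ≤
      ph m (Nat.dist n x) + ph m (Nat.dist n (x + h)) := by
  have hx' : (0 : ℝ) < x := by exact_mod_cast hx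
  have hh' : (0 : ℝ) ≤ h := Nat.cast_nonneg _
  have hδ : 0 < 4 * w / X := by positivity
  have hab : Real.log x ≤ Real.log ((x : ℝ) + h) := Real.log_le_log hx' (by linarith)
  have p1 := ph_nonneg m (Nat.dist n x)
  have p2 := ph_nonneg m (Nat.dist n (x + h))
  have hone := ind_kn_le_one hδ hab (Real.log n)
  by_cases c1 : Nat.dist n x ≤ m
  · have : ph m (Nat.dist n x) = 1 := by unfold ph; rw [if_pos c1]
    linarith
  by_cases c2 : Nat.dist n (x + h) ≤ m
  · have : ph m (Nat.dist n (x + h)) = 1 := by unfold ph; rw [if_pos c2]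
    linarith
  have hm0 : (0 : ℝ) < m := by linarith
  have d1 : (m : ℝ) < (Nat.dist n x : ℝ) := by exact_mod_cast (not_le.1 c1)
  have d2 : (m : ℝ) < (Nat.dist n (x + h) : ℝ) := by exact_mod_cast (not_le.1 c2)
  have l1 := dist_log hn hx hn2 (by linarith : (x : ℝ) ≤ 4 * X)
  have l2 := dist_log hn (show 0 < x + h by omega) hn2 (by push_cast; exact hxh)
  have e0 : ((x + h : ℕ) : ℝ) = (x : ℝ) + h := by push_cast; ring
  rw [e0] at l2
  -- the bound at distance d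
  have key : ∀ d : ℝ, (m : ℝ) < d → 6 * (4 * w / X) ^ 2 / (d / (4 * X)) ^ 2 ≤
      (m : ℝ) ^ 2 / d ^ 2 := by
    intro d hd
    have hd0 : 0 < d := hm0.trans hd
    have e1 : 6 * (4 * w / X) ^ 2 / (d / (4 * X)) ^ 2 = 1536 * w ^ 2 / d ^ 2 := by
      field_simp
      ring
    rw [e1]
    apply div_le_div_of_nonneg_right _ (by positivity)
    nlinarith
  rcases le_total (Nat.dist n x : ℝ) (Nat.dist n (x + h) : ℝ) with hle | hle
  · have hy : 0 < (Nat.dist n x : ℝ) / (4 * X) := div_pos (by linarith) (by linarith)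
    have h1 := ind_kn_tail hδ hab hy l1
      ((div_le_div_of_nonneg_right hle (by linarith)).trans l2)
    have h2 := key _ d1
    have h3 : ph m (Nat.dist n x) = (m : ℝ) ^ 2 / (Nat.dist n x : ℝ) ^ 2 := by
      unfold ph; rw [if_neg c1]
    linarith
  · have hy : 0 < (Nat.dist n (x + h) : ℝ) / (4 * X) := div_pos (by linarith) (by linarith)
    have h1 := ind_kn_tail hδ hab hy
      ((div_le_div_of_nonneg_right hle (by linarith)).trans l1) l2
    have h2 := key _ d2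
    have h3 : ph m (Nat.dist n (x + h)) = (m : ℝ) ^ 2 / (Nat.dist n (x + h) : ℝ) ^ 2 := by
      unfold ph; rw [if_neg c2]
    linarith

theorem es_window (f : ℕ → ℂ) (s : Finset ℕ) (δ a b : ℝ) :
    ∫ u in a..b, es s (fun n => Real.log n) (fb f) δ u =
      ∑ n ∈ s, fb f n * ((kn δ a b (Real.log n) : ℝ) : ℂ) := by
  unfold es
  rw [intervalIntegral.integral_finsetSum]
  · refine Finset.sum_congr rfl fun n _ => ?_
    rw [intervalIntegral.integral_const_mul]
    congr 1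
    unfold kn
    exact intervalIntegral.integral_ofReal
  · intro n _
    apply Continuous.intervalIntegrable
    refine continuous_const.mul ?_
    exact Complex.continuous_ofReal.comp ((gw_continuous δ).comp (by fun_prop))

theorem window_le {f : ℕ → ℂ} (hf : ∀ n, ‖f n‖ ≤ 1) {w X : ℝ} {x h m : ℕ} (hw : 1 ≤ w)
    (hm : 40 * w ≤ m) (hXh : (h : ℝ) ^ 2 + h + 4 ≤ X) (hx1 : X ≤ x) (hx2 : (x : ℝ) ≤ 2 * X) :
    ‖∑ j ∈ Icc 1 h, f (x + j)‖ ≤ 2 * X * ‖∫ u in (Real.log x)..(Real.log ((x : ℝ) + h)),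
      es (Ioc ⌊X / 4⌋₊ ⌊4 * X⌋₊) (fun n => Real.log n) (fb f) (4 * w / X) u‖ + 97 * m := by
  have hh' : (0 : ℝ) ≤ h := Nat.cast_nonneg _
  have hX : 0 < X := by nlinarith
  have hx' : (0 : ℝ) < x := by linarith
  have hx : 0 < x := by exact_mod_cast hx'
  have hδ : 0 < 4 * w / X := by positivity
  set s : Finset ℕ := Ioc ⌊X / 4⌋₊ ⌊4 * X⌋₊ with hs
  set a : ℝ := Real.log x with ha
  set b : ℝ := Real.log ((x : ℝ) + h) with hb
  have hab : a ≤ b := Real.log_le_log hx' (by linarith)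
  have hsm : ∀ n ∈ s, X / 4 < (n : ℝ) ∧ (n : ℝ) ≤ 4 * X := by
    intro n hn
    rw [hs, Finset.mem_Ioc] at hn
    exact ⟨(Nat.floor_lt (by positivity)).1 hn.1, (Nat.le_floor_iff (by positivity)).1 hn.2⟩
  have hsm0 : ∀ n ∈ s, 0 < n := by
    intro n hn
    have := (hsm n hn).1
    have h2 : (0 : ℝ) < n := by linarith [show 0 < X / 4 by positivity]
    exact_mod_cast h2
  have hfil : s.filter (fun n => x < n ∧ n ≤ x + h) = Ioc x (x + h) := by
    ext n
    rw [Finset.mem_filter]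
    constructor
    · exact fun h => Finset.mem_Ioc.2 h.2
    · intro hn
      rw [Finset.mem_Ioc] at hn
      refine ⟨?_, hn⟩
      have h3 : (x : ℝ) < n := by exact_mod_cast hn.1
      have h4 : (n : ℝ) ≤ x + h := by exact_mod_cast hn.2
      rw [hs, Finset.mem_Ioc]
      constructor
      · rw [Nat.floor_lt (by positivity)]
        linarith
      · rw [Nat.le_floor_iff (by positivity)]
        nlinarith
  have hsum : ∑ j ∈ Icc 1 h, f (x + j) = ∑ n ∈ s, ((ind a b (Real.log n) : ℝ) : ℂ) * f n := by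
    have h1 : ∑ n ∈ s, ((ind a b (Real.log n) : ℝ) : ℂ) * f n =
        ∑ n ∈ s, if x < n ∧ n ≤ x + h then f n else 0 := by
      refine Finset.sum_congr rfl fun n hn => ?_
      rw [ha, hb, ind_log hx (hsm0 n hn)]
      split_ifs <;> simp
    rw [h1, ← Finset.sum_filter, hfil]
    refine Finset.sum_bij (fun j _ => x + j) ?_ ?_ ?_ ?_
    · intro j hj
      rw [Finset.mem_Icc] at hj
      rw [Finset.mem_Ioc]
      omega
    · intro i _ j _ hij
      omega
    · intro n hn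
      rw [Finset.mem_Ioc] at hn
      exact ⟨n - x, by rw [Finset.mem_Icc]; omega, by omega⟩
    · intro j _
      rfl
  have hind : ∑ n ∈ s, ind a b (Real.log n) = h := by
    have h1 : ∑ n ∈ s, ind a b (Real.log n) =
        ∑ n ∈ s, if x < n ∧ n ≤ x + h then (1 : ℝ) else 0 := by
      refine Finset.sum_congr rfl fun n hn => ?_
      rw [ha, hb, ind_log hx (hsm0 n hn)]
    rw [h1, ← Finset.sum_filter, hfil]
    simp
  have hdiff : ∑ j ∈ Icc 1 h, f (x + j) -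
      (x : ℂ) * ∫ u in a..b, es s (fun n => Real.log n) (fb f) (4 * w / X) u =
      ∑ n ∈ s, ((ind a b (Real.log n) - x / n * kn (4 * w / X) a b (Real.log n) : ℝ) : ℂ) *
        f n := by
    rw [hsum, es_window f s, Finset.mul_sum, ← Finset.sum_sub_distrib]
    refine Finset.sum_congr rfl fun n hn => ?_
    unfold fb
    push_cast
    ring
  have hpt : ∀ n ∈ s, ‖((ind a b (Real.log n) -
      x / n * kn (4 * w / X) a b (Real.log n) : ℝ) : ℂ) * f n‖ ≤
      8 * (ph m (Nat.dist n x) + ph m (Nat.dist n (x + h))) + h / X * ind a b (Real.log n) := by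
    intro n hn
    have hn1 := hsm n hn
    have hn0 : (0 : ℝ) < n := by exact_mod_cast hsm0 n hn
    rw [norm_mul, Complex.norm_real, Real.norm_eq_abs]
    have h1 := weight_le (h := h) hw hm hX hx (hsm0 n hn) hn1.2 (by nlinarith)
    rw [← ha, ← hb] at h1
    have h2 : (x : ℝ) / n ≤ 8 := by
      rw [div_le_iff₀ hn0]
      linarith
    have h3 : 0 ≤ (x : ℝ) / n := by positivity
    have h4 : |ind a b (Real.log n) - x / n * kn (4 * w / X) a b (Real.log n)| ≤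
        x / n * |ind a b (Real.log n) - kn (4 * w / X) a b (Real.log n)| +
          h / X * ind a b (Real.log n) := by
      have e1 : ind a b (Real.log n) - x / n * kn (4 * w / X) a b (Real.log n) =
          x / n * (ind a b (Real.log n) - kn (4 * w / X) a b (Real.log n)) +
          (1 - x / n) * ind a b (Real.log n) := by ring
      rw [e1]
      refine (abs_add_le _ _).trans ?_
      rw [abs_mul, abs_of_nonneg h3, abs_mul]
      refine add_le_add le_rfl ?_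
      rw [ha, hb, ind_log hx (hsm0 n hn)]
      split_ifs with hc
      · have c1 : (x : ℝ) < n := by exact_mod_cast hc.1
        have c2 : (n : ℝ) ≤ x + h := by exact_mod_cast hc.2
        rw [abs_one, mul_one, mul_one]
        have e2 : 1 - (x : ℝ) / n = (n - x) / n := by field_simp
        rw [e2, abs_of_nonneg (div_nonneg (by linarith) hn0.le)]
        exact div_le_div₀ hh' (by linarith) hX (by linarith)
      · simp
    have h5 : x / n * |ind a b (Real.log n) - kn (4 * w / X) a b (Real.log n)| ≤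
        8 * (ph m (Nat.dist n x) + ph m (Nat.dist n (x + h))) :=
      mul_le_mul h2 h1 (abs_nonneg _) (by norm_num)
    have h6 := mul_le_mul_of_nonneg_left (hf n)
      (abs_nonneg (ind a b (Real.log n) - x / n * kn (4 * w / X) a b (Real.log n)))
    rw [mul_one] at h6
    linarith
  have hm1 : 1 ≤ m := by
    have : (1 : ℝ) ≤ m := by linarith
    exact_mod_cast this
  have hm1' : (1 : ℝ) ≤ m := by exact_mod_cast hm1
  have herr : ‖∑ j ∈ Icc 1 h, f (x + j) -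
      (x : ℂ) * ∫ u in a..b, es s (fun n => Real.log n) (fb f) (4 * w / X) u‖ ≤ 97 * m := by
    rw [hdiff]
    refine (norm_sum_le _ _).trans ((Finset.sum_le_sum hpt).trans ?_)
    rw [Finset.sum_add_distrib, ← Finset.mul_sum, Finset.sum_add_distrib, ← Finset.mul_sum, hind]
    have s1 := ph_sum_dist hm1 x s
    have s2 := ph_sum_dist hm1 (x + h) s
    have s3 : (h : ℝ) / X * h ≤ 1 := by
      rw [div_mul_eq_mul_div, div_le_one hX]
      nlinarith
    linarith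
  have hfin : ‖(x : ℂ) * ∫ u in a..b, es s (fun n => Real.log n) (fb f) (4 * w / X) u‖ ≤
      2 * X * ‖∫ u in a..b, es s (fun n => Real.log n) (fb f) (4 * w / X) u‖ := by
    rw [norm_mul, Complex.norm_natCast]
    exact mul_le_mul_of_nonneg_right hx2 (norm_nonneg _)
  have htri := norm_sub_norm_le (∑ j ∈ Icc 1 h, f (x + j))
    ((x : ℂ) * ∫ u in a..b, es s (fun n => Real.log n) (fb f) (4 * w / X) u)
  linarith

/-! ### sum over the windows -/

theorem sum_windows {E : ℝ → ℝ} (hE0 : ∀ u, 0 ≤ E u) (hEi : Integrable E) {A : ℕ} (hA : 0 < A)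
    (N h : ℕ) :
    ∑ i ∈ range N, ∫ u in (Real.log ((A + i : ℕ) : ℝ))..(Real.log (((A + i : ℕ) : ℝ) + h)), E u
      ≤ h * ∫ u, E u := by
  have h1 : ∀ i : ℕ, ∫ u in (Real.log ((A + i : ℕ) : ℝ))..(Real.log (((A + i : ℕ) : ℝ) + h)), E u =
      ∑ j ∈ range h, ∫ u in (Real.log ((A + j + i : ℕ) : ℝ))..
        (Real.log ((A + j + (i + 1) : ℕ) : ℝ)), E u := by
    intro i
    have h2 := intervalIntegral.sum_integral_adjacent_intervals (f := E) (μ := volume)
      (a := fun k : ℕ => Real.log ((A + k + i : ℕ) : ℝ)) (n := h)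
      (fun k _ => hEi.intervalIntegrable)
    have e1 : (((A + i : ℕ) : ℝ) + h) = ((A + h + i : ℕ) : ℝ) := by push_cast; ring
    rw [e1]
    have e2 : A + 0 + i = A + i := by omega
    simp only [e2] at h2
    rw [← h2]
    refine Finset.sum_congr rfl fun j _ => ?_
    have e3 : A + (j + 1) + i = A + j + (i + 1) := by omega
    rw [e3]
  rw [Finset.sum_congr rfl fun i _ => h1 i, Finset.sum_comm]
  have h3 : ∀ j ∈ range h, ∑ i ∈ range N, ∫ u in (Real.log ((A + j + i : ℕ) : ℝ))..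
        (Real.log ((A + j + (i + 1) : ℕ) : ℝ)), E u ≤ ∫ u, E u := by
    intro j _
    have h4 := intervalIntegral.sum_integral_adjacent_intervals (f := E) (μ := volume)
      (a := fun k : ℕ => Real.log ((A + j + k : ℕ) : ℝ)) (n := N)
      (fun k _ => hEi.intervalIntegrable)
    rw [h4]
    have h5 : Real.log ((A + j + 0 : ℕ) : ℝ) ≤ Real.log ((A + j + N : ℕ) : ℝ) := by
      apply Real.log_le_log
      · exact_mod_cast (by omega : 0 < A + j + 0)
      · exact_mod_cast (by omega : A + j + 0 ≤ A + j + N)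
    rw [intervalIntegral.integral_of_le h5]
    exact setIntegral_le_integral hEi (Filter.Eventually.of_forall hE0)
  refine (Finset.sum_le_sum h3).trans ?_
  rw [Finset.sum_const, Finset.card_range, nsmul_eq_mul]

/-- **Row F_NR.** -/
theorem short {f : ℕ → ℂ} (hf : ∀ n, ‖f n‖ ≤ 1) (H : MRDF f) : ShortF f := by
  intro ε hε
  obtain ⟨w, hw, X0, hX0⟩ := H (ε ^ 2 / 96) (by positivity)
  set m : ℕ := ⌈40 * w⌉₊ with hmd
  have hm : 40 * w ≤ m := Nat.le_ceil _
  refine ⟨⌈400 * m / ε⌉₊ + 1, fun h hh => ?_⟩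
  have hh1 : 1 ≤ h := by omega
  have hh2 : 400 * m / ε ≤ h := by
    refine (Nat.le_ceil _).trans ?_
    exact_mod_cast (by omega : ⌈400 * m / ε⌉₊ ≤ h)
  have hh3 : 400 * (m : ℝ) ≤ ε * h := by
    rw [div_le_iff₀ hε] at hh2
    linarith
  have hh' : (1 : ℝ) ≤ h := by exact_mod_cast hh1
  refine ⟨max (4 * X0) (max (4 * w) ((h : ℝ) ^ 2 + h + 4)), fun X hX => ?_⟩
  have hX1 : 4 * X0 ≤ X := (le_max_left _ _).trans hX
  have hX2 : 4 * w ≤ X := ((le_max_left _ _).trans (le_max_right _ _)).trans hX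
  have hX3 : (h : ℝ) ^ 2 + h + 4 ≤ X := ((le_max_right _ _).trans (le_max_right _ _)).trans hX
  have hXpos : 0 < X := by nlinarith
  have hen := energy_le hw hX0 hX1 hX2 hXpos (by positivity)
  set s : Finset ℕ := Ioc ⌊X / 4⌋₊ ⌊4 * X⌋₊ with hs
  set B : ℝ → ℂ := es s (fun n => Real.log n) (fb f) (4 * w / X) with hB
  have hδ : 0 < 4 * w / X := by positivity
  have hBc : Continuous B := es_continuous _ _ _ _
  have hBi : Integrable fun u => ‖B u‖ ^ 2 := es_int hδ _ _ _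
  set I : ℕ → ℂ := fun x => ∫ u in (Real.log x)..(Real.log ((x : ℝ) + h)), B u with hI
  have hAB : Icc ⌈X⌉₊ ⌊2 * X⌋₊ = Ico ⌈X⌉₊ (⌊2 * X⌋₊ + 1) := by
    ext n
    rw [Finset.mem_Icc, Finset.mem_Ico]
    omega
  have hA0 : 0 < ⌈X⌉₊ := Nat.ceil_pos.2 hXpos
  set N : ℕ := ⌊2 * X⌋₊ + 1 - ⌈X⌉₊ with hN
  have hNX : (N : ℝ) ≤ 2 * X := by
    have h1 : (⌊2 * X⌋₊ : ℝ) ≤ 2 * X := Nat.floor_le (by positivity)
    have h2 : X ≤ (⌈X⌉₊ : ℝ) := Nat.le_ceil _
    have h3 : (N : ℝ) ≤ ⌊2 * X⌋₊ := by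
      exact_mod_cast (by omega : N ≤ ⌊2 * X⌋₊)
    linarith
  have hmemx : ∀ x ∈ Icc ⌈X⌉₊ ⌊2 * X⌋₊, X ≤ (x : ℝ) ∧ (x : ℝ) ≤ 2 * X := by
    intro x hx
    rw [Finset.mem_Icc] at hx
    exact ⟨Nat.ceil_le.1 hx.1, (Nat.le_floor_iff (by positivity)).1 hx.2⟩
  have hcard : ((Icc ⌈X⌉₊ ⌊2 * X⌋₊).card : ℝ) ≤ 2 * X := by
    rw [Nat.card_Icc]
    exact hNX
  -- the energy of the windows
  have hsq : ∑ x ∈ Icc ⌈X⌉₊ ⌊2 * X⌋₊, ‖I x‖ ^ 2 ≤ h ^ 2 / X * (3 * (ε ^ 2 / 96)) := by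
    have h1 : ∀ x ∈ Icc ⌈X⌉₊ ⌊2 * X⌋₊, ‖I x‖ ^ 2 ≤
        h / X * ∫ u in (Real.log x)..(Real.log ((x : ℝ) + h)), ‖B u‖ ^ 2 := by
      intro x hx
      obtain ⟨hx1, hx2⟩ := hmemx x hx
      have hx0 : (0 : ℝ) < x := by linarith
      have hlog : Real.log x ≤ Real.log ((x : ℝ) + h) := Real.log_le_log hx0 (by linarith)
      have h2 := cs_interval hBc hlog
      have h3 : Real.log ((x : ℝ) + h) - Real.log x ≤ h / X := by
        rw [← Real.log_div (by linarith) hx0.ne']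
        have h3 := Real.log_le_sub_one_of_pos (show 0 < ((x : ℝ) + h) / x by positivity)
        have h4 : ((x : ℝ) + h) / x - 1 = h / x := by field_simp; ring
        have h5 : (h : ℝ) / x ≤ h / X := div_le_div_of_nonneg_left (by linarith) hXpos hx1
        linarith
      refine h2.trans (mul_le_mul_of_nonneg_right h3 ?_)
      exact intervalIntegral.integral_nonneg hlog fun u _ => by positivity
    refine (Finset.sum_le_sum h1).trans ?_
    rw [← Finset.mul_sum, hAB, Finset.sum_Ico_eq_sum_range]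
    have h6 := sum_windows (fun u => by positivity) hBi hA0 N h
    have h7 : (h : ℝ) * ∫ u, ‖B u‖ ^ 2 ≤ h * (3 * (ε ^ 2 / 96)) :=
      mul_le_mul_of_nonneg_left hen (by linarith)
    calc (h : ℝ) / X * ∑ i ∈ range (⌊2 * X⌋₊ + 1 - ⌈X⌉₊),
          ∫ u in (Real.log ((⌈X⌉₊ + i : ℕ) : ℝ))..
            (Real.log (((⌈X⌉₊ + i : ℕ) : ℝ) + h)), ‖B u‖ ^ 2
        ≤ h / X * (h * (3 * (ε ^ 2 / 96))) :=
          mul_le_mul_of_nonneg_left (h6.trans h7) (by positivity)
      _ = h ^ 2 / X * (3 * (ε ^ 2 / 96)) := by ring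
  -- the first power
  have hfirst : ∑ x ∈ Icc ⌈X⌉₊ ⌊2 * X⌋₊, 2 * X * ‖I x‖ ≤ ε * h * X / 2 := by
    set l : ℝ := ε * h / (8 * X) with hl
    have hl0 : 0 < l := by positivity
    have h1 : ∀ x ∈ Icc ⌈X⌉₊ ⌊2 * X⌋₊, 2 * X * ‖I x‖ ≤ X * l + X / l * ‖I x‖ ^ 2 := by
      intro x _
      have h2 : 0 ≤ (l - ‖I x‖) ^ 2 := sq_nonneg _
      have h3 : X * l + X / l * ‖I x‖ ^ 2 - 2 * X * ‖I x‖ = X / l * (l - ‖I x‖) ^ 2 := by
        field_simp
        ring
      have h4 : 0 ≤ X / l * (l - ‖I x‖) ^ 2 := by positivity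
      linarith
    refine (Finset.sum_le_sum h1).trans ?_
    rw [Finset.sum_add_distrib, Finset.sum_const, nsmul_eq_mul, ← Finset.mul_sum]
    have h5 : ((Icc ⌈X⌉₊ ⌊2 * X⌋₊).card : ℝ) * (X * l) ≤ 2 * X * (X * l) :=
      mul_le_mul_of_nonneg_right hcard (by positivity)
    have h6 : X / l * ∑ x ∈ Icc ⌈X⌉₊ ⌊2 * X⌋₊, ‖I x‖ ^ 2 ≤
        X / l * (h ^ 2 / X * (3 * (ε ^ 2 / 96))) := mul_le_mul_of_nonneg_left hsq (by positivity)
    have h7 : 2 * X * (X * l) = ε * h * X / 4 := by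
      rw [hl]
      field_simp
      ring
    have h8 : X / l * (h ^ 2 / X * (3 * (ε ^ 2 / 96))) = ε * h * X / 4 := by
      rw [hl]
      field_simp
      ring
    linarith
  have hall : ∑ x ∈ Icc ⌈X⌉₊ ⌊2 * X⌋₊, ‖∑ j ∈ Icc 1 h, f (x + j)‖ ≤
      ∑ x ∈ Icc ⌈X⌉₊ ⌊2 * X⌋₊, (2 * X * ‖I x‖ + 97 * m) := by
    refine Finset.sum_le_sum fun x hx => ?_
    obtain ⟨hx1, hx2⟩ := hmemx x hx
    exact window_le hf hw hm hX3 hx1 hx2
  refine hall.trans ?_
  rw [Finset.sum_add_distrib, Finset.sum_const, nsmul_eq_mul]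
  have h9 : ((Icc ⌈X⌉₊ ⌊2 * X⌋₊).card : ℝ) * (97 * m) ≤ 2 * X * (97 * m) :=
    mul_le_mul_of_nonneg_right hcard (by positivity)
  nlinarith

end Pool.Agent.MRF.NR

namespace Pool.Agent.MRF

open Pool.Agent.MRHal

/-- **Row F_NR.** -/
theorem shortF {f : ℕ → ℂ} (hf : CM f) (h : MRDF f) : ShortF f := NR.short hf.le h

end Pool.Agent.MRF
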