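import Pool.Agent.Lib.MRF.Defs
import Pool.Agent.Lib.MRL.AC

/-! TANK MRF, row AC: the union of the good sets up to level `J`. helper50. -/

set_option autoImplicit false

namespace Pool.Agent.MRF

open Finset MeasureTheory Pool.Agent.MRL Pool.Agent.MRHal

theorem cb_AF (f : ℕ → ℂ) (Y : ℝ) : CB (AF f Y) := by
  unfold AF
  exact CB.sum _ fun m _ => (CB.const _).mul (CB.nt m)

theorem cb_QF (f : ℕ → ℂ) (H v : ℕ) : CB (QF f H v) := by
  unfold QF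
  exact CB.sum _ fun m _ => (CB.const _).mul (CB.nt m)

theorem cb_SF (f : ℕ → ℂ) (X : ℝ) (H v1 v2 : ℕ) : CB (SF f X H v1 v2) := by
  unfold SF
  exact CB.sum _ fun v _ => (cb_QF f H v).mul (cb_AF f _)

theorem cb_neg {f : ℝ → ℂ} (hf : CB f) : CB fun t => -f t := by
  obtain ⟨hf, M, hM⟩ := hf
  exact ⟨hf.neg, M, fun t => by rw [norm_neg]; exact hM t⟩

theorem cb_sub {f h : ℝ → ℂ} (hf : CB f) (hh : CB h) : CB fun t => f t - h t := by
  have := hf.add (cb_neg hh)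
  simpa only [← sub_eq_add_neg] using this

/-! ### One piece -/

/-- `|A|^2 ≤ 2 |A - S / L|^2 + 2 |S|^2`, integrated. -/
theorem pieceF (f : ℕ → ℂ) {X T L B B' : ℝ} {H v1 v2 : ℕ} (hT : 0 < T) (hL : 1 ≤ L) {E : Set ℝ}
    (hE : MeasurableSet E)
    (h1 : ∫ t : ℝ, ‖AF f X t - ((1 / L : ℝ) : ℂ) * SF f X H v1 v2 t‖ ^ 2 * g T t ≤ B)
    (h2 : ∫ t in E, ‖SF f X H v1 v2 t‖ ^ 2 * g T t ≤ B') :
    ∫ t in E, ‖AF f X t‖ ^ 2 * g T t ≤ 2 * B + 2 * B' := by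
  have hD := (cb_sub (cb_AF f X) ((CB.const ((1 / L : ℝ) : ℂ)).mul (cb_SF f X H v1 v2))).integrable hT
  have hS := (cb_SF f X H v1 v2).integrable hT
  have hle : ∫ t in E, ‖AF f X t‖ ^ 2 * g T t ≤
      ∫ t in E, (2 * (‖AF f X t - ((1 / L : ℝ) : ℂ) * SF f X H v1 v2 t‖ ^ 2 * g T t) +
        2 * (‖SF f X H v1 v2 t‖ ^ 2 * g T t)) := by
    refine setIntegral_mono_on ((cb_AF f X).integrable hT).integrableOn
      ((hD.const_mul 2).add (hS.const_mul 2)).integrableOn hE fun t _ => ?_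
    have e1 : AF f X t = (AF f X t - ((1 / L : ℝ) : ℂ) * SF f X H v1 v2 t) +
        ((1 / L : ℝ) : ℂ) * SF f X H v1 v2 t := by ring
    have e2 : ‖AF f X t‖ ≤ ‖AF f X t - ((1 / L : ℝ) : ℂ) * SF f X H v1 v2 t‖ + ‖SF f X H v1 v2 t‖ := by
      have e3 : ‖((1 / L : ℝ) : ℂ) * SF f X H v1 v2 t‖ ≤ ‖SF f X H v1 v2 t‖ := by
        rw [norm_mul, Complex.norm_real, Real.norm_of_nonneg (by positivity)]
        have h3 : 1 / L ≤ 1 := by
          rw [div_le_one (by linarith)]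
          exact hL
        exact mul_le_of_le_one_left (norm_nonneg _) h3
      calc ‖AF f X t‖ = ‖(AF f X t - ((1 / L : ℝ) : ℂ) * SF f X H v1 v2 t) +
            ((1 / L : ℝ) : ℂ) * SF f X H v1 v2 t‖ := by rw [← e1]
        _ ≤ _ := (norm_add_le _ _).trans (by linarith)
    have e4 : ‖AF f X t‖ ^ 2 ≤ 2 * ‖AF f X t - ((1 / L : ℝ) : ℂ) * SF f X H v1 v2 t‖ ^ 2 +
        2 * ‖SF f X H v1 v2 t‖ ^ 2 := by
      nlinarith [norm_nonneg (AF f X t), norm_nonneg (SF f X H v1 v2 t),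
        norm_nonneg (AF f X t - ((1 / L : ℝ) : ℂ) * SF f X H v1 v2 t),
        sq_nonneg (‖AF f X t - ((1 / L : ℝ) : ℂ) * SF f X H v1 v2 t‖ - ‖SF f X H v1 v2 t‖)]
    have h5 := mul_le_mul_of_nonneg_right e4 (g_nonneg T t)
    linarith
  refine hle.trans ?_
  rw [integral_add (hD.const_mul 2).integrableOn (hS.const_mul 2).integrableOn,
    integral_const_mul, integral_const_mul]
  have h6 : ∫ t in E, ‖AF f X t - ((1 / L : ℝ) : ℂ) * SF f X H v1 v2 t‖ ^ 2 * g T t ≤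
      ∫ t : ℝ, ‖AF f X t - ((1 / L : ℝ) : ℂ) * SF f X H v1 v2 t‖ ^ 2 * g T t :=
    setIntegral_le_integral hD (Filter.Eventually.of_forall fun t =>
      mul_nonneg (sq_nonneg _) (g_nonneg T t))
  linarith

/-! ### The row -/

theorem chainPartF {f : ℕ → ℂ} (_hf : CM f) (hD : DecompF f) (h1 : StepOneF f) (hJ : StepJF f) :
    ChainPartF f := by
  obtain ⟨CD, hCD, hD⟩ := hD
  obtain ⟨C1, hC1, h1⟩ := h1
  obtain ⟨CJ, hCJ, hJ⟩ := hJ
  refine ⟨CJ, hCJ, 8 * CD + 2 * C1 + 4 * CJ, by linarith, ?_⟩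
  intro K α s hK hα hα4 hP J X T hT hTX hTX0 hX
  obtain ⟨hs, hH, hal, h0, hstep⟩ := hP
  have hK0 : 0 < K := by linarith
  -- the defect at one level
  have hdef : ∀ j ≤ J, ∫ t : ℝ, ‖AF f X t - ((1 / LL (s j).H (s j).v1 (s j).v2 : ℝ) : ℂ) *
      SF f X (s j).H (s j).v1 (s j).v2 t‖ ^ 2 * g T t ≤ 2 * CD / K * (1 / ((j : ℝ) + 1) ^ 2) := by
    intro j hj
    obtain ⟨hHK, hLK⟩ := hH j
    have hj1 : (1 : ℝ) ≤ ((j : ℝ) + 1) ^ 2 := by
      have : (0 : ℝ) ≤ j := Nat.cast_nonneg j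
      nlinarith
    have hKj : 1 ≤ K * ((j : ℝ) + 1) ^ 2 := by nlinarith
    refine (hD X T (s j).H (s j).v1 (s j).v2 (hs j).1 (hX j hj).2 (hs j).2.2.1.le
      (hKj.trans hLK) (hX j hj).1 hT hTX).trans ?_
    have e1 : 1 / LL (s j).H (s j).v1 (s j).v2 ≤ 1 / (K * ((j : ℝ) + 1) ^ 2) :=
      one_div_le_one_div_of_le (by linarith) hLK
    have e2 : 1 / ((s j).H : ℝ) ≤ 1 / (K * ((j : ℝ) + 1) ^ 2) :=
      one_div_le_one_div_of_le (by linarith) hHK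
    calc CD * (1 / LL (s j).H (s j).v1 (s j).v2 + 1 / ((s j).H : ℝ)) ≤
        CD * (1 / (K * ((j : ℝ) + 1) ^ 2) + 1 / (K * ((j : ℝ) + 1) ^ 2)) :=
          mul_le_mul_of_nonneg_left (add_le_add e1 e2) hCD.le
      _ = 2 * CD / K * (1 / ((j : ℝ) + 1) ^ 2) := by
          field_simp
          ring
  have hL1 : ∀ j, 1 ≤ LL (s j).H (s j).v1 (s j).v2 := by
    intro j
    have hj1 : (1 : ℝ) ≤ ((j : ℝ) + 1) ^ 2 := by
      have : (0 : ℝ) ≤ j := Nat.cast_nonneg j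
      nlinarith
    have hKj : 1 ≤ K * ((j : ℝ) + 1) ^ 2 := by nlinarith
    exact hKj.trans (hH j).2
  have hmeas : ∀ j, MeasurableSet {t : ℝ | ScaleGood f (s j) t} := fun j =>
    (isClosed_goodF f (s j).H (s j).v1 (s j).v2 (s j).α).measurableSet
  -- level 0
  have hlev0 : ∫ t in {t : ℝ | ScaleGood f (s 0) t}, ‖AF f X t‖ ^ 2 * g T t ≤
      2 * (2 * CD / K * (1 / (((0 : ℕ) : ℝ) + 1) ^ 2)) + 2 * (C1 * (1 / K)) := by
    refine pieceF f hT (hL1 0) (hmeas 0) (hdef 0 (Nat.zero_le _)) ?_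
    refine (h1 X T (s 0).H (s 0).v1 (s 0).v2 (s 0).α (hs 0).1 (hs 0).2.2.1.le hT
      (by linarith [(hal 0).1]) hTX0 (hX 0 (Nat.zero_le _)).1).trans ?_
    rw [mul_assoc]
    refine mul_le_mul_of_nonneg_left ?_ hC1.le
    set x := (s 0).α * (((s 0).v1 : ℝ) / (s 0).H) with hx
    have e1 : 2 * (s 0).α * ((s 0).v1 : ℝ) / (s 0).H = 2 * x := by
      rw [hx]
      ring
    rw [e1]
    have hv : (0 : ℝ) < ((s 0).v2 : ℝ) + 2 := by positivity
    have e2 : ((s 0).v2 : ℝ) ^ 2 ≤ Real.exp (2 * Real.log (((s 0).v2 : ℝ) + 2)) := by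
      rw [mul_comm, Real.exp_mul, Real.exp_log hv, Real.rpow_two]
      exact pow_le_pow_left₀ (Nat.cast_nonneg _) (by linarith) 2
    have e3 : 0 ≤ Real.log (((s 0).v2 : ℝ) + 2) := Real.log_nonneg (by
      have : (0 : ℝ) ≤ ((s 0).v2 : ℝ) := Nat.cast_nonneg _
      linarith)
    calc ((s 0).v2 : ℝ) ^ 2 * Real.exp (-(2 * x)) ≤
        Real.exp (2 * Real.log (((s 0).v2 : ℝ) + 2)) * Real.exp (-(2 * x)) :=
          mul_le_mul_of_nonneg_right e2 (Real.exp_pos _).le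
      _ = Real.exp (2 * Real.log (((s 0).v2 : ℝ) + 2) + -(2 * x)) := (Real.exp_add _ _).symm
      _ ≤ Real.exp (-K) := Real.exp_le_exp.2 (by linarith)
      _ ≤ 1 / K := exp_neg_le_inv hK
  -- level j + 1
  have hlevj : ∀ j < J, ∫ t in {t : ℝ | ScaleGood f (s (j + 1)) t ∧ ¬ ScaleGood f (s j) t}, ‖AF f X t‖ ^ 2 * g T t ≤
      2 * (2 * CD / K * (1 / (((j + 1 : ℕ) : ℝ) + 1) ^ 2)) + 2 * (CJ * Real.exp (-(K + j))) := by
    intro j hj
    refine pieceF f hT (hL1 (j + 1)) ((hmeas (j + 1)).inter (hmeas j).compl) (hdef (j + 1) hj) ?_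
    obtain ⟨p1, p2, p3, p4⟩ := hstep j
    refine (hJ X T (s j).H (s j).v1 (s j).v2 (s (j + 1)).H (s (j + 1)).v1 (s (j + 1)).v2
      (s j).α (s (j + 1)).α (hs j).1 (hs j).2.1 (hs j).2.2.1.le (hs j).2.2.2 (hs (j + 1)).2.1
      (hs (j + 1)).2.2.1.le (by linarith [(hal j).1]) (hal j).2.1
      (by linarith [(hal (j + 1)).2.2]) p1 p2 p3 hT hTX (hX (j + 1) hj).1).trans ?_
    refine mul_le_mul_of_nonneg_left (Real.exp_le_exp.2 ?_) (by linarith)
    have e1 : ((s (j + 1)).α - (s j).α) * ((s (j + 1)).v1 : ℝ) / (s (j + 1)).H =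
        ((s (j + 1)).α - (s j).α) * (((s (j + 1)).v1 : ℝ) / (s (j + 1)).H) := by ring
    rw [e1]
    linarith
  -- induction over the levels
  have hF := (cb_AF f X).integrable hT
  have hnn : ∀ t, 0 ≤ ‖AF f X t‖ ^ 2 * g T t := fun t => mul_nonneg (sq_nonneg _) (g_nonneg T t)
  have hind : ∀ m ≤ J, ∫ t in {t : ℝ | ∃ j ≤ m, ScaleGood f (s j) t}, ‖AF f X t‖ ^ 2 * g T t ≤
      4 * CD / K * ∑ j ∈ range (m + 1), 1 / ((j : ℝ) + 1) ^ 2 + 2 * (C1 * (1 / K)) +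
        2 * CJ * ∑ j ∈ range m, Real.exp (-(K + j)) := by
    intro m
    induction m with
    | zero =>
      intro _
      have e1 : {t : ℝ | ∃ j ≤ 0, ScaleGood f (s j) t} = {t : ℝ | ScaleGood f (s 0) t} := by
        ext t
        simp
      rw [e1]
      refine hlev0.trans ?_
      simp
      ring_nf
      rfl
    | succ m ih =>
      intro hm
      have e1 : {t : ℝ | ∃ j ≤ m + 1, ScaleGood f (s j) t} ⊆ {t : ℝ | ∃ j ≤ m, ScaleGood f (s j) t} ∪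
          {t : ℝ | ScaleGood f (s (m + 1)) t ∧ ¬ ScaleGood f (s m) t} := by
        rintro t ⟨j, hj, hg⟩
        by_cases hmg : ScaleGood f (s m) t
        · exact Or.inl ⟨m, le_rfl, hmg⟩
        · rcases Nat.lt_or_ge m j with h | h
          · obtain rfl : j = m + 1 := by omega
            exact Or.inr ⟨hg, hmg⟩
          · exact Or.inl ⟨j, h, hg⟩
      have e2 : ∫ t in {t : ℝ | ∃ j ≤ m + 1, ScaleGood f (s j) t}, ‖AF f X t‖ ^ 2 * g T t ≤
          ∫ t in {t : ℝ | ∃ j ≤ m, ScaleGood f (s j) t} ∪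
            {t : ℝ | ScaleGood f (s (m + 1)) t ∧ ¬ ScaleGood f (s m) t}, ‖AF f X t‖ ^ 2 * g T t :=
        setIntegral_mono_set hF.integrableOn
          (Filter.Eventually.of_forall hnn) (Filter.Eventually.of_forall e1)
      refine e2.trans ?_
      have e3 : ∫ t in {t : ℝ | ∃ j ≤ m, ScaleGood f (s j) t} ∪
            {t : ℝ | ScaleGood f (s (m + 1)) t ∧ ¬ ScaleGood f (s m) t}, ‖AF f X t‖ ^ 2 * g T t ≤
          (∫ t in {t : ℝ | ∃ j ≤ m, ScaleGood f (s j) t}, ‖AF f X t‖ ^ 2 * g T t) +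
          ∫ t in {t : ℝ | ScaleGood f (s (m + 1)) t ∧ ¬ ScaleGood f (s m) t}, ‖AF f X t‖ ^ 2 * g T t := by
        have hm2 : MeasurableSet {t : ℝ | ScaleGood f (s (m + 1)) t ∧ ¬ ScaleGood f (s m) t} :=
          (hmeas (m + 1)).inter (hmeas m).compl
        exact setIntegral_union_le hm2 hF hnn
      refine e3.trans ?_
      have h5 := ih (by omega)
      have h6 := hlevj m hm
      rw [sum_range_succ (fun j : ℕ => 1 / ((j : ℝ) + 1) ^ 2) (m + 1),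
        sum_range_succ (fun j : ℕ => Real.exp (-(K + j))) m]
      have e4 : 2 * (2 * CD / K * (1 / (((m + 1 : ℕ) : ℝ) + 1) ^ 2)) =
        4 * CD / K * (1 / (((m + 1 : ℕ) : ℝ) + 1) ^ 2) := by ring
      rw [e4] at h6
      linarith
  refine (hind J le_rfl).trans ?_
  have f1 := sum_inv_sq_succ J
  have f2 := sum_exp_neg_le K J
  have f3 := exp_neg_le_inv hK
  have f4 : (0 : ℝ) < 1 / ((J : ℝ) + 1) := by positivity
  have f5 : 4 * CD / K * ∑ j ∈ range (J + 1), 1 / ((j : ℝ) + 1) ^ 2 ≤ 4 * CD / K * 2 :=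
    mul_le_mul_of_nonneg_left (by linarith) (by positivity)
  have f6 : 2 * CJ * ∑ j ∈ range J, Real.exp (-(K + j)) ≤ 2 * CJ * (2 * (1 / K)) :=
    mul_le_mul_of_nonneg_left (by linarith) (by linarith)
  have f7 : (8 * CD + 2 * C1 + 4 * CJ) / K =
      4 * CD / K * 2 + 2 * (C1 * (1 / K)) + 2 * CJ * (2 * (1 / K)) := by
    field_simp
    ring
  rw [f7]
  linarith

end Pool.Agent.MRF
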