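import Pool.Agent.Lib.MRF.Defs
import Pool.Agent.Lib.MRL.Basics

/-! TANK MRF, ROW F_AS: assembly of the bounded-`h` Matomäki–Radziwiłł theorem for a completely
multiplicative `f`. helper89. -/

set_option autoImplicit false

namespace Pool.Agent.MRF

open Finset MeasureTheory Pool.Agent.MRL Pool.Agent.MRHal

theorem integrable_AF {F : ℕ → ℂ} (hF : ∀ n, ‖F n‖ ≤ 1) {X T : ℝ} (hT : 0 < T) :
    Integrable (fun t => ‖AF F X t‖ ^ 2 * g T t) :=
  Bas.integrable_bdd_g (continuous_AF F X) (norm_AF_le hF X) hT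

theorem mrdF {F : ℕ → ℂ} (hF : CM F) (hC : ChainPartF F) (hU : UPartF F) (hT : TailPartF F)
    (hN : NumJ) (hL : LargeCountF F) (hP : Params) : MRDF F := by
  classical
  intro δ hδ
  obtain ⟨CJ, hCJ, C, hC0, hC⟩ := hC
  obtain ⟨θ, hθ0, hθ1, X1, hU⟩ := hU (δ / 3) (by positivity)
  obtain ⟨h1, hh1, hT⟩ := hT (δ / 3) (by positivity)
  set α : ℝ := min (1 / 4) (θ / 16) with hα
  have hα0 : 0 < α := lt_min (by norm_num) (by positivity)
  have hα4 : α ≤ 1 / 4 := min_le_left _ _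
  have hαθ : α ≤ θ / 16 := min_le_right _ _
  set K : ℝ := max 1 (3 * C / δ) with hK
  have hK1 : 1 ≤ K := le_max_left _ _
  have hKC : C / K ≤ δ / 3 := by
    have h2 : 3 * C / δ ≤ K := le_max_right _ _
    rw [div_le_iff₀ (by linarith)]
    rw [div_le_iff₀ hδ] at h2
    linarith
  obtain ⟨s, hs⟩ := (params_iff.1 hP) K α CJ hK1 hα0 hα4 hCJ
  obtain ⟨X2, hN⟩ := hN K α CJ θ s hK1 hα0 hα4 hCJ hθ0 hθ1 hαθ hs
  obtain ⟨X3, hL⟩ := hL θ hθ0 hθ1
  refine ⟨max h1 (Real.exp (((s 0).v2 : ℝ) / (s 0).H)), le_max_of_le_left hh1,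
    max (max X1 X2) (max X3 2), fun X hX T hT1 hTX => ?_⟩
  have hX1 : X1 ≤ X := (le_max_left _ _).trans ((le_max_left _ _).trans hX)
  have hX2 : X2 ≤ X := (le_max_right _ _).trans ((le_max_left _ _).trans hX)
  have hX3 : X3 ≤ X := (le_max_left _ _).trans ((le_max_right _ _).trans hX)
  have hX4 : 2 ≤ X := (le_max_right _ _).trans ((le_max_right _ _).trans hX)
  have hT0 : 0 < T := by linarith
  have hh0 : 0 < max h1 (Real.exp (((s 0).v2 : ℝ) / (s 0).H)) := lt_max_of_lt_right (Real.exp_pos _)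
  have hTh : T * max h1 (Real.exp (((s 0).v2 : ℝ) / (s 0).H)) ≤ X := (le_div_iff₀ hh0).1 hTX
  have hTh1 : T ≤ X / h1 := by
    rw [le_div_iff₀ (by linarith)]
    refine le_trans ?_ hTh
    gcongr
    exact le_max_left _ _
  have hTe : T * Real.exp (((s 0).v2 : ℝ) / (s 0).H) ≤ X := by
    refine le_trans ?_ hTh
    gcongr
    exact le_max_right _ _
  have hTX' : T ≤ X := by
    have h2 : T * 1 ≤ T * h1 := by gcongr
    have h3 : T * h1 ≤ X := (le_div_iff₀ (by linarith)).1 hTh1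
    linarith
  obtain ⟨J, hJ1, hJ2, hJ3⟩ := hN X hX2
  have hsJ := hs.1 J
  have hsα := hs.2.2.1 J
  set G : Set ℝ := {t : ℝ | ∃ j ≤ J, ScaleGood F (s j) t} with hG
  have hGm : MeasurableSet G := (isClosed_exists_scaleGood F s J).measurableSet
  set f : ℝ → ℝ := fun t => ‖AF F X t‖ ^ 2 * g T t with hf
  have hfi : Integrable f := integrable_AF hF.le hT0
  have hf0 : ∀ t, 0 ≤ f t := fun t => mul_nonneg (by positivity) (Bas.g_nonneg T t)
  set E : Set ℝ := Gᶜ ∩ {t : ℝ | |t| ≤ X} with hE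
  have hEm : MeasurableSet E := hGm.compl.inter (measurableSet_le measurable_id.abs measurable_const)
  set R : Finset ℤ := (Icc (-(⌈X⌉ + 1)) (⌈X⌉ + 1)).filter
    (fun r : ℤ => ∃ t ∈ Set.Icc (r : ℝ) (r + 1),
      ¬ GoodF F (s J).H (s J).v1 (s J).v2 (s J).α t) with hR
  have hRX : ∀ r ∈ Icc (-(⌈X⌉ + 1)) (⌈X⌉ + 1), |(r : ℝ)| ≤ X + 2 := by
    intro r hr
    rw [mem_Icc] at hr
    have h2 : (⌈X⌉ : ℝ) < X + 1 := Int.ceil_lt_add_one X
    have h3 : (r : ℝ) ≤ ⌈X⌉ + 1 := by exact_mod_cast hr.2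
    have h4 : -((⌈X⌉ : ℝ) + 1) ≤ r := by exact_mod_cast hr.1
    rw [abs_le]
    constructor <;> linarith
  have hR2 : ∀ r ∈ R, |(r : ℝ)| ≤ 2 * X := fun r hr => by
    have := hRX r (mem_filter.1 hr).1
    linarith
  have hRc : (R.card : ℝ) ≤ X ^ θ := by
    refine hL X hX3 (s J).H (s J).v1 (s J).v2 (s J).α hsJ.1 hsJ.2.1 hsJ.2.2.1.le ?_ ?_
      (hJ3 J le_rfl).1 hJ1 hJ2 R hR2 (fun r hr => (mem_filter.1 hr).2)
    · linarith [hsα.1]
    · linarith [hsα.2.2]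
  have hER : ∀ t ∈ E, ∃ r ∈ R, t ∈ Set.Icc (r : ℝ) (r + 1) := by
    intro t ht
    obtain ⟨htG, htX⟩ := ht
    have htX' : -X ≤ t ∧ t ≤ X := abs_le.1 htX
    have h2 : (X : ℝ) ≤ ⌈X⌉ := Int.le_ceil X
    have hfl : (⌊t⌋ : ℝ) ≤ t := Int.floor_le t
    have hfl' : t < (⌊t⌋ : ℝ) + 1 := Int.lt_floor_add_one t
    have hmem : t ∈ Set.Icc ((⌊t⌋ : ℤ) : ℝ) ((⌊t⌋ : ℤ) + 1) := ⟨hfl, hfl'.le⟩
    refine ⟨⌊t⌋, mem_filter.2 ⟨mem_Icc.2 ⟨?_, ?_⟩, t, hmem, fun hgood => htG ⟨J, le_rfl, hgood⟩⟩, hmem⟩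
    · have h5 : ((-(⌈X⌉ + 1) : ℤ) : ℝ) < ⌊t⌋ + 1 := by push_cast; linarith [htX'.1]
      have h6 : -(⌈X⌉ + 1) < ⌊t⌋ + 1 := by exact_mod_cast h5
      omega
    · have h5 : (⌊t⌋ : ℝ) ≤ ((⌈X⌉ + 1 : ℤ) : ℝ) := by push_cast; linarith [htX'.2]
      exact_mod_cast h5
  have e1 : ∫ t in G, f t ≤ δ / 3 :=
    (hC K α s hK1 hα0 hα4 hs J X T hT0 hTX' hTe (fun j hj => (hJ3 j hj).2)).trans hKC
  have e2 : ∫ t in E, f t ≤ δ / 3 :=
    hU X T hX1 hT0 hTX' E R hEm (fun t ht => ht.2) hR2 hRc hER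
  have e3 : ∫ t in {t : ℝ | X < |t|}, f t ≤ δ / 3 := hT X T (by linarith) hT0 hTh1
  have e4 : ∫ t, f t = (∫ t in G, f t) + ∫ t in Gᶜ, f t := (integral_add_compl hGm hfi).symm
  have e5 : ∫ t in Gᶜ, f t ≤ ∫ t in E ∪ {t : ℝ | X < |t|}, f t := by
    apply setIntegral_mono_set hfi.integrableOn (Filter.Eventually.of_forall hf0)
    refine Filter.Eventually.of_forall fun t ht => ?_
    rcases le_or_gt |t| X with h | h
    · exact Or.inl ⟨ht, h⟩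
    · exact Or.inr h
  have e6 : ∫ t in E ∪ {t : ℝ | X < |t|}, f t
      = (∫ t in E, f t) + ∫ t in {t : ℝ | X < |t|}, f t := by
    apply setIntegral_union _ (measurableSet_lt measurable_const measurable_id.abs)
      hfi.integrableOn hfi.integrableOn
    rw [Set.disjoint_left]
    intro t ht ht'
    have h7 : |t| ≤ X := ht.2
    have h8 : X < |t| := ht'
    linarith
  linarith

end Pool.Agent.MRF
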