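import Pool.Agent.Lib.MRL.Defs2
import Pool.Agent.Lib.MRL.HalB

/-! TANK MRF: Matomäki–Radziwiłł for a completely multiplicative `f : ℕ → ℂ` with `|f| ≤ 1`.
The statements of `Pool.Agent.MRL` with `lam` replaced by `f`.  The weights `g`, the windows `W`,
`LL`, the characters `nt`, the scales and `MeanValue, MertensLower, VDC, ZetaUp, Params, NumJ` are
those of `Pool.Agent.MRL`.  helper86. -/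

set_option autoImplicit false

namespace Pool.Agent.MRF

open Finset Pool.Agent.MRL Pool.Agent.MRHal

noncomputable section

/-- `A_Y(1+it) = Σ_{Y < m ≤ 2Y} f(m) m^{-1-it}`. -/
def AF (f : ℕ → ℂ) (Y t : ℝ) : ℂ :=
  ∑ m ∈ Ioc ⌊Y⌋₊ ⌊2 * Y⌋₊, (((1 / (m : ℝ) : ℝ) : ℂ) * f m) * nt m t

/-- `Q_v(1+it) = Σ_{p ∈ W} f(p) p^{-1-it}`. -/
def QF (f : ℕ → ℂ) (H v : ℕ) (t : ℝ) : ℂ :=
  ∑ p ∈ W H v, (((1 / (p : ℝ) : ℝ) : ℂ) * f p) * nt p t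

/-- the main term `S = Σ_v Q_v(1+it) A_{X e^{-v/H}}(1+it)`. -/
def SF (f : ℕ → ℂ) (X : ℝ) (H v1 v2 : ℕ) (t : ℝ) : ℂ :=
  ∑ v ∈ Ico v1 v2, QF f H v t * AF f (X * Real.exp (-((v : ℝ) / H))) t

/-- all prime polynomials of the scale are small at `t`. -/
def GoodF (f : ℕ → ℂ) (H v1 v2 : ℕ) (α t : ℝ) : Prop :=
  ∀ v ∈ Ico v1 v2, ‖QF f H v t‖ ≤ Real.exp (-(α * v / H))

/-- `Good` for a scale. -/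
def ScaleGood (f : ℕ → ℂ) (s : Scale) (t : ℝ) : Prop := GoodF f s.H s.v1 s.v2 s.α t

/-! ### The statements -/

/-- bounded-`h` Matomäki–Radziwiłł for `f`, Dirichlet polynomial form. -/
def MRDF (f : ℕ → ℂ) : Prop := ∀ δ : ℝ, 0 < δ → ∃ h : ℝ, 1 ≤ h ∧ ∃ X0 : ℝ, ∀ X : ℝ, X0 ≤ X →
  ∀ T : ℝ, 1 ≤ T → T ≤ X / h → ∫ t : ℝ, ‖AF f X t‖ ^ 2 * g T t ≤ δ

/-- bounded-`h` Matomäki–Radziwiłł for `f`: almost all short sums are small. -/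
def ShortF (f : ℕ → ℂ) : Prop := ∀ ε : ℝ, 0 < ε → ∃ h0 : ℕ, ∀ h : ℕ, h0 ≤ h → ∃ X0 : ℝ,
  ∀ X : ℝ, X0 ≤ X →
    ∑ x ∈ Icc ⌈X⌉₊ ⌊2 * X⌋₊, ‖∑ j ∈ Icc 1 h, f (x + j)‖ ≤ ε * h * X

/-- Turán–Kubilius decomposition `A = (1/L) S + small in mean square`. -/
def DecompF (f : ℕ → ℂ) : Prop := ∃ C : ℝ, 0 < C ∧ ∀ (X T : ℝ) (H v1 v2 : ℕ), 1 ≤ H →
  (H : ℝ) ≤ X → v1 ≤ v2 → 1 ≤ LL H v1 v2 → Real.exp ((v2 : ℝ) / H) ≤ √X → 0 < T → T ≤ X →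
  ∫ t : ℝ, ‖AF f X t - ((1 / LL H v1 v2 : ℝ) : ℂ) * SF f X H v1 v2 t‖ ^ 2 * g T t
    ≤ C * (1 / LL H v1 v2 + 1 / H)

/-- the set where all `Q_v` of the first scale are small. -/
def StepOneF (f : ℕ → ℂ) : Prop := ∃ C : ℝ, 0 < C ∧ ∀ (X T : ℝ) (H v1 v2 : ℕ) (α : ℝ), 1 ≤ H →
  v1 ≤ v2 → 0 < T → 0 ≤ α → T * Real.exp ((v2 : ℝ) / H) ≤ X → Real.exp ((v2 : ℝ) / H) ≤ √X →
  ∫ t in {t : ℝ | GoodF f H v1 v2 α t}, ‖SF f X H v1 v2 t‖ ^ 2 * g T t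
    ≤ C * (v2 : ℝ) ^ 2 * Real.exp (-(2 * α * v1 / H))

/-- the set `T_j \ T_{j-1}`; primed data = the previous scale. -/
def StepJF (f : ℕ → ℂ) : Prop := ∃ C : ℝ, 1 ≤ C ∧
  ∀ (X T : ℝ) (H' v1' v2' H v1 v2 : ℕ) (α' α : ℝ),
  1 ≤ H' → H' ≤ v1' → v1' ≤ v2' → H' ≤ H → H ≤ v1 → v1 ≤ v2 →
  0 ≤ α' → α' < α → α ≤ 1 →
  12 * ((v2' : ℝ) / H') ≤ (α - α') * ((v1 : ℝ) / H) →
  12 * Real.log ((v2 : ℝ) + 2) ≤ (α - α') * ((v1 : ℝ) / H) →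
  Real.log (C * ((v2 : ℝ) / H) + C) ≤ (α - α') / 2 * ((v1' : ℝ) / H') →
  0 < T → T ≤ X → Real.exp ((v2 : ℝ) / H) ≤ √X →
  ∫ t in {t : ℝ | GoodF f H v1 v2 α t ∧ ¬ GoodF f H' v1' v2' α' t},
      ‖SF f X H v1 v2 t‖ ^ 2 * g T t
    ≤ C * Real.exp (-((α - α') * v1 / H))

/-- Moment bound for `Q_v^l A_Y`. -/
def MomentF (f : ℕ → ℂ) : Prop := ∃ C : ℝ, 1 ≤ C ∧ ∀ (l H v : ℕ) (Y : ℝ), 1 ≤ l → 1 ≤ H →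
  H ≤ v → 1 ≤ Y →
  ∃ (N : ℕ) (c : ℕ → ℂ), 1 ≤ N ∧ (N : ℝ) ≤ 2 * Real.exp (l * (((v : ℝ) + 1) / H)) * Y ∧
    (∀ t : ℝ, QF f H v t ^ l * AF f Y t = ∑ n ∈ Icc 1 N, c n * nt n t) ∧
    (∀ n : ℕ, c n ≠ 0 → Real.exp (l * ((v : ℝ) / H)) * Y ≤ n) ∧
    ∑ n ∈ Icc 1 N, ‖c n‖ ^ 2 * n ≤ (C * l) ^ l

/-- Moment bound for `Q_v^l`. -/
def Moment0F (f : ℕ → ℂ) : Prop := ∃ C : ℝ, 1 ≤ C ∧ ∀ (l H v : ℕ), 1 ≤ l → 1 ≤ H → H ≤ v →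
  ∃ (N : ℕ) (c : ℕ → ℂ), 1 ≤ N ∧ (N : ℝ) ≤ Real.exp (l * (((v : ℝ) + 1) / H)) ∧
    (∀ t : ℝ, QF f H v t ^ l = ∑ n ∈ Icc 1 N, c n * nt n t) ∧
    (∀ n : ℕ, c n ≠ 0 → Real.exp (l * ((v : ℝ) / H)) ≤ n) ∧
    ∑ n ∈ Icc 1 N, ‖c n‖ ^ 2 * n ≤ (C * l) ^ l

/-- the exceptional set has few unit intervals. -/
def LargeCountF (f : ℕ → ℂ) : Prop := ∀ θ : ℝ, 0 < θ → θ ≤ 1 → ∃ X0 : ℝ, ∀ X : ℝ, X0 ≤ X →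
  ∀ (H v1 v2 : ℕ) (α : ℝ), 1 ≤ H → H ≤ v1 → v1 ≤ v2 → 0 ≤ α → α ≤ θ / 16 →
  (v2 : ℝ) / H ≤ θ / 16 * Real.log X → 16 / θ * Real.log (Real.log X) ≤ (v1 : ℝ) / H →
  12 * Real.log ((v2 : ℝ) + 2) ≤ (v1 : ℝ) / H →
  ∀ R : Finset ℤ, (∀ r ∈ R, |(r : ℝ)| ≤ 2 * X) →
    (∀ r ∈ R, ∃ t ∈ Set.Icc (r : ℝ) (r + 1), ¬ GoodF f H v1 v2 α t) →
    (R.card : ℝ) ≤ X ^ θ

/-- prime polynomial on a sparse set (Halász–Montgomery with sieve majorant). -/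
def SparsePrimesF (f : ℕ → ℂ) : Prop := ∀ β : ℝ, 0 < β → β ≤ 1 / 8 → ∃ θ : ℝ, 0 < θ ∧ θ ≤ 1 ∧
  ∃ C : ℝ, 0 < C ∧ ∃ X0 : ℝ, ∀ X : ℝ, X0 ≤ X → ∀ H v : ℕ, 1 ≤ H →
  X ^ β ≤ Real.exp ((v : ℝ) / H) → Real.exp (((v : ℝ) + 1) / H) ≤ √X →
  ∀ (R : Finset ℤ) (τ : ℤ → ℝ), (∀ r ∈ R, |(r : ℝ)| ≤ 2 * X) → (R.card : ℝ) ≤ X ^ θ →
    (∀ r ∈ R, τ r ∈ Set.Icc (r : ℝ) (r + 1)) →
    ∑ r ∈ R, ‖QF f H v (τ r)‖ ^ 2 ≤ C / (Real.log X) ^ 2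

/-- the Dirichlet series of `f` at `1 + a + iτ` (for `a > 0`). -/
def FlF (f : ℕ → ℂ) (a τ : ℝ) : ℂ := ∑' n : ℕ, f n * ((1 / n * (n : ℝ) ^ (-a) : ℝ) : ℂ) * nt n τ

/-- bound for the Dirichlet series of `f` near the line 1: the only fact about `f` beyond
complete multiplicativity and `|f| ≤ 1`. -/
def FlUpF (f : ℕ → ℂ) : Prop := ∃ κ : ℝ, 0 < κ ∧ κ ≤ 1 ∧ ∃ C0 : ℝ, 0 < C0 ∧ ∀ ε : ℝ, 0 < ε →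
  ∃ C : ℝ, 0 < C ∧ ∀ a τ : ℝ, 0 < a → a ≤ 1 →
    ‖FlF f a τ‖ ≤ C0 * a ^ (-(1 - κ)) * (ε * Real.log (2 + |τ|) + C) ^ κ

/-- `λ χ`, zero at `0`. -/
def lamChi {q : ℕ} (χ : DirichletCharacter ℂ q) (n : ℕ) : ℂ :=
  if n = 0 then 0 else ((lam n : ℝ) : ℂ) * χ n

/-- Halász for `f(n) n^{-it}`. -/
def HalaszF (f : ℕ → ℂ) : Prop := ∀ η : ℝ, 0 < η → ∃ x0 : ℝ, ∀ x : ℝ, x0 ≤ x → ∀ t : ℝ,
  |t| ≤ x ^ 3 → ‖∑ n ∈ Icc 1 ⌊x⌋₊, f n * nt n t‖ ≤ η * x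

/-- corollary of `HalaszF`. -/
def HalaszAF (f : ℕ → ℂ) : Prop := ∀ η : ℝ, 0 < η → ∃ Y0 : ℝ, ∀ Y : ℝ, Y0 ≤ Y → ∀ t : ℝ,
  |t| ≤ Y ^ 3 → ‖AF f Y t‖ ≤ η

/-- ROW AC: the union of all good sets up to level `J`. -/
def ChainPartF (f : ℕ → ℂ) : Prop := ∃ CJ : ℝ, 1 ≤ CJ ∧ ∃ C : ℝ, 0 < C ∧
  ∀ (K α : ℝ) (s : ℕ → Scale),
  1 ≤ K → 0 < α → α ≤ 1 / 4 → ParamsOK K α CJ s → ∀ (J : ℕ) (X T : ℝ), 0 < T → T ≤ X →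
  T * Real.exp (((s 0).v2 : ℝ) / (s 0).H) ≤ X →
  (∀ j ≤ J, Real.exp (((s j).v2 : ℝ) / (s j).H) ≤ √X ∧ ((s j).H : ℝ) ≤ X) →
  ∫ t in {t : ℝ | ∃ j ≤ J, ScaleGood f (s j) t}, ‖AF f X t‖ ^ 2 * g T t ≤ C / K

/-- ROW AU: small integral over any set covered by few unit intervals. -/
def UPartF (f : ℕ → ℂ) : Prop := ∀ δ : ℝ, 0 < δ → ∃ θ : ℝ, 0 < θ ∧ θ ≤ 1 ∧ ∃ X0 : ℝ,
  ∀ X T : ℝ, X0 ≤ X →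
  0 < T → T ≤ X → ∀ (E : Set ℝ) (R : Finset ℤ), MeasurableSet E → (∀ t ∈ E, |t| ≤ X) →
  (∀ r ∈ R, |(r : ℝ)| ≤ 2 * X) → (R.card : ℝ) ≤ X ^ θ →
  (∀ t ∈ E, ∃ r ∈ R, t ∈ Set.Icc (r : ℝ) (r + 1)) →
  ∫ t in E, ‖AF f X t‖ ^ 2 * g T t ≤ δ

/-- ROW AT: the Gaussian tail. -/
def TailPartF (f : ℕ → ℂ) : Prop := ∀ δ : ℝ, 0 < δ → ∃ h : ℝ, 1 ≤ h ∧ ∀ X T : ℝ, 1 ≤ X →
  0 < T → T ≤ X / h → ∫ t in {t : ℝ | X < |t|}, ‖AF f X t‖ ^ 2 * g T t ≤ δ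

end

/-! ### elementary facts -/

theorem norm_nt (n : ℕ) (t : ℝ) : ‖nt n t‖ = 1 := by
  unfold nt
  rw [← Complex.ofReal_neg]
  exact Complex.norm_exp_ofReal_mul_I _

theorem continuous_nt (n : ℕ) : Continuous (nt n) := by
  unfold nt
  fun_prop

theorem nt_mul {m n : ℕ} (hm : m ≠ 0) (hn : n ≠ 0) (t : ℝ) : nt (m * n) t = nt m t * nt n t := by
  unfold nt
  rw [← Complex.exp_add]
  congr 1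
  rw [Nat.cast_mul, Real.log_mul (by exact_mod_cast hm) (by exact_mod_cast hn)]
  push_cast
  ring

theorem continuous_AF (f : ℕ → ℂ) (Y : ℝ) : Continuous (AF f Y) := by
  unfold AF
  exact continuous_finsetSum _ fun m _ => continuous_const.mul (continuous_nt m)

theorem continuous_QF (f : ℕ → ℂ) (H v : ℕ) : Continuous (QF f H v) := by
  unfold QF
  exact continuous_finsetSum _ fun m _ => continuous_const.mul (continuous_nt m)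

theorem continuous_SF (f : ℕ → ℂ) (X : ℝ) (H v1 v2 : ℕ) : Continuous (SF f X H v1 v2) := by
  unfold SF
  exact continuous_finsetSum _ fun v _ => (continuous_QF f H v).mul (continuous_AF f _)

/-- the coefficients of `AF`, `QF` are at most `1 / m`. -/
theorem norm_coef {f : ℕ → ℂ} (hf : ∀ n, ‖f n‖ ≤ 1) (m : ℕ) :
    ‖((1 / (m : ℝ) : ℝ) : ℂ) * f m‖ ≤ 1 / m := by
  rw [norm_mul, Complex.norm_real, Real.norm_eq_abs, abs_of_nonneg (by positivity)]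
  exact mul_le_of_le_one_right (by positivity) (hf m)

theorem norm_AF_le {f : ℕ → ℂ} (hf : ∀ n, ‖f n‖ ≤ 1) (Y t : ℝ) :
    ‖AF f Y t‖ ≤ ∑ m ∈ Ioc ⌊Y⌋₊ ⌊2 * Y⌋₊, 1 / (m : ℝ) := by
  unfold AF
  refine (norm_sum_le _ _).trans (Finset.sum_le_sum fun m _ => ?_)
  rw [norm_mul, norm_nt, mul_one]
  exact norm_coef hf m

theorem norm_QF_le {f : ℕ → ℂ} (hf : ∀ n, ‖f n‖ ≤ 1) (H v : ℕ) (t : ℝ) :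
    ‖QF f H v t‖ ≤ ∑ p ∈ W H v, 1 / (p : ℝ) := by
  unfold QF
  refine (norm_sum_le _ _).trans (Finset.sum_le_sum fun m _ => ?_)
  rw [norm_mul, norm_nt, mul_one]
  exact norm_coef hf m

theorem isClosed_goodF (f : ℕ → ℂ) (H v1 v2 : ℕ) (α : ℝ) :
    IsClosed {t : ℝ | GoodF f H v1 v2 α t} := by
  have : {t : ℝ | GoodF f H v1 v2 α t} =
      ⋂ v ∈ Ico v1 v2, {t : ℝ | ‖QF f H v t‖ ≤ Real.exp (-(α * v / H))} := by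
    ext t
    simp [GoodF]
  rw [this]
  exact isClosed_biInter fun v _ => isClosed_le (continuous_QF f H v).norm continuous_const

theorem isClosed_exists_scaleGood (f : ℕ → ℂ) (s : ℕ → Scale) (J : ℕ) :
    IsClosed {t : ℝ | ∃ j ≤ J, ScaleGood f (s j) t} := by
  have : {t : ℝ | ∃ j ≤ J, ScaleGood f (s j) t} = ⋃ j ∈ Iic J, {t : ℝ | ScaleGood f (s j) t} := by
    ext t
    simp
  rw [this]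
  exact (Finset.finite_toSet _).isClosed_biUnion fun j _ => isClosed_goodF _ _ _ _ _

end Pool.Agent.MRF
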