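import Pool.Agent.Lib.MRF.Defs
import Pool.Agent.Lib.MRL.DC

/-! TANK MRF, row DC: the Turán–Kubilius decomposition for a completely multiplicative `f`
(`MeanValue → DecompF f`).  Port of `Lib/MRL/DC.lean`.  helper54. -/

set_option autoImplicit false

namespace Pool.Agent.MRF.DC

open Finset Pool.Agent.MRL Pool.Agent.MRHal Pool.Agent.MRL.DC
open Pool.Agent.Lib.MP_663568_nt.Katai (om WW turan_kubilius)

noncomputable section

/-- the coefficient `f(n) / n`. -/
def co (f : ℕ → ℂ) (n : ℕ) : ℂ := ((1 / (n : ℝ) : ℝ) : ℂ) * f n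

lemma A_eq (f : ℕ → ℂ) {X : ℝ} (hX : 1 ≤ X) (t : ℝ) :
    AF f X t = ∑ n ∈ Icc 1 ⌊6 * X⌋₊, (co f n * ((ind X n : ℝ) : ℂ)) * nt n t := by
  unfold AF
  have hsub : Ioc ⌊X⌋₊ ⌊2 * X⌋₊ ⊆ Icc 1 ⌊6 * X⌋₊ := by
    intro n hn
    rw [mem_Ioc] at hn
    rw [mem_Icc]
    refine ⟨by omega, hn.2.trans (Nat.floor_le_floor (by linarith))⟩
  rw [← sum_subset hsub (f := fun n => (co f n * ((ind X n : ℝ) : ℂ)) * nt n t)]
  · apply sum_congr rfl
    intro n hn
    unfold ind co
    rw [if_pos hn, Complex.ofReal_one, mul_one]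
  · intro n _ hn
    unfold ind
    rw [if_neg hn]
    simp

lemma S_eq {f : ℕ → ℂ} (hmul : ∀ p m : ℕ, p ≠ 0 → m ≠ 0 → f (p * m) = f p * f m) {X : ℝ}
    (hX : 1 ≤ X) {H v1 v2 : ℕ} (hH : 1 ≤ H) (t : ℝ) :
    SF f X H v1 v2 t =
      ∑ n ∈ Icc 1 ⌊6 * X⌋₊, (co f n * ((cc X H v1 v2 n : ℝ) : ℂ)) * nt n t := by
  unfold SF
  have hH' : (1 : ℝ) ≤ H := by exact_mod_cast hH
  have h1 : ∀ v ∈ Ico v1 v2, QF f H v t * AF f (X * Real.exp (-((v : ℝ) / H))) t =
      ∑ p ∈ W H v, ∑ n ∈ Icc 1 ⌊6 * X⌋₊,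
        if (p ∣ n ∧ n / p ∈ Ioc ⌊X * Real.exp (-((v : ℝ) / H))⌋₊
          ⌊2 * (X * Real.exp (-((v : ℝ) / H)))⌋₊)
        then co f n * nt n t else 0 := by
    intro v _
    unfold QF AF
    rw [sum_mul_sum]
    apply sum_congr rfl
    intro p hp
    have hp' := Pool.Agent.MRL.DC.mem_W.mp hp
    have hN : p * ⌊2 * (X * Real.exp (-((v : ℝ) / H)))⌋₊ ≤ ⌊6 * X⌋₊ := by
      rw [Nat.le_floor_iff (by linarith)]
      push_cast
      have hE : Real.exp ((v : ℝ) / H) * Real.exp (-((v : ℝ) / H)) = 1 := by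
        rw [← Real.exp_add, add_neg_cancel, Real.exp_zero]
      have hfl := Nat.floor_le (a := 2 * (X * Real.exp (-((v : ℝ) / H)))) (by positivity)
      have he := exp_inv_le hH
      have he3 : Real.exp (1 / (H : ℝ)) ≤ 3 := by
        refine he.trans ?_
        have : (2 : ℝ) / H ≤ 2 := by
          rw [div_le_iff₀ (by linarith)]; linarith
        linarith
      calc (p : ℝ) * (⌊2 * (X * Real.exp (-((v : ℝ) / H)))⌋₊ : ℝ)
          ≤ Real.exp (((v : ℝ) + 1) / H) * (2 * (X * Real.exp (-((v : ℝ) / H)))) :=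
            mul_le_mul hp'.2.1 hfl (by positivity) (Real.exp_pos _).le
        _ = 2 * X * Real.exp (1 / (H : ℝ)) *
              (Real.exp ((v : ℝ) / H) * Real.exp (-((v : ℝ) / H))) := by
            rw [exp_split]; ring
        _ = 2 * X * Real.exp (1 / (H : ℝ)) := by rw [hE, mul_one]
        _ ≤ 2 * X * 3 := by
            apply mul_le_mul_of_nonneg_left he3 (by linarith)
        _ = 6 * X := by ring
    rw [← sum_mult p _ _ _ hp'.2.2.pos hN (fun n => co f n * nt n t)]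
    apply sum_congr rfl
    intro m hm
    have hm0 : m ≠ 0 := by
      rw [mem_Ioc] at hm; omega
    have hp0 : (p : ℝ) ≠ 0 := by exact_mod_cast hp'.2.2.ne_zero
    have hmr : (m : ℝ) ≠ 0 := by exact_mod_cast hm0
    rw [Pool.Agent.MRL.DC.nt_mul hp'.2.2.ne_zero hm0]
    unfold co
    rw [hmul p m hp'.2.2.ne_zero hm0]
    have : (((1 / ((p * m : ℕ) : ℝ) : ℝ)) : ℂ) =
        (((1 / (p : ℝ) : ℝ)) : ℂ) * (((1 / (m : ℝ) : ℝ)) : ℂ) := by
      push_cast
      field_simp
    rw [this]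
    ring
  rw [sum_congr rfl h1]
  have h2 : ∀ v ∈ Ico v1 v2, ∑ p ∈ W H v, ∑ n ∈ Icc 1 ⌊6 * X⌋₊,
        (if (p ∣ n ∧ n / p ∈ Ioc ⌊X * Real.exp (-((v : ℝ) / H))⌋₊
          ⌊2 * (X * Real.exp (-((v : ℝ) / H)))⌋₊)
        then co f n * nt n t else 0) =
      ∑ n ∈ Icc 1 ⌊6 * X⌋₊, ∑ p ∈ W H v,
        (if (p ∣ n ∧ n / p ∈ Ioc ⌊X * Real.exp (-((v : ℝ) / H))⌋₊
          ⌊2 * (X * Real.exp (-((v : ℝ) / H)))⌋₊)
        then co f n * nt n t else 0) := by
    intro v _
    rw [sum_comm]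
  rw [sum_congr rfl h2, sum_comm]
  apply sum_congr rfl
  intro n _
  unfold cc
  push_cast
  rw [mul_sum, sum_mul]
  apply sum_congr rfl
  intro v _
  rw [mul_sum, sum_mul]
  apply sum_congr rfl
  intro p _
  split_ifs <;> simp

theorem decomp_aux {f : ℕ → ℂ} (hmul : ∀ p m : ℕ, p ≠ 0 → m ≠ 0 → f (p * m) = f p * f m)
    (hle : ∀ n, ‖f n‖ ≤ 1) (hMV : MeanValue) : DecompF f := by
  obtain ⟨C, hC, hmv⟩ := hMV
  refine ⟨210 * C, by positivity, ?_⟩
  intro X T H v1 v2 hH hHX _ hL hv2 hT hTX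
  have hH' : (1 : ℝ) ≤ H := by exact_mod_cast hH
  have hX : 1 ≤ X := hH'.trans hHX
  set L := LL H v1 v2 with hLdef
  have hL0 : 0 < L := by linarith
  set N := ⌊6 * X⌋₊ with hN
  have hN1 : 1 ≤ N := by
    rw [hN, Nat.one_le_floor_iff]; linarith
  have hNX : (N : ℝ) ≤ 6 * X := Nat.floor_le (by linarith)
  have hfun : ∀ t : ℝ, AF f X t - ((1 / L : ℝ) : ℂ) * SF f X H v1 v2 t =
      ∑ n ∈ Icc 1 N, (co f n * ((ind X n - cc X H v1 v2 n / L : ℝ) : ℂ)) * nt n t := by
    intro t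
    rw [A_eq f hX, S_eq hmul hX hH, mul_sum, ← sum_sub_distrib]
    apply sum_congr rfl
    intro n _
    push_cast
    ring
  simp only [hfun]
  refine (hmv N T _ hN1 hT).trans ?_
  -- the coefficients
  have hcoef : ∀ n ∈ Icc 1 N, ‖co f n * ((ind X n - cc X H v1 v2 n / L : ℝ) : ℂ)‖ ^ 2 ≤
      1 / X ^ 2 * (2 / L ^ 2 * (om (PP H v1 v2) n - WW (PP H v1 v2)) ^ 2 +
        3 * (if n ∈ Edge X H N then 1 else 0)) := by
    intro n hn
    have hd := d_sq_le hX hL hn (N := N)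
    rw [norm_mul, Complex.norm_real, Real.norm_eq_abs, mul_pow, sq_abs]
    by_cases h1 : (n : ℝ) ≤ X
    · rw [ind_zero hX (Or.inl h1), cc_zero hX (Or.inl h1)]
      simp only [zero_div, sub_zero]
      have : (0 : ℝ) ≤ 1 / X ^ 2 * (2 / L ^ 2 * (om (PP H v1 v2) n - WW (PP H v1 v2)) ^ 2 +
        3 * (if n ∈ Edge X H N then 1 else 0)) := by
        apply mul_nonneg (by positivity)
        apply add_nonneg (by positivity)
        split_ifs <;> norm_num
      simpa using this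
    · rw [not_le] at h1
      apply mul_le_mul _ hd (sq_nonneg _) (by positivity)
      have hc : ‖co f n‖ ≤ 1 / X := by
        unfold co
        exact (norm_coef hle n).trans (one_div_le_one_div_of_le (by linarith) h1.le)
      calc ‖co f n‖ ^ 2 ≤ (1 / X) ^ 2 := pow_le_pow_left₀ (norm_nonneg _) hc 2
        _ = 1 / X ^ 2 := by rw [div_pow, one_pow]
  have hTK := turan_kubilius (PP H v1 v2) (fun p hp => prime_of_mem_PP hp) N
  rw [WW_PP, ← hLdef] at hTK
  have hcard := card_PP_le H v1 v2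
  have hsq : √X ≤ X := by
    rw [Real.sqrt_le_left (by linarith)]
    nlinarith
  have hPX : ((PP H v1 v2).card : ℝ) ≤ X := by linarith
  have hE := card_Edge hX hH hHX N
  have hsumE : ∑ n ∈ Icc 1 N, (if n ∈ Edge X H N then (1 : ℝ) else 0) ≤ 8 * X / H := by
    rw [← sum_filter, sum_const, nsmul_eq_mul, mul_one]
    refine le_trans ?_ hE
    have : (Icc 1 N).filter (fun n => n ∈ Edge X H N) ⊆ Edge X H N := by
      intro n hn
      exact (mem_filter.mp hn).2
    exact_mod_cast card_le_card this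
  have hsum : ∑ n ∈ Icc 1 N, ‖co f n * ((ind X n - cc X H v1 v2 n / L : ℝ) : ℂ)‖ ^ 2 ≤
      1 / X ^ 2 * (2 / L ^ 2 * (L * N + 2 * L * X) + 3 * (8 * X / H)) := by
    refine (sum_le_sum hcoef).trans ?_
    rw [← mul_sum, sum_add_distrib, ← mul_sum, ← mul_sum]
    apply mul_le_mul_of_nonneg_left _ (by positivity)
    apply add_le_add
    · apply mul_le_mul_of_nonneg_left _ (by positivity)
      rw [WW_PP, ← hLdef]
      refine hTK.trans ?_
      have : 2 * L * ((PP H v1 v2).card : ℝ) ≤ 2 * L * X :=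
        mul_le_mul_of_nonneg_left hPX (by positivity)
      linarith
    · exact mul_le_mul_of_nonneg_left hsumE (by norm_num)
  have h1 : 1 / X ^ 2 * (2 / L ^ 2 * (L * N + 2 * L * X) + 3 * (8 * X / H)) ≤
      24 / X * (1 / L + 1 / H) := by
    have hX0 : 0 < X := by linarith
    have hH0 : (0 : ℝ) < H := by linarith
    calc 1 / X ^ 2 * (2 / L ^ 2 * (L * N + 2 * L * X) + 3 * (8 * X / H))
        ≤ 1 / X ^ 2 * (2 / L ^ 2 * (L * (6 * X) + 2 * L * X) + 3 * (8 * X / H)) := by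
          apply mul_le_mul_of_nonneg_left _ (by positivity)
          apply add_le_add _ le_rfl
          apply mul_le_mul_of_nonneg_left _ (by positivity)
          apply add_le_add _ le_rfl
          exact mul_le_mul_of_nonneg_left hNX hL0.le
      _ = 16 / X * (1 / L) + 24 / X * (1 / H) := by
          field_simp
          ring
      _ ≤ 24 / X * (1 / L) + 24 / X * (1 / H) := by
          apply add_le_add _ le_rfl
          apply mul_le_mul_of_nonneg_right _ (by positivity)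
          apply div_le_div_of_nonneg_right (by norm_num) hX0.le
      _ = _ := by ring
  calc C * (T + N) * ∑ n ∈ Icc 1 N,
        ‖co f n * ((ind X n - cc X H v1 v2 n / L : ℝ) : ℂ)‖ ^ 2
      ≤ C * (7 * X) * (24 / X * (1 / L + 1 / H)) := by
        apply mul_le_mul _ (hsum.trans h1) (by positivity) (by positivity)
        apply mul_le_mul_of_nonneg_left _ hC.le
        linarith
    _ = 168 * C * (1 / L + 1 / H) := by
        have hX0 : X ≠ 0 := by linarith
        field_simp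
        ring
    _ ≤ 210 * C * (1 / L + 1 / H) := by
        apply mul_le_mul_of_nonneg_right _ (by positivity)
        linarith

end

end Pool.Agent.MRF.DC

namespace Pool.Agent.MRF

open Pool.Agent.MRL Pool.Agent.MRHal

/-- row F_DC -/
theorem decompF {f : ℕ → ℂ} (hf : CM f) (hMV : MeanValue) : DecompF f :=
  DC.decomp_aux (fun p m _ _ => hf.mul p m) hf.le hMV

end Pool.Agent.MRF
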