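import Pool.Agent.Lib.MRF.FLFc
import Pool.Agent.Lib.MRL.FLb

/-! TANK MRF, row FLF: `ZetaUp → FlUpF (lamChi χ)` for every Dirichlet character `χ`.
helper44 (half b), helper24 (half a). -/

set_option autoImplicit false

namespace Pool.Agent.MRF

open Complex Pool.Agent.MRL
open Pool.Agent.MRHal (CM)

namespace FLFb

/-- assembly: the bound through zeta and the bound near the real axis. -/
theorem flUpF_of {f : ℕ → ℂ} {k : ℕ} (hk : 2 ≤ k)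
    (hB : ∃ C : ℝ, 0 < C ∧ ∀ a τ : ℝ, 0 < a → ‖FlF f a τ‖ ≤ C *
      (‖riemannZeta (1 + a)‖ ^ (1 - 1 / (k : ℝ) ^ 2) *
        ‖riemannZeta (1 + a + ((k * τ : ℝ) : ℂ) * I)‖ ^ (1 / (k : ℝ) ^ 2)))
    (hC : ∃ C : ℝ, 0 < C ∧ ∀ a τ : ℝ, 0 < a → a ≤ 1 → |τ| ≤ 1 → ‖FlF f a τ‖ ≤ C)
    (hZ : ZetaUp) : FlUpF f := by
  obtain ⟨C2, hC2, hB⟩ := hB
  obtain ⟨C3, hC3, hsm⟩ := hC
  obtain ⟨C1, hC1, hpole⟩ := FL.zeta_pole
  have hk2 : (2 : ℝ) ≤ k := by exact_mod_cast hk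
  have hk0 : (0 : ℝ) < k := by linarith
  set κ : ℝ := 1 / (k : ℝ) ^ 2 with hκ
  have hκ0 : 0 < κ := by positivity
  have hκ1 : κ ≤ 1 := by
    rw [hκ, div_le_one (by positivity)]
    nlinarith
  refine ⟨κ, hκ0, hκ1, C2 * C1 ^ (1 - κ) + C3, by positivity, fun ε hε => ?_⟩
  obtain ⟨C, hC, hZ⟩ := hZ ε hε
  have hlogk : 0 < Real.log k := Real.log_pos (by linarith)
  refine ⟨ε * Real.log k + C + 1, by positivity, fun a τ ha ha1 => ?_⟩
  have hlog : 0 ≤ Real.log (2 + |τ|) := Real.log_nonneg (by linarith [abs_nonneg τ])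
  set M := ε * Real.log (2 + |τ|) + (ε * Real.log k + C + 1) with hM
  have h2 : 0 < ε * Real.log k := by positivity
  have h3 : 0 ≤ ε * Real.log (2 + |τ|) := by positivity
  have hM1 : 1 ≤ M := by linarith
  have hM2 : (1 : ℝ) ≤ M ^ κ := Real.one_le_rpow hM1 hκ0.le
  have ha2 : (1 : ℝ) ≤ a ^ (-(1 - κ)) :=
    Real.one_le_rpow_of_pos_of_le_one_of_nonpos ha ha1 (by linarith)
  have hP : 0 < C1 ^ (1 - κ) := Real.rpow_pos_of_pos hC1 _
  by_cases hτ : |τ| ≤ 1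
  · calc ‖FlF f a τ‖ ≤ C3 := hsm a τ ha ha1 hτ
      _ ≤ (C2 * C1 ^ (1 - κ) + C3) * 1 * 1 := by
          have : 0 ≤ C2 * C1 ^ (1 - κ) := by positivity
          linarith
      _ ≤ (C2 * C1 ^ (1 - κ) + C3) * a ^ (-(1 - κ)) * M ^ κ := by gcongr
  · push Not at hτ
    have hkτ : |(k : ℝ) * τ| = k * |τ| := by rw [abs_mul, abs_of_pos hk0]
    have h2τ : 1 / 2 ≤ |(k : ℝ) * τ| := by
      rw [hkτ]
      nlinarith
    have h4 := hZ a (k * τ) ha ha1 h2τ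
    have h5 : ε * Real.log (2 + |(k : ℝ) * τ|) + C ≤ M := by
      have h6 : Real.log (2 + |(k : ℝ) * τ|) ≤ Real.log (2 + |τ|) + Real.log k := by
        rw [← Real.log_mul (by positivity) (by positivity)]
        apply Real.log_le_log (by positivity)
        rw [hkτ]
        nlinarith [abs_nonneg τ]
      have h7 := mul_le_mul_of_nonneg_left h6 hε.le
      rw [hM]
      linarith
    have h8 : ‖riemannZeta (1 + a + ((k * τ : ℝ) : ℂ) * I)‖ ^ κ ≤ M ^ κ :=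
      Real.rpow_le_rpow (norm_nonneg _) (h4.trans h5) hκ0.le
    have h9 : ‖riemannZeta (1 + a)‖ ^ (1 - κ) ≤ C1 ^ (1 - κ) * a ^ (-(1 - κ)) := by
      have h10 := Real.rpow_le_rpow (norm_nonneg _) (hpole a ha ha1) (z := 1 - κ) (by linarith)
      rw [Real.div_rpow hC1.le ha.le] at h10
      rw [Real.rpow_neg ha.le, ← div_eq_mul_inv]
      exact h10
    have hA0 : 0 < a ^ (-(1 - κ)) := by positivity
    calc ‖FlF f a τ‖ ≤ C2 * (‖riemannZeta (1 + a)‖ ^ (1 - κ) *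
          ‖riemannZeta (1 + a + ((k * τ : ℝ) : ℂ) * I)‖ ^ κ) := hB a τ ha
      _ ≤ C2 * ((C1 ^ (1 - κ) * a ^ (-(1 - κ))) * M ^ κ) := by gcongr
      _ = (C2 * C1 ^ (1 - κ)) * a ^ (-(1 - κ)) * M ^ κ := by ring
      _ ≤ (C2 * C1 ^ (1 - κ) + C3) * a ^ (-(1 - κ)) * M ^ κ := by
          gcongr
          linarith

end FLFb

/-- `λ χ` is completely multiplicative. -/
theorem cm_lamChi {q : ℕ} (χ : DirichletCharacter ℂ q) : CM (lamChi χ) := FLFa.cm_lamChi χ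

/-- row FLF. -/
theorem flUpF_lamChi (hZ : ZetaUp) {q : ℕ} [NeZero q] (χ : DirichletCharacter ℂ q) :
    FlUpF (lamChi χ) := by
  obtain ⟨k, hk, hp⟩ := FLFa.lamChi_pow χ
  exact FLFb.flUpF_of hk ⟨Real.exp (2 * FLFa.c2), Real.exp_pos _,
    fun a τ ha => FLFa.norm_FlF_le (cm_lamChi χ) hk hp ha⟩
    (FLFa.norm_FlF_lamChi_near χ) hZ

end Pool.Agent.MRF
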