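import Pool.Agent.Lib.MRF.Defs

/-! TANK MRF, row F_HA: `HalaszF f → HalaszAF f` (partial summation).  helper32. -/

set_option autoImplicit false

namespace Pool.Agent.MRF

open Finset Pool.Agent.MRL Pool.Agent.MRHal

/-- the partial sum `Σ_{n ≤ N} f(n) n^{-it}`. -/
noncomputable def haF (f : ℕ → ℂ) (t : ℝ) (N : ℕ) : ℂ := ∑ n ∈ Icc 1 N, f n * nt n t

theorem haF_succ (f : ℕ → ℂ) (t : ℝ) (N : ℕ) :
    haF f t (N + 1) = haF f t N + f (N + 1) * nt (N + 1) t := by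
  unfold haF
  rw [Finset.sum_Icc_succ_top (by omega)]

theorem ha_abel (f : ℕ → ℂ) {t B : ℝ} (hB : 0 ≤ B) {N0 : ℕ} (hN0 : 1 ≤ N0)
    (hF : ∀ m, N0 ≤ m → ‖haF f t m‖ ≤ B * m) (N : ℕ) (hN : N0 ≤ N) :
    ‖(∑ m ∈ Ioc N0 N, (((1 / (m : ℝ) : ℝ) : ℂ) * f m) * nt m t) - haF f t N / N
        + haF f t N0 / N0‖ ≤ B * ((N : ℝ) - N0) / N0 := by
  induction N, hN using Nat.le_induction with
  | base => simp
  | succ N hN ih =>
    have hN0' : (0 : ℝ) < N0 := by exact_mod_cast hN0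
    have hNr : (N0 : ℝ) ≤ N := by exact_mod_cast hN
    have hNpos : (0 : ℝ) < N := by linarith
    have hNc : (N : ℂ) ≠ 0 := by exact_mod_cast hNpos.ne'
    have hNc1 : ((N : ℂ) + 1) ≠ 0 := by exact_mod_cast (Nat.succ_ne_zero N)
    have key : (∑ m ∈ Ioc N0 (N + 1), (((1 / (m : ℝ) : ℝ) : ℂ) * f m) * nt m t)
          - haF f t (N + 1) / ((N + 1 : ℕ) : ℂ) + haF f t N0 / N0
        = ((∑ m ∈ Ioc N0 N, (((1 / (m : ℝ) : ℝ) : ℂ) * f m) * nt m t) - haF f t N / N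
            + haF f t N0 / N0) + haF f t N / ((N : ℂ) * (N + 1)) := by
      rw [Finset.sum_Ioc_succ_top hN, haF_succ]
      push_cast
      field_simp
      ring
    have hb : ‖haF f t N / ((N : ℂ) * (N + 1))‖ ≤ B / N0 := by
      have h1 : ‖((N : ℂ) * (N + 1))‖ = (N : ℝ) * (N + 1) := by
        have : ((N : ℂ) * (N + 1)) = (((N : ℝ) * (N + 1) : ℝ) : ℂ) := by push_cast; ring
        rw [this, Complex.norm_real, Real.norm_of_nonneg (by positivity)]
      rw [norm_div, h1, div_le_div_iff₀ (by positivity) hN0']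
      calc ‖haF f t N‖ * N0 ≤ (B * N) * (N + 1) := by
            apply mul_le_mul (hF N hN) (by linarith) hN0'.le (by positivity)
        _ = B * (N * (N + 1)) := by ring
    rw [key]
    calc _ ≤ _ := norm_add_le _ _
      _ ≤ B * ((N : ℝ) - N0) / N0 + B / N0 := add_le_add ih hb
      _ = B * (((N + 1 : ℕ) : ℝ) - N0) / N0 := by push_cast; ring

/-- row F_HA. -/
theorem halaszAF {f : ℕ → ℂ} (_hf : CM f) (h : HalaszF f) : HalaszAF f := by
  intro η hη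
  obtain ⟨x0, hx0⟩ := h (η / 16) (by positivity)
  refine ⟨max x0 2, fun Y hY t ht => ?_⟩
  have hY2 : 2 ≤ Y := le_trans (le_max_right _ _) hY
  have hYx : x0 ≤ Y := le_trans (le_max_left _ _) hY
  obtain ⟨N0, hN0def⟩ : ∃ N0, N0 = ⌊Y⌋₊ := ⟨_, rfl⟩
  obtain ⟨N1, hN1def⟩ : ∃ N1, N1 = ⌊2 * Y⌋₊ := ⟨_, rfl⟩
  have h1 : (N0 : ℝ) ≤ Y := by rw [hN0def]; exact Nat.floor_le (by linarith)
  have h2 : Y < N0 + 1 := by rw [hN0def]; exact Nat.lt_floor_add_one Y
  have h3 : (N1 : ℝ) ≤ 2 * Y := by rw [hN1def]; exact Nat.floor_le (by linarith)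
  have h4 : N0 ≤ N1 := by
    rw [hN0def, hN1def]; exact Nat.floor_mono (by linarith)
  have h5 : 1 ≤ N0 := by
    have : (1 : ℝ) < N0 := by linarith
    exact_mod_cast this.le
  have h5r : (1 : ℝ) ≤ N0 := by exact_mod_cast h5
  have hF : ∀ m, N0 ≤ m → ‖haF f t m‖ ≤ (η / 8) * m := by
    intro m hm
    have hmr : (N0 : ℝ) ≤ m := by exact_mod_cast hm
    have hfl : ⌊max (m : ℝ) Y⌋₊ = m := by
      rcases le_total (m : ℝ) Y with hc | hc
      · rw [max_eq_right hc, ← hN0def]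
        apply le_antisymm hm
        rw [hN0def]
        exact Nat.le_floor hc
      · rw [max_eq_left hc, Nat.floor_natCast]
    have h6 := hx0 (max (m : ℝ) Y) (le_trans hYx (le_max_right _ _)) t
      (ht.trans (by
        have : Y ≤ max (m : ℝ) Y := le_max_right _ _
        gcongr))
    rw [hfl] at h6
    have h7 : max (m : ℝ) Y ≤ 2 * m := by
      apply max_le <;> linarith
    calc ‖haF f t m‖ ≤ η / 16 * max (m : ℝ) Y := h6
      _ ≤ η / 16 * (2 * m) := by gcongr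
      _ = η / 8 * m := by ring
  have h8 := ha_abel f (t := t) (B := η / 8) (by positivity) h5 hF N1 h4
  have hA : AF f Y t = ∑ m ∈ Ioc N0 N1, (((1 / (m : ℝ) : ℝ) : ℂ) * f m) * nt m t := by
    rw [hN0def, hN1def]; rfl
  have h9 : ∀ m, N0 ≤ m → ‖haF f t m / (m : ℂ)‖ ≤ η / 8 := by
    intro m hm
    have hmr : (1 : ℝ) ≤ m := by
      have : (N0 : ℝ) ≤ m := by exact_mod_cast hm
      linarith
    rw [norm_div, Complex.norm_natCast, div_le_iff₀ (by linarith)]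
    exact hF m hm
  have h10 : η / 8 * ((N1 : ℝ) - N0) / N0 ≤ η / 8 * 4 := by
    rw [div_le_iff₀ (by linarith)]
    have : (N1 : ℝ) - N0 ≤ 4 * N0 := by linarith
    calc η / 8 * ((N1 : ℝ) - N0) ≤ η / 8 * (4 * N0) := by gcongr
      _ = η / 8 * 4 * N0 := by ring
  rw [hA]
  have h11 : (∑ m ∈ Ioc N0 N1, (((1 / (m : ℝ) : ℝ) : ℂ) * f m) * nt m t)
      = ((∑ m ∈ Ioc N0 N1, (((1 / (m : ℝ) : ℝ) : ℂ) * f m) * nt m t) - haF f t N1 / N1
          + haF f t N0 / N0) + haF f t N1 / N1 - haF f t N0 / N0 := by ring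
  rw [h11]
  calc _ ≤ _ := norm_sub_le _ _
    _ ≤ (‖(∑ m ∈ Ioc N0 N1, (((1 / (m : ℝ) : ℝ) : ℂ) * f m) * nt m t) - haF f t N1 / N1
          + haF f t N0 / N0‖ + ‖haF f t N1 / N1‖) + ‖haF f t N0 / N0‖ := by
        gcongr; exact norm_add_le _ _
    _ ≤ (η / 8 * 4 + η / 8) + η / 8 := by
        gcongr
        · exact h8.trans h10
        · exact h9 N1 h4
        · exact h9 N0 le_rfl
    _ ≤ η := by linarith

end Pool.Agent.MRF
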