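import Pool.Agent.Lib.MRL.HalF
import Pool.Agent.Lib.MRF.Defs

/-! # Row F_HZ: `FlUpF f → HalaszF f` (from `hal`). helper33 -/

set_option autoImplicit false

namespace Pool.Agent.MRF

open Finset Pool.Agent.MRHal Complex Pool.Agent.MRL

theorem hz_norm_nt (n : ℕ) (t : ℝ) : ‖nt n t‖ = 1 := by
  unfold nt
  rw [← Complex.ofReal_neg, Complex.norm_exp_ofReal_mul_I]

theorem hz_nt_mul {m n : ℕ} (hm : m ≠ 0) (hn : n ≠ 0) (t : ℝ) : nt (m * n) t = nt m t * nt n t := by
  have hm' : (m : ℝ) ≠ 0 := by exact_mod_cast hm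
  have hn' : (n : ℝ) ≠ 0 := by exact_mod_cast hn
  unfold nt
  rw [← Complex.exp_add]
  congr 1
  push_cast [Real.log_mul hm' hn']
  ring

theorem hz_nt_add (n : ℕ) (s t : ℝ) : nt n (s + t) = nt n s * nt n t := by
  unfold nt
  rw [← Complex.exp_add]
  congr 1
  push_cast
  ring

/-- `f(n) n^{-it}`, zero at `0`. -/
noncomputable def ft (f : ℕ → ℂ) (t : ℝ) (n : ℕ) : ℂ := if n = 0 then 0 else f n * nt n t

variable {f : ℕ → ℂ}

theorem ft_zero (t : ℝ) : ft f t 0 = 0 := by simp [ft]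

theorem ft_pos (t : ℝ) {n : ℕ} (hn : n ≠ 0) : ft f t n = f n * nt n t := by
  rw [ft, if_neg hn]

theorem cm_ft (hf : CM f) (t : ℝ) : CM (ft f t) where
  one := by
    rw [ft_pos t one_ne_zero, hf.one]
    simp [nt]
  mul := by
    intro m n
    rcases Nat.eq_zero_or_pos m with rfl | hm
    · rw [zero_mul, ft_zero, zero_mul]
    rcases Nat.eq_zero_or_pos n with rfl | hn
    · rw [mul_zero, ft_zero, mul_zero]
    rw [ft_pos t hm.ne', ft_pos t hn.ne', ft_pos t (Nat.mul_ne_zero hm.ne' hn.ne'),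
      hf.mul, hz_nt_mul hm.ne' hn.ne']
    ring
  le := by
    intro n
    by_cases hn : n = 0
    · rw [hn, ft_zero]
      simp
    · rw [ft_pos t hn, norm_mul, hz_norm_nt, mul_one]
      exact hf.le n

theorem ls_ft (t a τ : ℝ) : LSeries (ft f t) (((1 + a : ℝ) : ℂ) + I * τ) = FlF f a (t + τ) := by
  rw [LSeries, FlF]
  refine tsum_congr fun n => ?_
  rw [term_eq (ft_zero t)]
  rcases Nat.eq_zero_or_pos n with rfl | hn
  · simp [bc, ft_zero]
  have hn0 : (0 : ℝ) < n := by exact_mod_cast hn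
  rw [bc, ft_pos t hn.ne', hz_nt_add]
  have h1 : cexp (I * τ * ((-Real.log n : ℝ) : ℂ)) = nt n τ := by
    unfold nt
    congr 1
    push_cast
    ring
  have h2 : (n : ℝ) ^ (-(1 + a)) = 1 / n * (n : ℝ) ^ (-a) := by
    rw [show -(1 + a) = -a - 1 by ring, Real.rpow_sub_one hn0.ne']
    ring
  rw [h1, h2]
  ring

/-- Row HZF. -/
theorem halaszF (hf : CM f) (hF : FlUpF f) : HalaszF f := by
  intro η hη
  obtain ⟨κ', hκ'0, hκ'1, C0, hC0, hF⟩ := hF
  obtain ⟨κ, hκ, X0, hX0⟩ := hal η hη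
  set e : ℝ := (κ / C0) ^ (1 / κ') with he
  have he0 : 0 < e := by positivity
  obtain ⟨C, hC, hF⟩ := hF (e / 8) (by positivity)
  refine ⟨max X0 (max (Real.exp 4) (Real.exp (2 * C / e))), fun x hx t ht => ?_⟩
  have hx1 : X0 ≤ x := (le_max_left _ _).trans hx
  have hx2 : Real.exp 4 ≤ x := ((le_max_left _ _).trans (le_max_right _ _)).trans hx
  have hx3 : Real.exp (2 * C / e) ≤ x := ((le_max_right _ _).trans (le_max_right _ _)).trans hx
  have hx5 : (5 : ℝ) ≤ x := by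
    have := Real.add_one_le_exp (4 : ℝ)
    linarith
  have hx0 : 0 < x := by linarith
  set l : ℝ := Real.log x with hl
  have hl4 : 4 ≤ l := by
    rw [hl, Real.le_log_iff_exp_le hx0]
    exact hx2
  have hl0 : 0 < l := by linarith
  have hlC : 2 * C / e ≤ l := by
    rw [hl, Real.le_log_iff_exp_le hx0]
    exact hx3
  have hlx : l ≤ x := by
    have := Real.log_le_sub_one_of_pos hx0
    linarith
  have h := hX0 x hx1 (ft f t) (cm_ft hf t) (fun τ hτ => ?_)
  · have h1 : ps (ft f t) x = ∑ n ∈ Icc 1 ⌊x⌋₊, f n * nt n t := by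
      unfold ps
      refine sum_congr rfl fun n hn => ?_
      rw [mem_Icc] at hn
      exact ft_pos t (by omega)
    rwa [h1] at h
  · rw [← hl] at hτ ⊢
    rw [ls_ft]
    have ha0 : 0 < l⁻¹ := by positivity
    have ha1 : l⁻¹ ≤ 1 := inv_le_one_of_one_le₀ (by linarith)
    refine (hF l⁻¹ (t + τ) ha0 ha1).trans ?_
    have h1 : 2 + |t + τ| ≤ x ^ 4 := by
      have h2 : |t + τ| ≤ x ^ 3 + l ^ 2 := (abs_add_le _ _).trans (add_le_add ht hτ)
      have h3 : l ^ 2 ≤ x ^ 2 := by gcongr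
      have h4 : x ^ 2 * 5 ≤ x ^ 3 := by nlinarith [sq_nonneg x]
      have h5 : x ^ 3 * 5 ≤ x ^ 4 := by
        have : 0 < x ^ 3 := by positivity
        nlinarith
      nlinarith [sq_nonneg x]
    have h2 : Real.log (2 + |t + τ|) ≤ 4 * l := by
      have h3 := Real.log_le_log (by positivity) h1
      rw [Real.log_pow] at h3
      push_cast at h3
      exact h3
    have h3 : e / 8 * Real.log (2 + |t + τ|) + C ≤ e * l := by
      rw [div_le_iff₀ he0] at hlC
      have : e / 8 * Real.log (2 + |t + τ|) ≤ e / 8 * (4 * l) := by gcongr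
      linarith
    have h4 : 0 ≤ e / 8 * Real.log (2 + |t + τ|) + C := by
      have : 0 ≤ Real.log (2 + |t + τ|) := Real.log_nonneg (by linarith [abs_nonneg (t + τ)])
      positivity
    have h5 : (e / 8 * Real.log (2 + |t + τ|) + C) ^ κ' ≤ (κ / C0) * l ^ κ' := by
      calc (e / 8 * Real.log (2 + |t + τ|) + C) ^ κ' ≤ (e * l) ^ κ' :=
            Real.rpow_le_rpow h4 h3 hκ'0.le
        _ = e ^ κ' * l ^ κ' := Real.mul_rpow he0.le hl0.le
        _ = (κ / C0) * l ^ κ' := by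
          rw [he, ← Real.rpow_mul (by positivity), one_div_mul_cancel hκ'0.ne', Real.rpow_one]
    have h6 : (l⁻¹) ^ (-(1 - κ')) = l ^ (1 - κ') := by
      rw [Real.inv_rpow hl0.le, Real.rpow_neg hl0.le, inv_inv]
    calc C0 * (l⁻¹) ^ (-(1 - κ')) * (e / 8 * Real.log (2 + |t + τ|) + C) ^ κ'
        ≤ C0 * (l⁻¹) ^ (-(1 - κ')) * ((κ / C0) * l ^ κ') := by gcongr
      _ = κ * (l ^ (1 - κ') * l ^ κ') := by
        rw [h6]
        field_simp
      _ = κ * l := by
        rw [← Real.rpow_add hl0, sub_add_cancel, Real.rpow_one]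

end Pool.Agent.MRF
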