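import Pool.Agent.Lib.MRL.LC

/-! TANK MRF, row LCF: the count of large values for prime polynomials with bounded coefficients.
helper59 (after helper14's `MRL/LC`). -/

set_option autoImplicit false

namespace Pool.Agent.MRF.LCF

open Finset MeasureTheory
open Pool.Agent.MRL Pool.Agent.MRL.LC

noncomputable section

/-- prime polynomial with coefficients `a p`. -/
def Qa (a : ℕ → ℂ) (H v : ℕ) (t : ℝ) : ℂ := ∑ p ∈ W H v, (((1 / p : ℝ) : ℂ) * a p) * nt p t

/-- the power `Qa^l` as a Dirichlet polynomial. -/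
theorem pow_expand (a : ℕ → ℂ) (ha : ∀ p : ℕ, p.Prime → ‖a p‖ ≤ 1) (H v : ℕ) (hH : 1 ≤ H)
    (l : ℕ) : ∃ (s : Finset ℕ) (b : ℕ → ℂ) (c : ℕ → ℝ),
    (∀ t, Qa a H v t ^ l = ∑ n ∈ s, b n * nt n t) ∧
    (∀ n ∈ s, n ≠ 0 ∧ Real.exp (l * ((v : ℝ) / H)) ≤ n ∧
      (n : ℝ) ≤ Real.exp (l * (((v : ℝ) + 1) / H)) ∧
      ArithmeticFunction.cardFactors n = l) ∧
    (∀ n ∈ s, 0 ≤ c n ∧ c n * n ≤ l.factorial) ∧
    ∑ n ∈ s, c n ≤ 3 ^ l ∧ ∀ n ∈ s, ‖b n‖ ≤ c n := by
  induction l with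
  | zero =>
    refine ⟨{1}, fun _ => 1, fun _ => 1, ?_, ?_, ?_, ?_, ?_⟩
    · intro t
      simp [nt_one]
    · intro n hn
      rw [mem_singleton] at hn
      subst hn
      simp
    · intro n hn
      rw [mem_singleton] at hn
      subst hn
      simp
    · simp
    · simp
  | succ l ih =>
    obtain ⟨s, b, c, h1, h2, h3, h4, hb⟩ := ih
    classical
    set P : Finset (ℕ × ℕ) := s ×ˢ W H v with hP
    refine ⟨P.image fun x => x.1 * x.2,
      fun m => ∑ x ∈ P with x.1 * x.2 = m, b x.1 * (((1 / x.2 : ℝ) : ℂ) * a x.2),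
      fun m => ∑ x ∈ P with x.1 * x.2 = m, c x.1 / x.2, ?_, ?_, ?_, ?_, ?_⟩
    · intro t
      rw [pow_succ, h1 t]
      unfold Qa
      rw [sum_mul_sum, ← sum_product']
      have h5 : ∀ m ∈ P.image fun x => x.1 * x.2,
          (∑ x ∈ P with x.1 * x.2 = m, b x.1 * (((1 / x.2 : ℝ) : ℂ) * a x.2)) * nt m t
          = ∑ x ∈ P with x.1 * x.2 = m,
            b x.1 * nt x.1 t * ((((1 / x.2 : ℝ) : ℂ) * a x.2) * nt x.2 t) := by
        intro m _
        rw [sum_mul]
        refine sum_congr rfl fun x hx => ?_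
        rw [mem_filter, hP, mem_product] at hx
        obtain ⟨⟨hx1, hx2⟩, hx3⟩ := hx
        rw [← hx3, nt_mul (h2 _ hx1).1 (mem_W hx2).1.ne_zero]
        ring
      rw [sum_congr rfl h5]
      exact (sum_fiberwise_of_maps_to (fun x hx => mem_image_of_mem _ hx) _).symm
    · intro m hm
      rw [mem_image] at hm
      obtain ⟨x, hx, rfl⟩ := hm
      rw [hP, mem_product] at hx
      obtain ⟨hx1, hx2⟩ := hx
      obtain ⟨a1, a2, a3, a4⟩ := h2 _ hx1
      obtain ⟨b1, b2, b3⟩ := mem_W hx2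
      refine ⟨mul_ne_zero a1 b1.ne_zero, ?_, ?_, ?_⟩
      · have e : (((l + 1 : ℕ) : ℝ) * ((v : ℝ) / H)) = l * ((v : ℝ) / H) + (v : ℝ) / H := by
          push_cast
          ring
        rw [e, Real.exp_add]
        push_cast
        exact mul_le_mul a2 b2.le (Real.exp_pos _).le (by positivity)
      · have e : (((l + 1 : ℕ) : ℝ) * (((v : ℝ) + 1) / H)) =
            l * (((v : ℝ) + 1) / H) + ((v : ℝ) + 1) / H := by
          push_cast
          ring
        rw [e, Real.exp_add]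
        push_cast
        exact mul_le_mul a3 b3 (by positivity) (Real.exp_pos _).le
      · rw [ArithmeticFunction.cardFactors_mul a1 b1.ne_zero, a4,
          ArithmeticFunction.cardFactors_apply_prime b1]
    · intro m hm
      have hm' := hm
      rw [mem_image] at hm
      obtain ⟨x0, hx0, hm0⟩ := hm
      have hx00 := hx0
      rw [hP, mem_product] at hx0
      refine ⟨sum_nonneg fun x hx => ?_, ?_⟩
      · rw [mem_filter, hP, mem_product] at hx
        have := (h3 _ hx.1.1).1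
        positivity
      · simp only
        rw [sum_mul]
        have h5 : ∀ x ∈ P.filter fun x => x.1 * x.2 = m, c x.1 / x.2 * m ≤ l.factorial := by
          intro x hx
          rw [mem_filter, hP, mem_product] at hx
          obtain ⟨⟨hx1, hx2⟩, hx3⟩ := hx
          have h6 := (h3 _ hx1).2
          have h7 : (x.2 : ℝ) ≠ 0 := by exact_mod_cast (mem_W hx2).1.ne_zero
          rw [← hx3]
          push_cast
          have h8 : c x.1 / x.2 * ((x.1 : ℝ) * x.2) = c x.1 * x.1 := by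
            field_simp
          rw [h8]
          exact h6
        refine (sum_le_sum h5).trans ?_
        rw [sum_const, nsmul_eq_mul]
        have hmne : m ≠ 0 := by
          rw [← hm0]
          exact mul_ne_zero (h2 _ hx0.1).1 (mem_W hx0.2).1.ne_zero
        have hOm : ArithmeticFunction.cardFactors m = l + 1 := by
          rw [← hm0, ArithmeticFunction.cardFactors_mul (h2 _ hx0.1).1 (mem_W hx0.2).1.ne_zero,
            (h2 _ hx0.1).2.2.2, ArithmeticFunction.cardFactors_apply_prime (mem_W hx0.2).1]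
        have h9 : (P.filter fun x => x.1 * x.2 = m).card ≤ m.primeFactors.card := by
          refine card_le_card_of_injOn (fun x => x.2) ?_ ?_
          · intro x hx
            have hx := mem_coe.1 hx
            rw [mem_filter, hP, mem_product] at hx
            simp only [mem_coe, Nat.mem_primeFactors]
            exact ⟨(mem_W hx.1.2).1, ⟨x.1, by rw [← hx.2]; ring⟩, hmne⟩
          · intro x hx y hy hxy
            have hx := mem_coe.1 hx
            have hy := mem_coe.1 hy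
            rw [mem_filter, hP, mem_product] at hx hy
            simp only at hxy
            have h10 : x.1 * x.2 = y.1 * x.2 := by
              rw [hx.2, hxy, hy.2]
            have h11 : x.1 = y.1 :=
              Nat.eq_of_mul_eq_mul_right (mem_W hx.1.2).1.pos h10
            exact Prod.ext h11 hxy
        have h12 : m.primeFactors.card ≤ l + 1 := by
          rw [← hOm]
          rw [ArithmeticFunction.cardFactors_apply]
          exact List.toFinset_card_le _
        have h13 : ((P.filter fun x => x.1 * x.2 = m).card : ℝ) ≤ (l : ℝ) + 1 := by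
          exact_mod_cast h9.trans h12
        rw [Nat.factorial_succ]
        push_cast
        exact mul_le_mul_of_nonneg_right h13 (by positivity)
    · rw [sum_fiberwise_of_maps_to (fun x hx => mem_image_of_mem _ hx)
        (fun x : ℕ × ℕ => c x.1 / (x.2 : ℝ))]
      have h5 : ∑ x ∈ P, c x.1 / (x.2 : ℝ) = (∑ n ∈ s, c n) * ∑ p ∈ W H v, (1 / (p : ℝ)) := by
        rw [sum_mul_sum, ← sum_product']
        refine sum_congr rfl fun x _ => ?_
        ring
      rw [h5, pow_succ]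
      exact mul_le_mul h4 (sum_W_le H v hH) (sum_nonneg fun p _ => by positivity) (by positivity)
    · intro m hm
      refine (norm_sum_le _ _).trans (sum_le_sum fun x hx => ?_)
      rw [mem_filter, hP, mem_product] at hx
      obtain ⟨⟨hx1, hx2⟩, hx3⟩ := hx
      have hp0 : (0 : ℝ) < x.2 := by exact_mod_cast (mem_W hx2).1.pos
      rw [norm_mul, norm_mul, Complex.norm_real, Real.norm_eq_abs, abs_of_nonneg (by positivity)]
      have e1 := hb _ hx1
      have e2 := ha _ (mem_W hx2).1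
      have e3 := norm_nonneg (b x.1)
      have e4 := norm_nonneg (a x.2)
      have e5 : (1 / (x.2 : ℝ)) * ‖a x.2‖ ≤ 1 / x.2 := by
        have : (0 : ℝ) ≤ 1 / x.2 := by positivity
        nlinarith
      calc ‖b x.1‖ * (1 / (x.2 : ℝ) * ‖a x.2‖) ≤ c x.1 * (1 / x.2) :=
            mul_le_mul e1 e5 (by positivity) (e3.trans e1)
        _ = c x.1 / x.2 := by ring

/-! ### one window -/

theorem count_v (a : ℕ → ℂ) (ha : ∀ p : ℕ, p.Prime → ‖a p‖ ≤ 1) {C : ℝ} (hMV : ∀ (N : ℕ) (T : ℝ) (a : ℕ → ℂ), 1 ≤ N → 0 < T →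
    ∫ t : ℝ, ‖∑ n ∈ Icc 1 N, a n * nt n t‖ ^ 2 * g T t ≤ C * (T + N) * ∑ n ∈ Icc 1 N, ‖a n‖ ^ 2)
    (hC : 0 < C) {X : ℝ} (hX : 1 ≤ X) {H v l : ℕ} (hH : 1 ≤ H) {α : ℝ}
    (hl : X ≤ Real.exp (l * ((v : ℝ) / H)))
    (R : Finset ℤ) (hR : ∀ r ∈ R, |(r : ℝ)| ≤ 2 * X) (τ : ℤ → ℝ)
    (hτ : ∀ r ∈ R, τ r ∈ Set.Icc (r : ℝ) (r + 1))
    (hbad : ∀ r ∈ R, Real.exp (-(α * v / H)) ≤ ‖Qa a H v (τ r)‖) :
    (R.card : ℝ) ≤ Real.exp (2 * α * (l * ((v : ℝ) / H))) *
      (3 * C * (4 * Real.exp l) * (2 + (l * (((v : ℝ) + 1) / H)) ^ 2) *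
        (l.factorial * 3 ^ l)) := by
  obtain ⟨s, b, c, h1, h2, h3, h4, hb⟩ := pow_expand a ha H v hH l
  have hH0 : (0 : ℝ) < H := by exact_mod_cast hH
  have hH1 : (1 : ℝ) ≤ H := by exact_mod_cast hH
  set E : ℝ := Real.exp (l * ((v : ℝ) / H)) with hE
  have hE0 : 0 < E := Real.exp_pos _
  set N : ℕ := ⌊Real.exp (l * (((v : ℝ) + 1) / H))⌋₊ with hN
  have hN1 : 1 ≤ N := by
    rw [hN, Nat.one_le_floor_iff]
    exact Real.one_le_exp (by positivity)
  have hNle : (N : ℝ) ≤ Real.exp (l * (((v : ℝ) + 1) / H)) := Nat.floor_le (Real.exp_pos _).le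
  have hs : ∀ n ∈ s, 1 ≤ n ∧ n ≤ N := fun n hn =>
    ⟨Nat.one_le_iff_ne_zero.2 (h2 n hn).1, Nat.le_floor (h2 n hn).2.2.1⟩
  have h5 := sum_sup_le hMV hC s b hN1 hs hX R hR τ hτ
  have hdp : ∀ t, dp s b t = Qa a H v t ^ l := fun t => (h1 t).symm
  have h6 : (R.card : ℝ) * Real.exp (-(2 * α * (l * ((v : ℝ) / H)))) ≤
      ∑ r ∈ R, ‖dp s b (τ r)‖ ^ 2 := by
    rw [← nsmul_eq_mul, ← sum_const]
    refine sum_le_sum fun r hr => ?_
    rw [hdp, norm_pow, ← pow_mul]
    have h7 := pow_le_pow_left₀ (Real.exp_pos _).le (hbad r hr) (l * 2)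
    refine le_trans (le_of_eq ?_) h7
    rw [← Real.exp_nat_mul]
    congr 1
    push_cast
    ring
  have h8 : ∑ n ∈ s, ‖b n‖ ^ 2 ≤ l.factorial / E * 3 ^ l := by
    have h9 : ∀ n ∈ s, ‖b n‖ ^ 2 ≤ l.factorial / E * c n := by
      intro n hn
      have a1 := (h3 n hn).1
      have a2 := (h3 n hn).2
      have a3 := (h2 n hn).2.1
      have a4 : ‖b n‖ ^ 2 ≤ c n * c n := by
        rw [sq]
        exact mul_le_mul (hb n hn) (hb n hn) (norm_nonneg _) a1
      refine a4.trans (mul_le_mul_of_nonneg_right ?_ a1)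
      rw [le_div_iff₀ hE0]
      exact (mul_le_mul_of_nonneg_left a3 a1).trans a2
    refine (sum_le_sum h9).trans ?_
    rw [← mul_sum]
    exact mul_le_mul_of_nonneg_left h4 (by positivity)
  have hlogN : Real.log N ≤ l * (((v : ℝ) + 1) / H) := by
    rw [← Real.log_exp (l * (((v : ℝ) + 1) / H))]
    exact Real.log_le_log (by exact_mod_cast hN1) hNle
  have hlogN0 : 0 ≤ Real.log N := Real.log_natCast_nonneg N
  have h10 : 2 + (Real.log N) ^ 2 ≤ 2 + (l * (((v : ℝ) + 1) / H)) ^ 2 := by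
    have := pow_le_pow_left₀ hlogN0 hlogN 2
    linarith
  have h11 : (3 * X + N) / E ≤ 4 * Real.exp l := by
    rw [div_le_iff₀ hE0]
    have h12 : (N : ℝ) ≤ E * Real.exp l := by
      refine hNle.trans ?_
      rw [hE, ← Real.exp_add]
      apply Real.exp_le_exp.2
      have h13 : (l : ℝ) * (((v : ℝ) + 1) / H) = l * ((v : ℝ) / H) + l / H := by ring
      rw [h13]
      have h14 : (l : ℝ) / H ≤ l := div_le_self (Nat.cast_nonneg l) hH1
      linarith
    have h15 : (1 : ℝ) ≤ Real.exp l := Real.one_le_exp (Nat.cast_nonneg l)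
    nlinarith
  have h16 : (R.card : ℝ) * Real.exp (-(2 * α * (l * ((v : ℝ) / H)))) ≤
      3 * C * (4 * Real.exp l) * (2 + (l * (((v : ℝ) + 1) / H)) ^ 2) * (l.factorial * 3 ^ l) := by
    refine (h6.trans h5).trans ?_
    have h17 : (0 : ℝ) ≤ 3 * X + N := by positivity
    calc 3 * C * (3 * X + N) * (2 + (Real.log N) ^ 2) * ∑ n ∈ s, ‖b n‖ ^ 2
        ≤ 3 * C * (3 * X + N) * (2 + (l * (((v : ℝ) + 1) / H)) ^ 2) *
            (l.factorial / E * 3 ^ l) := by
          refine mul_le_mul ?_ h8 (sum_nonneg fun n _ => by positivity) (by positivity)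
          exact mul_le_mul_of_nonneg_left h10 (by positivity)
      _ = 3 * C * ((3 * X + N) / E) * (2 + (l * (((v : ℝ) + 1) / H)) ^ 2) *
            (l.factorial * 3 ^ l) := by
          field_simp
      _ ≤ _ := by
          refine mul_le_mul_of_nonneg_right ?_ (by positivity)
          refine mul_le_mul_of_nonneg_right ?_ (by positivity)
          exact mul_le_mul_of_nonneg_left h11 (by positivity)
  have h18 : Real.exp (2 * α * (l * ((v : ℝ) / H))) *
      Real.exp (-(2 * α * (l * ((v : ℝ) / H)))) = 1 := by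
    rw [← Real.exp_add]
    simp
  have h19 := Real.exp_pos (2 * α * (l * ((v : ℝ) / H)))
  calc (R.card : ℝ) = Real.exp (2 * α * (l * ((v : ℝ) / H))) *
        ((R.card : ℝ) * Real.exp (-(2 * α * (l * ((v : ℝ) / H))))) := by
          rw [mul_left_comm, h18, mul_one]
    _ ≤ _ := mul_le_mul_of_nonneg_left h16 h19.le

theorem count_v' (a : ℕ → ℂ) (ha : ∀ p : ℕ, p.Prime → ‖a p‖ ≤ 1) {C θ L : ℝ} (hMV : ∀ (N : ℕ) (T : ℝ) (a : ℕ → ℂ), 1 ≤ N → 0 < T →
    ∫ t : ℝ, ‖∑ n ∈ Icc 1 N, a n * nt n t‖ ^ 2 * g T t ≤ C * (T + N) * ∑ n ∈ Icc 1 N, ‖a n‖ ^ 2)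
    (hC : 0 < C) (hθ : 0 < θ) (hθ1 : θ ≤ 1) (hL : 3 ≤ Real.log L) (hLL : 4 ≤ L) {H v : ℕ}
    (hH : 1 ≤ H) {α : ℝ} (hα1 : α ≤ θ / 16)
    (hv1 : 16 / θ * Real.log L ≤ (v : ℝ) / H) (hv2 : (v : ℝ) / H ≤ θ / 16 * L)
    (R : Finset ℤ) (hR : ∀ r ∈ R, |(r : ℝ)| ≤ 2 * Real.exp L) (τ : ℤ → ℝ)
    (hτ : ∀ r ∈ R, τ r ∈ Set.Icc (r : ℝ) (r + 1))
    (hbad : ∀ r ∈ R, Real.exp (-(α * v / H)) ≤ ‖Qa a H v (τ r)‖) :
    (R.card : ℝ) ≤ 132 * C * Real.exp (33 / 128 * θ * L + 4 * Real.log L) := by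
  set y : ℝ := (v : ℝ) / H with hy
  have hH0 : (0 : ℝ) < H := by exact_mod_cast hH
  have hH1 : (1 : ℝ) ≤ H := by exact_mod_cast hH
  have hL0 : 0 < L := by linarith
  have hlog0 : 0 < Real.log L := by linarith
  have hy48 : 48 ≤ y := by
    have h1 : 16 ≤ 16 / θ := by
      rw [le_div_iff₀ hθ]
      nlinarith
    nlinarith
  have hy0 : 0 < y := by linarith
  set l : ℕ := ⌈L / y⌉₊ with hl
  have hl1 : L / y ≤ l := Nat.le_ceil _
  have hl2 : (l : ℝ) < L / y + 1 := Nat.ceil_lt_add_one (by positivity)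
  have hly1 : L ≤ l * y := by
    rw [div_le_iff₀ hy0] at hl1
    exact hl1
  have hly2 : l * y ≤ L + y := by
    have := mul_le_mul_of_nonneg_right hl2.le hy0.le
    rw [add_mul, div_mul_cancel₀ _ hy0.ne', one_mul] at this
    exact this
  have hlL : (l : ℝ) ≤ L := by
    have h1 : L / y ≤ L / 48 := div_le_div_of_nonneg_left hL0.le (by norm_num) hy48
    linarith
  have hlog : (l : ℝ) * Real.log L ≤ θ / 16 * L + Real.log L := by
    have h1 : L / y * Real.log L ≤ θ / 16 * L := by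
      rw [div_mul_eq_mul_div, div_le_iff₀ hy0]
      have h2 : θ / 16 * (16 / θ * Real.log L) ≤ θ / 16 * y :=
        mul_le_mul_of_nonneg_left hv1 (by positivity)
      have h3 : θ / 16 * (16 / θ * Real.log L) = Real.log L := by
        field_simp
      rw [h3] at h2
      nlinarith
    nlinarith [mul_le_mul_of_nonneg_right hl2.le hlog0.le]
  have hcount := count_v a ha hMV hC (Real.one_le_exp hL0.le) hH (α := α) (v := v) (l := l)
    (Real.exp_le_exp.2 hly1) R hR τ hτ hbad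
  refine hcount.trans ?_
  -- the factors
  have f1 : Real.exp (2 * α * (l * ((v : ℝ) / H))) ≤ Real.exp (17 / 128 * θ * L) := by
    apply Real.exp_le_exp.2
    have h1 : 2 * α * (l * y) ≤ 2 * (θ / 16) * (L + θ / 16 * L) := by
      apply mul_le_mul (by linarith) (by linarith) (by positivity) (by positivity)
    refine h1.trans ?_
    nlinarith [mul_nonneg hθ.le hL0.le, mul_nonneg (mul_nonneg hθ.le hL0.le) (sub_nonneg.2 hθ1)]
  have f2 : 2 + (l * (((v : ℝ) + 1) / H)) ^ 2 ≤ 11 * Real.exp (2 * Real.log L) := by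
    have h1 : (l : ℝ) * (((v : ℝ) + 1) / H) = l * y + l / H := by
      rw [hy]; ring
    have h2 : (l : ℝ) / H ≤ l := div_le_self (Nat.cast_nonneg l) hH1
    have h3 : (l : ℝ) * (((v : ℝ) + 1) / H) ≤ 3 * L := by
      rw [h1]
      nlinarith
    have h4 : Real.exp (2 * Real.log L) = L ^ 2 := by
      rw [mul_comm, Real.exp_mul, Real.exp_log hL0]
      norm_cast
    rw [h4]
    have h5 : (0 : ℝ) ≤ l * (((v : ℝ) + 1) / H) := by positivity
    nlinarith [pow_le_pow_left₀ h5 h3 2]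
  have f3 : (l.factorial : ℝ) ≤ Real.exp (l * Real.log L) := by
    have h1 : (l.factorial : ℝ) ≤ (l : ℝ) ^ l := by exact_mod_cast Nat.factorial_le_pow l
    refine h1.trans ?_
    rw [mul_comm, Real.exp_mul, Real.exp_log hL0, Real.rpow_natCast]
    exact pow_le_pow_left₀ (Nat.cast_nonneg l) hlL l
  have f4 : (3 : ℝ) ^ l * Real.exp l ≤ Real.exp (l * Real.log L) := by
    have h1 : (3 : ℝ) ≤ Real.exp 2 := by
      have := Real.exp_one_gt_d9
      have h2 : Real.exp 2 = Real.exp 1 * Real.exp 1 := by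
        rw [← Real.exp_add]; norm_num
      rw [h2]
      nlinarith
    have h2 : (3 : ℝ) ^ l ≤ Real.exp (l * 2) := by
      rw [Real.exp_nat_mul]
      exact pow_le_pow_left₀ (by norm_num) h1 l
    calc (3 : ℝ) ^ l * Real.exp l ≤ Real.exp (l * 2) * Real.exp l :=
          mul_le_mul_of_nonneg_right h2 (Real.exp_pos _).le
      _ = Real.exp (l * 3) := by rw [← Real.exp_add]; ring_nf
      _ ≤ _ := Real.exp_le_exp.2 (mul_le_mul_of_nonneg_left hL (Nat.cast_nonneg l))
  have f5 : Real.exp (l * Real.log L) ≤ Real.exp (θ / 16 * L + Real.log L) :=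
    Real.exp_le_exp.2 hlog
  have hrw : 3 * C * (4 * Real.exp l) * (2 + (l * (((v : ℝ) + 1) / H)) ^ 2) *
      (l.factorial * 3 ^ l) = 12 * C * (2 + (l * (((v : ℝ) + 1) / H)) ^ 2) *
      (l.factorial * (3 ^ l * Real.exp l)) := by ring
  rw [hrw]
  have g1 : (l.factorial : ℝ) * (3 ^ l * Real.exp l) ≤
      Real.exp (θ / 16 * L + Real.log L) * Real.exp (θ / 16 * L + Real.log L) :=
    mul_le_mul (f3.trans f5) (f4.trans f5) (by positivity) (by positivity)
  have g2 : 12 * C * (2 + (l * (((v : ℝ) + 1) / H)) ^ 2) * (l.factorial * (3 ^ l * Real.exp l)) ≤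
      12 * C * (11 * Real.exp (2 * Real.log L)) *
        (Real.exp (θ / 16 * L + Real.log L) * Real.exp (θ / 16 * L + Real.log L)) :=
    mul_le_mul (mul_le_mul_of_nonneg_left f2 (by positivity)) g1 (by positivity) (by positivity)
  refine (mul_le_mul f1 g2 (by positivity) (by positivity)).trans (le_of_eq ?_)
  have e1 : Real.exp (17 / 128 * θ * L) * (12 * C * (11 * Real.exp (2 * Real.log L)) *
        (Real.exp (θ / 16 * L + Real.log L) * Real.exp (θ / 16 * L + Real.log L))) =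
      132 * C * (Real.exp (17 / 128 * θ * L) * Real.exp (2 * Real.log L) *
        (Real.exp (θ / 16 * L + Real.log L) * Real.exp (θ / 16 * L + Real.log L))) := by ring
  rw [e1, ← Real.exp_add, ← Real.exp_add, ← Real.exp_add]
  congr 2
  ring

/-- **Row LCF**, uniform in the coefficients. -/
theorem largeCount_a (hMV : MeanValue) : ∀ θ : ℝ, 0 < θ → θ ≤ 1 → ∃ X0 : ℝ, ∀ X : ℝ, X0 ≤ X →
    ∀ (a : ℕ → ℂ), (∀ p : ℕ, p.Prime → ‖a p‖ ≤ 1) →
    ∀ (H v1 v2 : ℕ) (α : ℝ), 1 ≤ H → H ≤ v1 → v1 ≤ v2 → 0 ≤ α → α ≤ θ / 16 →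
    (v2 : ℝ) / H ≤ θ / 16 * Real.log X → 16 / θ * Real.log (Real.log X) ≤ (v1 : ℝ) / H →
    12 * Real.log ((v2 : ℝ) + 2) ≤ (v1 : ℝ) / H →
    ∀ R : Finset ℤ, (∀ r ∈ R, |(r : ℝ)| ≤ 2 * X) →
      (∀ r ∈ R, ∃ t ∈ Set.Icc (r : ℝ) (r + 1), ∃ v ∈ Ico v1 v2,
        Real.exp (-(α * v / H)) < ‖Qa a H v t‖) →
      (R.card : ℝ) ≤ X ^ θ := by
  obtain ⟨C, hC, hMV⟩ := hMV
  intro θ hθ hθ1
  have ev1 : ∀ᶠ L : ℝ in Filter.atTop, Real.log L ≤ θ / 16 * L := by
    have h := Real.isLittleO_log_id_atTop.bound (c := θ / 16) (by positivity)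
    filter_upwards [h, Filter.eventually_ge_atTop 1] with L h1 h2
    have h3 : (0 : ℝ) ≤ L := by linarith
    rw [id, Real.norm_eq_abs, Real.norm_eq_abs, abs_of_nonneg h3] at h1
    exact (le_abs_self _).trans h1
  have ev2 : ∀ᶠ L : ℝ in Filter.atTop, Real.log (132 * C) ≤ θ / 4 * L := by
    have h : Filter.Tendsto (fun L : ℝ => θ / 4 * L) Filter.atTop Filter.atTop :=
      Filter.Tendsto.const_mul_atTop (by positivity) Filter.tendsto_id
    exact h.eventually_ge_atTop _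
  have ev3 : ∀ᶠ L : ℝ in Filter.atTop, 3 ≤ Real.log L := Real.tendsto_log_atTop.eventually_ge_atTop 3
  obtain ⟨L0, hL0⟩ := Filter.eventually_atTop.1
    (ev1.and (ev2.and (ev3.and (Filter.eventually_ge_atTop 4))))
  refine ⟨Real.exp L0, fun X hX a ha H v1 v2 α hH hHv hv hα hα1 hv2 hv1 hv12 R hR hbad => ?_⟩
  have hX0 : 0 < X := (Real.exp_pos _).trans_le hX
  set L : ℝ := Real.log X with hL
  have hXL : X = Real.exp L := (Real.exp_log hX0).symm
  have hLL0 : L0 ≤ L := by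
    rw [hL, Real.le_log_iff_exp_le hX0]
    exact hX
  obtain ⟨c1, c2, c3, c4⟩ := hL0 L hLL0
  have hLpos : 0 < L := by linarith
  have hH0 : (0 : ℝ) < H := by exact_mod_cast hH
  classical
  -- choose times and windows
  have hch : ∀ r : ℤ, ∃ p : ℝ × ℕ, r ∈ R → p.1 ∈ Set.Icc (r : ℝ) (r + 1) ∧ p.2 ∈ Ico v1 v2 ∧
      Real.exp (-(α * p.2 / H)) ≤ ‖Qa a H p.2 p.1‖ := by
    intro r
    by_cases hr : r ∈ R
    · obtain ⟨t, ht, v, hv, hlt⟩ := hbad r hr
      exact ⟨(t, v), fun _ => ⟨ht, hv, hlt.le⟩⟩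
    · exact ⟨(0, 0), fun h => absurd h hr⟩
  choose p hp using hch
  have hcard : (R.card : ℝ) = ∑ v ∈ Ico v1 v2, ((R.filter fun r => (p r).2 = v).card : ℝ) := by
    have := card_eq_sum_card_fiberwise (f := fun r => (p r).2) (s := R) (t := Ico v1 v2)
      (fun r hr => (hp r hr).2.1)
    exact_mod_cast this
  have hone : ∀ v ∈ Ico v1 v2, ((R.filter fun r => (p r).2 = v).card : ℝ) ≤
      132 * C * Real.exp (33 / 128 * θ * L + 4 * Real.log L) := by
    intro v hvm
    rw [mem_Ico] at hvm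
    have hvr1 : (v1 : ℝ) ≤ v := by exact_mod_cast hvm.1
    have hvr2 : (v : ℝ) ≤ v2 := by exact_mod_cast hvm.2.le
    have hy1 : (v1 : ℝ) / H ≤ (v : ℝ) / H := div_le_div_of_nonneg_right hvr1 hH0.le
    have hy2 : (v : ℝ) / H ≤ (v2 : ℝ) / H := div_le_div_of_nonneg_right hvr2 hH0.le
    refine count_v' a ha hMV hC hθ hθ1 c3 c4 hH hα1 (hv1.trans hy1) (hy2.trans hv2) _ ?_
      (fun r => (p r).1) ?_ ?_
    · intro r hr
      rw [← hXL]
      exact hR r (mem_filter.1 hr).1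
    · intro r hr
      exact (hp r (mem_filter.1 hr).1).1
    · intro r hr
      have h1 := (hp r (mem_filter.1 hr).1).2.2
      rw [(mem_filter.1 hr).2] at h1
      exact h1
  have h1 : (R.card : ℝ) ≤ v2 * (132 * C * Real.exp (33 / 128 * θ * L + 4 * Real.log L)) := by
    rw [hcard]
    refine (sum_le_sum hone).trans ?_
    rw [sum_const, nsmul_eq_mul, Nat.card_Ico]
    refine mul_le_mul_of_nonneg_right ?_ (by positivity)
    exact_mod_cast Nat.sub_le _ _
  have h2 : (v2 : ℝ) ≤ Real.exp (θ / 192 * L) := by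
    have h3 : (v1 : ℝ) / H ≤ θ / 16 * L := by
      refine le_trans ?_ hv2
      exact div_le_div_of_nonneg_right (by exact_mod_cast hv) hH0.le
    have h4 : Real.log ((v2 : ℝ) + 2) ≤ θ / 192 * L := by linarith
    have h5 : (0 : ℝ) < (v2 : ℝ) + 2 := by positivity
    have h6 := (Real.log_le_iff_le_exp h5).1 h4
    linarith
  have h7 : 132 * C ≤ Real.exp (θ / 4 * L) := (Real.log_le_iff_le_exp (by positivity)).1 c2
  rw [Real.rpow_def_of_pos hX0]
  calc (R.card : ℝ) ≤ v2 * (132 * C * Real.exp (33 / 128 * θ * L + 4 * Real.log L)) := h1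
    _ ≤ Real.exp (θ / 192 * L) * (Real.exp (θ / 4 * L) *
        Real.exp (33 / 128 * θ * L + 4 * Real.log L)) := by
        refine mul_le_mul h2 ?_ (by positivity) (Real.exp_pos _).le
        exact mul_le_mul_of_nonneg_right h7 (Real.exp_pos _).le
    _ = Real.exp (θ / 192 * L + (θ / 4 * L + (33 / 128 * θ * L + 4 * Real.log L))) := by
        rw [← Real.exp_add, ← Real.exp_add]
    _ ≤ Real.exp (Real.log X * θ) := by
        apply Real.exp_le_exp.2
        rw [← hL]
        nlinarith [mul_pos hθ hLpos]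

end

end Pool.Agent.MRF.LCF
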