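import Pool.Agent.Lib.MRF.Defs
import Pool.Agent.Lib.MRF.LCg

/-! TANK MRF, row F_LC. helper59. -/

set_option autoImplicit false

namespace Pool.Agent.MRF

open Finset Pool.Agent.MRL Pool.Agent.MRHal

/-- **Row F_LC.** -/
theorem largeCountF {f : ℕ → ℂ} (hf : CM f) (hMV : MeanValue) : LargeCountF f := by
  intro θ hθ hθ1
  obtain ⟨X0, h⟩ := LCF.largeCount_a hMV θ hθ hθ1
  refine ⟨X0, fun X hX H v1 v2 α hH hHv hv hα hα1 hv2 hv1 hv12 R hR hbad => ?_⟩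
  refine h X hX f (fun p _ => hf.le p) H v1 v2 α hH hHv hv hα hα1 hv2 hv1 hv12 R hR
    fun r hr => ?_
  obtain ⟨t, ht, hg⟩ := hbad r hr
  unfold GoodF at hg
  push Not at hg
  obtain ⟨v, hv, hlt⟩ := hg
  exact ⟨t, ht, v, hv, hlt⟩

end Pool.Agent.MRF
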