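import Pool.Agent.Lib.MRF.Defs
import Pool.Agent.Lib.MRL.MO0

/-! TANK MRF, row F_MO: moments of the prime polynomials of a function bounded by one. helper43. -/

set_option autoImplicit false

open Complex Finset MeasureTheory

namespace Pool.Agent.MRF

open Pool.Agent.MRL Pool.Agent.MRL.MO Pool.Agent.MRHal

namespace MO

/-- **Expansion**: the coefficients of `Q_f ^ l * R`. -/
theorem expandF {f : ℕ → ℂ} (hf : ∀ n, ‖f n‖ ≤ 1) {W : Finset ℕ} (hW : ∀ p ∈ W, p.Prime)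
    (l : ℕ) (M : Finset ℕ) (hM : ∀ m ∈ M, 1 ≤ m) (b : ℕ → ℂ)
    (hb : ∀ m ∈ M, ‖b m‖ ≤ 1 / m) :
    ∃ (F : Finset ℕ) (c : ℕ → ℂ),
      (∀ n ∈ F, ∃ x ∈ tup W l, ∃ m ∈ M, n = (∏ i, x i) * m) ∧
      (∀ t, (∑ p ∈ W, (((1 / (p : ℝ) : ℝ) : ℂ) * f p) * nt p t) ^ l * (∑ m ∈ M, b m * nt m t) =
        ∑ n ∈ F, c n * nt n t) ∧
      (∀ n ∈ F, ‖c n‖ ≤ gl W l n / n) := by
  classical
  set T := tup W l ×ˢ M with hT
  set fz : (Fin l → ℕ) × ℕ → ℕ := fun z => (∏ i, z.1 i) * z.2 with hfz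
  set u : (Fin l → ℕ) × ℕ → ℂ :=
    fun z => (∏ i, (((1 / (z.1 i : ℝ) : ℝ) : ℂ) * f (z.1 i))) * b z.2 with hu
  refine ⟨image fz T, fun n => ∑ z ∈ T with fz z = n, u z, ?_, ?_, ?_⟩
  · intro n hn
    obtain ⟨z, hz, rfl⟩ := mem_image.1 hn
    have h := mem_product.1 hz
    exact ⟨z.1, h.1, z.2, h.2, rfl⟩
  · intro t
    have h1 : ∀ n ∈ image fz T, (∑ z ∈ T with fz z = n, u z) * nt n t =
        ∑ z ∈ T with fz z = n, u z * nt (fz z) t := by
      intro n _
      rw [sum_mul]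
      exact sum_congr rfl fun z hz => by rw [(mem_filter.1 hz).2]
    rw [sum_congr rfl h1, sum_fiberwise_of_maps_to (fun z hz => mem_image_of_mem fz hz), sum_pow',
      sum_mul_sum, ← sum_product']
    refine sum_congr rfl fun z hz => ?_
    have h := mem_product.1 hz
    have hx0 : ∀ i, z.1 i ≠ 0 := fun i => (hW _ (mem_tup.1 h.1 i)).ne_zero
    have hm0 : z.2 ≠ 0 := by
      have := hM _ h.2
      omega
    rw [hfz, hu]
    simp only
    rw [MRL.MO.nt_mul (prod_ne_zero_iff.2 fun i _ => hx0 i) hm0, nt_prod _ hx0, prod_mul_distrib]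
    ring
  · intro n hn
    obtain ⟨z0, hz0, hn0⟩ := mem_image.1 hn
    have hnpos : 0 < n := by
      rw [← hn0]
      have h := mem_product.1 hz0
      exact Nat.mul_pos (prod_pos_of_tup hW h.1) (hM _ h.2)
    have hn1 : (0 : ℝ) < n := by exact_mod_cast hnpos
    have h1 : ∀ z ∈ T.filter (fun z => fz z = n), ‖u z‖ ≤ 1 / (n : ℝ) := by
      intro z hz
      have hz' := mem_filter.1 hz
      have h := mem_product.1 hz'.1
      have hP : (0 : ℝ) < ((∏ i, z.1 i : ℕ) : ℝ) := by exact_mod_cast prod_pos_of_tup hW h.1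
      have hm : (0 : ℝ) < z.2 := by exact_mod_cast hM _ h.2
      rw [hu]
      simp only
      rw [norm_mul, norm_prod]
      have h2 : ∏ i, ‖((1 / (z.1 i : ℝ) : ℝ) : ℂ) * f (z.1 i)‖ ≤ ∏ i, 1 / (z.1 i : ℝ) :=
        prod_le_prod (fun _ _ => norm_nonneg _) fun i _ => norm_coef hf _
      have h3 : ∏ i, 1 / (z.1 i : ℝ) = 1 / ((∏ i, z.1 i : ℕ) : ℝ) := by
        push_cast
        rw [prod_div_distrib, prod_const_one]
      rw [h3] at h2
      have e : (n : ℝ) = ((∏ i, z.1 i : ℕ) : ℝ) * z.2 := by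
        rw [← hz'.2, hfz]
        push_cast
        ring
      rw [e, ← one_div_mul_one_div]
      exact mul_le_mul h2 (hb _ h.2) (norm_nonneg _) (by positivity)
    refine (norm_sum_le _ _).trans ((sum_le_sum h1).trans ?_)
    rw [sum_const, nsmul_eq_mul, mul_one_div]
    apply div_le_div_of_nonneg_right _ hn1.le
    have h2 : #{z ∈ T | fz z = n} ≤ gl W l n := by
      apply card_le_card_of_injOn (fun z => z.1)
      · intro z hz
        have hz' := mem_filter.1 (mem_coe.1 hz)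
        have h := mem_product.1 hz'.1
        exact mem_coe.2 (mem_filter.2 ⟨h.1, ⟨z.2, hz'.2.symm⟩⟩)
      · intro z hz z' hz' he
        have hz1 := mem_filter.1 (mem_coe.1 hz)
        have hz2 := mem_filter.1 (mem_coe.1 hz')
        have h := mem_product.1 hz1.1
        have e : fz z = fz z' := hz1.2.trans hz2.2.symm
        rw [hfz] at e
        simp only at e he
        rw [he] at e
        have hP : 0 < ∏ i, z'.1 i := prod_pos_of_tup hW (mem_product.1 hz2.1).1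
        exact Prod.ext he (Nat.eq_of_mul_eq_mul_left hP e)
    exact_mod_cast h2

/-- the general form. -/
theorem moment_auxF {f : ℕ → ℂ} (hf : ∀ n, ‖f n‖ ≤ 1) {H v : ℕ} (hH : 1 ≤ H) (hv : H ≤ v) {l : ℕ} (hl : 1 ≤ l) (M : Finset ℕ)
    (b : ℕ → ℂ) {y0 y1 : ℝ} (hy0 : 0 < y0) (hM : ∀ m ∈ M, 1 ≤ m ∧ y0 ≤ m ∧ (m : ℝ) ≤ y1)
    (hb : ∀ m ∈ M, ‖b m‖ ≤ 1 / m) (hy1 : 1 ≤ y1) :
    ∃ (N : ℕ) (c : ℕ → ℂ), 1 ≤ N ∧ (N : ℝ) ≤ Real.exp (l * (((v : ℝ) + 1) / H)) * y1 ∧
      (∀ t : ℝ, QF f H v t ^ l * (∑ m ∈ M, b m * nt m t) = ∑ n ∈ Icc 1 N, c n * nt n t) ∧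
      (∀ n : ℕ, c n ≠ 0 → Real.exp (l * ((v : ℝ) / H)) * y0 ≤ n) ∧
      ∑ n ∈ Icc 1 N, ‖c n‖ ^ 2 * n ≤ y1 / y0 * (36 * l) ^ l := by
  classical
  obtain ⟨F, c, hF, hc, hn⟩ := expandF hf (W := W H v) prime_W l M
    (fun m hm => (hM m hm).1) b hb
  set N1 : ℝ := Real.exp (l * (((v : ℝ) + 1) / H)) * y1 with hN1
  set N0 : ℝ := Real.exp (l * ((v : ℝ) / H)) * y0 with hN0
  have hN0pos : 0 < N0 := by positivity
  have hexp : 1 ≤ Real.exp (l * (((v : ℝ) + 1) / H)) := Real.one_le_exp (by positivity)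
  have hN11 : 1 ≤ N1 := one_le_mul_of_one_le_of_one_le hexp hy1
  have hr : ∀ n ∈ F, 1 ≤ n ∧ N0 ≤ n ∧ (n : ℝ) ≤ N1 := by
    intro n hn
    obtain ⟨x, hx, m, hm, rfl⟩ := hF n hn
    have hm' := hM m hm
    have h1 : 0 < ∏ i, x i := prod_pos_of_tup prime_W hx
    refine ⟨Nat.mul_pos h1 hm'.1, ?_, ?_⟩
    · push_cast
      refine mul_le_mul ?_ hm'.2.1 hy0.le (by positivity)
      rw [Real.exp_nat_mul]
      have h2 : ∏ _i : Fin l, Real.exp ((v : ℝ) / H) ≤ ∏ i, (x i : ℝ) :=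
        prod_le_prod (fun _ _ => (Real.exp_pos _).le) fun i _ => (mem_W (mem_tup.1 hx i)).2.1.le
      simpa using h2
    · push_cast
      refine mul_le_mul ?_ hm'.2.2 (by positivity) (by positivity)
      rw [Real.exp_nat_mul]
      have h2 : ∏ i, (x i : ℝ) ≤ ∏ _i : Fin l, Real.exp (((v : ℝ) + 1) / H) :=
        prod_le_prod (fun _ _ => by positivity) fun i _ => (mem_W (mem_tup.1 hx i)).2.2
      simpa using h2
  have hsub : F ⊆ Icc 1 ⌊N1⌋₊ := fun n hn =>
    mem_Icc.2 ⟨(hr n hn).1, Nat.le_floor (hr n hn).2.2⟩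
  refine ⟨⌊N1⌋₊, fun n => if n ∈ F then c n else 0, ?_, Nat.floor_le (by linarith), ?_, ?_, ?_⟩
  · exact Nat.le_floor (by exact_mod_cast hN11)
  · intro t
    have h1 := hc t
    rw [QF, h1, ← sum_subset hsub]
    · refine sum_congr rfl fun n hn => ?_
      simp only [if_pos hn]
    · intro n _ hn
      simp only [if_neg hn, zero_mul]
  · intro n hn
    by_cases h : n ∈ F
    · exact (hr n h).2.1
    · exact absurd (if_neg h) hn
  · have h1 : ∑ n ∈ Icc 1 ⌊N1⌋₊, ‖(if n ∈ F then c n else 0 : ℂ)‖ ^ 2 * (n : ℝ) =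
        ∑ n ∈ F, ‖c n‖ ^ 2 * (n : ℝ) := by
      rw [← sum_subset hsub]
      · exact sum_congr rfl fun n hn => by rw [if_pos hn]
      · intro n _ hn
        rw [if_neg hn, norm_zero]
        ring
    rw [h1]
    have h2 : ∀ n ∈ F, ‖c n‖ ^ 2 * (n : ℝ) ≤ 1 / N0 * (gl (W H v) l n : ℝ) ^ 2 := by
      intro n h
      have hr' := hr n h
      have hn0 : (0 : ℝ) < n := hN0pos.trans_le hr'.2.1
      have h3 := pow_le_pow_left₀ (norm_nonneg _) (hn n h) 2
      calc ‖c n‖ ^ 2 * (n : ℝ) ≤ (gl (W H v) l n / n) ^ 2 * n :=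
            mul_le_mul_of_nonneg_right h3 hn0.le
        _ = 1 / n * (gl (W H v) l n : ℝ) ^ 2 := by field_simp
        _ ≤ 1 / N0 * (gl (W H v) l n : ℝ) ^ 2 :=
            mul_le_mul_of_nonneg_right (one_div_le_one_div_of_le hN0pos hr'.2.1) (sq_nonneg _)
    refine (sum_le_sum h2).trans ?_
    rw [← mul_sum]
    have h3 := sum_gl_sq (W := W H v) prime_W (sum_W_le hH hv) l F (N := N1) (by linarith)
      (fun n hn => ⟨(hr n hn).1, (hr n hn).2.2⟩)
    refine (mul_le_mul_of_nonneg_left h3 (by positivity)).trans ?_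
    have h4 : (3 * (3 + (l : ℝ))) ^ l ≤ (12 * l) ^ l := by
      apply pow_le_pow_left₀ (by positivity)
      have : (1 : ℝ) ≤ l := by exact_mod_cast hl
      linarith
    have h5 : N1 ≤ 3 ^ l * (y1 / y0) * N0 := by
      have h6 : Real.exp (l * (((v : ℝ) + 1) / H)) ≤ 3 ^ l * Real.exp (l * ((v : ℝ) / H)) := by
        rw [Real.exp_nat_mul, Real.exp_nat_mul, ← mul_pow]
        apply pow_le_pow_left₀ (Real.exp_pos _).le
        refine (exp_succ_le hH).trans (mul_le_mul_of_nonneg_right ?_ (Real.exp_pos _).le)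
        linarith [Real.exp_one_lt_d9]
      have h7 : 3 ^ l * (y1 / y0) * N0 = 3 ^ l * Real.exp (l * ((v : ℝ) / H)) * y1 := by
        rw [hN0]
        field_simp
      rw [h7, hN1]
      exact mul_le_mul_of_nonneg_right h6 (by linarith)
    calc 1 / N0 * (N1 * (3 * (3 + (l : ℝ))) ^ l)
        ≤ 1 / N0 * (3 ^ l * (y1 / y0) * N0 * (12 * l) ^ l) := by
          apply mul_le_mul_of_nonneg_left _ (by positivity)
          exact mul_le_mul h5 h4 (by positivity) (by positivity)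
      _ = y1 / y0 * (36 * l) ^ l := by
          have e : (36 * (l : ℝ)) ^ l = 3 ^ l * (12 * l) ^ l := by
            rw [← mul_pow]
            congr 1
            ring
          rw [e]
          field_simp

end MO

open MO

/-- **Row F_MO**, the pure power. -/
theorem moment0F {f : ℕ → ℂ} (hf : CM f) : Moment0F f := by
  refine ⟨36, by norm_num, fun l H v hl hH hv => ?_⟩
  obtain ⟨N, c, h1, h2, h3, h4, h5⟩ := moment_auxF hf.le hH hv hl {1} (fun _ => 1) (y0 := 1) (y1 := 1)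
    one_pos (by simp) (by simp) le_rfl
  refine ⟨N, c, h1, by simpa using h2, fun t => ?_, fun n hn => by simpa using h4 n hn, by
    simpa using h5⟩
  rw [← h3 t]
  simp [nt]

/-- **Row F_MO**, with the polynomial `A`. -/
theorem momentF {f : ℕ → ℂ} (hf : CM f) : MomentF f := by
  refine ⟨72, by norm_num, fun l H v Y hl hH hv hY => ?_⟩
  obtain ⟨N, c, h1, h2, h3, h4, h5⟩ := moment_auxF hf.le hH hv hl (Ioc ⌊Y⌋₊ ⌊2 * Y⌋₊)
    (fun m => ((1 / (m : ℝ) : ℝ) : ℂ) * f m) (y0 := Y) (y1 := 2 * Y) (by linarith)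
    (fun m hm => by
      have h := mem_Ioc.1 hm
      have h1 := (Nat.floor_lt (by linarith)).1 h.1
      exact ⟨by omega, h1.le, (Nat.le_floor_iff (by linarith)).1 h.2⟩)
    (fun m _ => norm_coef hf.le m)
    (by linarith)
  refine ⟨N, c, h1, by linarith, fun t => ?_, h4, ?_⟩
  · rw [← h3 t]
    rfl
  · refine h5.trans ?_
    have e : 2 * Y / Y = 2 := by field_simp
    have e2 : (72 * (l : ℝ)) ^ l = 2 ^ l * (36 * l) ^ l := by
      rw [← mul_pow]
      congr 1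
      ring
    rw [e, e2]
    apply mul_le_mul_of_nonneg_right _ (by positivity)
    have h6 := pow_le_pow_right₀ (show (1 : ℝ) ≤ 2 by norm_num) hl
    simpa using h6

end Pool.Agent.MRF
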