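import Pool.Agent.Lib.MRF.AT

/-! TANK MRF, row F_S1: the set where all prime polynomials of the first scale are small, for a
multiplicative `f` bounded by `1`. helper55. -/

set_option autoImplicit false

namespace Pool.Agent.MRF

open Finset MeasureTheory Pool.Agent.MRL Pool.Agent.MRHal

theorem S1F_of_bounded {f : ℕ → ℂ} (hf : ∀ n, ‖f n‖ ≤ 1) (h1 : MeanValue) : StepOneF f := by
  obtain ⟨C, hC, hA⟩ := AT.AF_mean hf h1
  refine ⟨C, hC, fun X T H v1 v2 α hH hv hT hα hTX hX => ?_⟩
  have hHr : (0 : ℝ) < H := by exact_mod_cast hH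
  have hX1 : 1 ≤ √X := le_trans (Real.one_le_exp (by positivity)) hX
  have hX0 : 0 < X := by
    by_contra hneg
    rw [Real.sqrt_eq_zero_of_nonpos (not_lt.mp hneg)] at hX1
    linarith
  -- the pointwise bound
  have hpt : ∀ t ∈ {t : ℝ | GoodF f H v1 v2 α t}, ‖SF f X H v1 v2 t‖ ^ 2 * g T t ≤
      ∑ v ∈ Ico v1 v2, (v2 : ℝ) * Real.exp (-(2 * α * v1 / H)) *
        (‖AF f (X * Real.exp (-((v : ℝ) / H))) t‖ ^ 2 * g T t) := by
    intro t ht
    have hs : ‖SF f X H v1 v2 t‖ ^ 2 ≤ ∑ v ∈ Ico v1 v2, (v2 : ℝ) *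
        Real.exp (-(2 * α * v1 / H)) * ‖AF f (X * Real.exp (-((v : ℝ) / H))) t‖ ^ 2 := by
      unfold SF
      calc ‖∑ v ∈ Ico v1 v2, QF f H v t * AF f (X * Real.exp (-((v : ℝ) / H))) t‖ ^ 2
          ≤ (∑ v ∈ Ico v1 v2, ‖QF f H v t * AF f (X * Real.exp (-((v : ℝ) / H))) t‖) ^ 2 :=
            pow_le_pow_left₀ (norm_nonneg _) (norm_sum_le _ _) 2
        _ ≤ (Ico v1 v2).card * ∑ v ∈ Ico v1 v2,
              ‖QF f H v t * AF f (X * Real.exp (-((v : ℝ) / H))) t‖ ^ 2 :=
            sq_sum_le_card_mul_sum_sq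
        _ ≤ (v2 : ℝ) * ∑ v ∈ Ico v1 v2, Real.exp (-(2 * α * v1 / H)) *
              ‖AF f (X * Real.exp (-((v : ℝ) / H))) t‖ ^ 2 := by
            have hcard : (((Ico v1 v2).card : ℕ) : ℝ) ≤ v2 := by
              rw [Nat.card_Ico]
              exact_mod_cast Nat.sub_le _ _
            refine mul_le_mul hcard (Finset.sum_le_sum fun v hv' => ?_) (by positivity)
              (by positivity)
            rw [norm_mul, mul_pow]
            refine mul_le_mul_of_nonneg_right ?_ (by positivity)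
            have hv1 : v1 ≤ v := (Finset.mem_Ico.mp hv').1
            calc ‖QF f H v t‖ ^ 2 ≤ Real.exp (-(α * v / H)) ^ 2 :=
                  pow_le_pow_left₀ (norm_nonneg _) (ht v hv') 2
              _ = Real.exp (-(2 * α * v / H)) := by
                  rw [← Real.exp_nat_mul]
                  congr 1
                  push_cast
                  ring
              _ ≤ Real.exp (-(2 * α * v1 / H)) := by
                  rw [Real.exp_le_exp, neg_le_neg_iff]
                  have : (v1 : ℝ) ≤ v := by exact_mod_cast hv1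
                  gcongr
        _ = _ := by
            rw [Finset.mul_sum]
            exact Finset.sum_congr rfl fun v _ => by ring
    calc ‖SF f X H v1 v2 t‖ ^ 2 * g T t ≤ (∑ v ∈ Ico v1 v2, (v2 : ℝ) *
          Real.exp (-(2 * α * v1 / H)) * ‖AF f (X * Real.exp (-((v : ℝ) / H))) t‖ ^ 2) *
            g T t := mul_le_mul_of_nonneg_right hs (AT.g_pos T t).le
      _ = _ := by
          rw [Finset.sum_mul]
          exact Finset.sum_congr rfl fun v _ => by ring
  have hint : ∀ v ∈ Ico v1 v2, Integrable fun t => (v2 : ℝ) * Real.exp (-(2 * α * v1 / H)) *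
      (‖AF f (X * Real.exp (-((v : ℝ) / H))) t‖ ^ 2 * g T t) := fun v _ =>
    (AT.integrable_AF hf _ hT).const_mul _
  have hint' : Integrable fun t => ∑ v ∈ Ico v1 v2, (v2 : ℝ) * Real.exp (-(2 * α * v1 / H)) *
      (‖AF f (X * Real.exp (-((v : ℝ) / H))) t‖ ^ 2 * g T t) := integrable_finsetSum _ hint
  calc ∫ t in {t : ℝ | GoodF f H v1 v2 α t}, ‖SF f X H v1 v2 t‖ ^ 2 * g T t
      ≤ ∫ t in {t : ℝ | GoodF f H v1 v2 α t}, ∑ v ∈ Ico v1 v2, (v2 : ℝ) *
          Real.exp (-(2 * α * v1 / H)) *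
            (‖AF f (X * Real.exp (-((v : ℝ) / H))) t‖ ^ 2 * g T t) := by
        refine integral_mono_of_nonneg ?_ hint'.integrableOn ?_
        · exact Filter.Eventually.of_forall fun t => by
            have := AT.g_pos T t
            positivity
        · exact (ae_restrict_iff' (isClosed_goodF f H v1 v2 α).measurableSet).mpr
            (Filter.Eventually.of_forall hpt)
    _ ≤ ∫ t, ∑ v ∈ Ico v1 v2, (v2 : ℝ) * Real.exp (-(2 * α * v1 / H)) *
          (‖AF f (X * Real.exp (-((v : ℝ) / H))) t‖ ^ 2 * g T t) := by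
        refine setIntegral_le_integral hint' (Filter.Eventually.of_forall fun t => ?_)
        exact Finset.sum_nonneg fun v _ => by
          have := AT.g_pos T t
          positivity
    _ = ∑ v ∈ Ico v1 v2, (v2 : ℝ) * Real.exp (-(2 * α * v1 / H)) *
          ∫ t, ‖AF f (X * Real.exp (-((v : ℝ) / H))) t‖ ^ 2 * g T t := by
        rw [integral_finsetSum _ hint]
        exact Finset.sum_congr rfl fun v _ => integral_const_mul _ _
    _ ≤ ∑ v ∈ Ico v1 v2, (v2 : ℝ) * Real.exp (-(2 * α * v1 / H)) * C := by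
        refine Finset.sum_le_sum fun v hv' => ?_
        refine mul_le_mul_of_nonneg_left ?_ (by positivity)
        have hv2 : (v : ℝ) ≤ v2 := by exact_mod_cast (Finset.mem_Ico.mp hv').2.le
        have hexp : Real.exp ((v : ℝ) / H) ≤ Real.exp ((v2 : ℝ) / H) := by
          rw [Real.exp_le_exp]
          gcongr
        have hinv : X * Real.exp (-((v : ℝ) / H)) = X / Real.exp ((v : ℝ) / H) := by
          rw [Real.exp_neg]
          rfl
        apply hA
        · rw [hinv, le_div_iff₀ (Real.exp_pos _), one_mul]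
          calc Real.exp ((v : ℝ) / H) ≤ √X := hexp.trans hX
            _ ≤ √X * √X := by nlinarith
            _ = X := Real.mul_self_sqrt hX0.le
        · exact hT
        · rw [hinv, le_div_iff₀ (Real.exp_pos _)]
          exact (mul_le_mul_of_nonneg_left hexp hT.le).trans hTX
    _ = ((v2 - v1 : ℕ) : ℝ) * ((v2 : ℝ) * Real.exp (-(2 * α * v1 / H)) * C) := by
        rw [Finset.sum_const, Nat.card_Ico, nsmul_eq_mul]
    _ ≤ (v2 : ℝ) * ((v2 : ℝ) * Real.exp (-(2 * α * v1 / H)) * C) := by
        refine mul_le_mul_of_nonneg_right ?_ (by positivity)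
        exact_mod_cast Nat.sub_le _ _
    _ = C * (v2 : ℝ) ^ 2 * Real.exp (-(2 * α * v1 / H)) := by ring

theorem stepOneF {f : ℕ → ℂ} (hf : CM f) (h1 : MeanValue) : StepOneF f :=
  S1F_of_bounded hf.le h1

end Pool.Agent.MRF
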