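import Pool.Agent.Lib.MRL.Top
import Pool.Agent.Lib.MRF.AC
import Pool.Agent.Lib.MRF.AS
import Pool.Agent.Lib.MRF.AT
import Pool.Agent.Lib.MRF.AU
import Pool.Agent.Lib.MRF.DC
import Pool.Agent.Lib.MRF.FL
import Pool.Agent.Lib.MRF.HA
import Pool.Agent.Lib.MRF.HZ
import Pool.Agent.Lib.MRF.LC
import Pool.Agent.Lib.MRF.MO
import Pool.Agent.Lib.MRF.S1
import Pool.Agent.Lib.MRF.SJ
import Pool.Agent.Lib.MRF.SP

/-! TANK MRF, assembly: the Matomäki–Radziwiłł theorem in bounded windows for a completely
multiplicative function `f : ℕ → ℂ`, `|f| ≤ 1`, with a bound for its Dirichlet series near the line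
`1`; the case `f = λ χ` holds without hypothesis for every Dirichlet character `χ`. -/

set_option autoImplicit false

namespace Pool.Agent.MRF

open Pool.Agent.MRL Pool.Agent.MRHal

theorem mrdF_top {f : ℕ → ℂ} (hf : CM f) (h : FlUpF f) : MRDF f :=
  mrdF hf
    (chainPartF hf (decompF hf meanValue) (stepOneF hf meanValue)
      (stepJF hf meanValue (momentF hf)))
    (uPartF hf (decompF hf meanValue) (sparsePrimesF hf vdc_row) (halaszAF hf (halaszF hf h))
      mertensLower)
    (tailPartF hf.le meanValue) numJ (largeCountF hf meanValue) (params mertensLower)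

theorem mrdF_lamChi {q : ℕ} [NeZero q] (χ : DirichletCharacter ℂ q) : MRDF (lamChi χ) :=
  mrdF_top (cm_lamChi χ) (flUpF_lamChi (zetaUp vdc_row) χ)

end Pool.Agent.MRF
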