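import Mathlib
import Pool.Agent.Lib.MRL.FLa
import Pool.Agent.Lib.MRL.HalB

/-!
TANK MRF, row FLF, half a: bounds on the line `1 + a` for the Dirichlet series of a completely
multiplicative function whose values at the primes are `0` or `k`-th roots of unity, in terms of
the Riemann zeta function; the case `lam * χ` near the real axis.  helper24.
-/

set_option autoImplicit false

namespace Pool.Agent.MRF.FLFa

open Finset Filter Topology Complex Pool.Agent.MRL
open Pool.Agent.MRHal (CM)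

/-! ### the homomorphism `n ↦ f(n) n^{-s}` -/

/-- `n ↦ f(n) n^{-s}`, zero at `0`. -/
noncomputable def fhom {f : ℕ → ℂ} (hf : CM f) (s : ℂ) : ℕ →*₀ ℂ where
  toFun n := if n = 0 then 0 else f n * (n : ℂ) ^ (-s)
  map_zero' := by simp
  map_one' := by simp [hf.one]
  map_mul' := by
    intro m n
    by_cases hm : m = 0
    · simp [hm]
    by_cases hn : n = 0
    · simp [hn]
    simp only [Nat.mul_eq_zero, hm, hn, or_self, if_false]
    rw [hf.mul, Nat.cast_mul, Complex.natCast_mul_natCast_cpow]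
    ring

variable {f : ℕ → ℂ}

theorem fhom_apply (hf : CM f) (s : ℂ) {n : ℕ} (hn : n ≠ 0) :
    fhom hf s n = f n * (n : ℂ) ^ (-s) := by
  show (if n = 0 then (0 : ℂ) else f n * (n : ℂ) ^ (-s)) = _
  rw [if_neg hn]

theorem norm_fhom_le (hf : CM f) (s : ℂ) (n : ℕ) : ‖fhom hf s n‖ ≤ ‖(n : ℂ) ^ (-s)‖ := by
  by_cases hn : n = 0
  · subst hn
    rw [map_zero, norm_zero]
    exact norm_nonneg _
  · rw [fhom_apply hf s hn, norm_mul]
    exact mul_le_of_le_one_left (norm_nonneg _) (hf.le n)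

theorem summable_fhom (hf : CM f) {s : ℂ} (hs : 1 < s.re) :
    Summable (fun n : ℕ => ‖fhom hf s n‖) :=
  (FL.summable_npow hs).of_nonneg_of_le (fun _ => norm_nonneg _) (norm_fhom_le hf s)

theorem LSeries_eq (hf : CM f) {s : ℂ} : LSeries f s = ∑' n, fhom hf s n := by
  unfold LSeries
  refine tsum_congr fun n => ?_
  rcases Nat.eq_zero_or_pos n with h | h
  · subst h
    rw [LSeries.term_zero, map_zero]
  · rw [LSeries.term_of_ne_zero h.ne', fhom_apply hf s h.ne', Complex.cpow_neg, div_eq_mul_inv]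

/-- prime sum -/
noncomputable def P {f : ℕ → ℂ} (hf : CM f) (s : ℂ) : ℝ := ∑' p : Nat.Primes, (fhom hf s p).re

/-- `Σ_p p^{-2}` -/
noncomputable def c2 : ℝ := ∑' p : Nat.Primes, 1 / ((p : ℕ) : ℝ) ^ 2

theorem summable_c2 : Summable (fun p : Nat.Primes => 1 / ((p : ℕ) : ℝ) ^ 2) :=
  (hasSum_zeta_two.summable).subtype _

theorem norm_fhom_prime_le (hf : CM f) {s : ℂ} (hs : 1 < s.re) (p : Nat.Primes) :
    ‖fhom hf s p‖ ≤ 1 / ((p : ℕ) : ℝ) := by
  refine (norm_fhom_le hf s p).trans ?_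
  rw [FL.norm_npow hs]
  have hp : (1 : ℝ) ≤ ((p : ℕ) : ℝ) := by exact_mod_cast p.2.one_lt.le
  have h1 : ((p : ℕ) : ℝ) ^ (1 : ℝ) ≤ ((p : ℕ) : ℝ) ^ s.re :=
    Real.rpow_le_rpow_of_exponent_le hp hs.le
  rw [Real.rpow_one] at h1
  exact one_div_le_one_div_of_le (by linarith) h1

theorem abs_log_sub_le (hf : CM f) {s : ℂ} (hs : 1 < s.re) (p : Nat.Primes) :
    |(-Complex.log (1 - fhom hf s p)).re - (fhom hf s p).re| ≤ 1 / ((p : ℕ) : ℝ) ^ 2 := by
  have h1 := norm_fhom_prime_le hf hs p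
  set w := fhom hf s p with hw
  have hp : (2 : ℝ) ≤ ((p : ℕ) : ℝ) := by exact_mod_cast p.2.two_le
  have h2 : ‖w‖ ≤ 1 / 2 := h1.trans (one_div_le_one_div_of_le (by norm_num) hp)
  have h3 : ‖-w‖ < 1 := by rw [norm_neg]; linarith
  have h4 := Complex.norm_log_one_add_sub_self_le h3
  rw [norm_neg] at h4
  have h5 : (1 - ‖w‖)⁻¹ ≤ 2 := by
    rw [inv_le_comm₀ (by linarith) (by norm_num)]
    linarith
  have h6 : ‖Complex.log (1 + -w) - -w‖ ≤ ‖w‖ ^ 2 := by
    refine h4.trans ?_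
    have := mul_le_mul_of_nonneg_left h5 (sq_nonneg ‖w‖)
    linarith
  have h7 : (-Complex.log (1 - w)).re - w.re = -(Complex.log (1 + -w) - -w).re := by
    rw [← sub_eq_add_neg]
    simp only [Complex.neg_re, Complex.sub_re]
    ring
  rw [h7, abs_neg]
  refine (Complex.abs_re_le_norm _).trans (h6.trans ?_)
  have h8 := pow_le_pow_left₀ (norm_nonneg w) h1 2
  rw [div_pow, one_pow] at h8
  exact h8

theorem summable_P (hf : CM f) {s : ℂ} (hs : 1 < s.re) :
    Summable (fun p : Nat.Primes => (fhom hf s p).re) := by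
  have h1 : Summable (fun n : ℕ => fhom hf s n) := (summable_fhom hf hs).of_norm
  exact (Complex.hasSum_re h1.hasSum).summable.subtype _

theorem norm_LSeries_eq (hf : CM f) {s : ℂ} (hs : 1 < s.re) :
    ‖LSeries f s‖ = Real.exp (∑' p : Nat.Primes, (-Complex.log (1 - fhom hf s p)).re) ∧
    Summable (fun p : Nat.Primes => (-Complex.log (1 - fhom hf s p)).re) := by
  have h1 : Summable (fun p : Nat.Primes => -Complex.log (1 - fhom hf s p)) :=
    ((summable_fhom hf hs).of_norm.clog_one_sub.neg).subtype _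
  have h2 := Complex.hasSum_re h1.hasSum
  refine ⟨?_, h2.summable⟩
  rw [LSeries_eq hf, ← EulerProduct.exp_tsum_primes_log_eq_tsum (summable_fhom hf hs),
    Complex.norm_exp, h2.tsum_eq]

/-- two-sided bound for the Dirichlet series in terms of its prime sum -/
theorem norm_LSeries_bounds (hf : CM f) {s : ℂ} (hs : 1 < s.re) :
    ‖LSeries f s‖ ≤ Real.exp (P hf s + c2) ∧ Real.exp (P hf s - c2) ≤ ‖LSeries f s‖ := by
  obtain ⟨h1, h2⟩ := norm_LSeries_eq hf hs
  have h3 := summable_P hf hs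
  have h4 := summable_c2
  have h5 := abs_log_sub_le hf hs
  rw [h1]
  unfold P c2
  constructor
  · rw [Real.exp_le_exp, ← h3.tsum_add h4]
    refine h2.tsum_le_tsum (fun p => ?_) (h3.add h4)
    have := (abs_le.mp (h5 p)).2
    linarith
  · rw [Real.exp_le_exp, ← h3.tsum_sub h4]
    refine (h3.sub h4).tsum_le_tsum (fun p => ?_) h2
    have := (abs_le.mp (h5 p)).1
    linarith

/-! ### the trigonometric inequality -/

theorem norm_one_sub_pow_le {w : ℂ} (hw : ‖w‖ = 1) (k : ℕ) : ‖1 - w ^ k‖ ≤ k * ‖1 - w‖ := by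
  induction k with
  | zero => simp
  | succ k ih =>
    have h1 : 1 - w ^ (k + 1) = (1 - w ^ k) + w ^ k * (1 - w) := by ring
    rw [h1]
    refine (norm_add_le _ _).trans ?_
    rw [norm_mul, norm_pow, hw, one_pow, one_mul]
    push_cast
    linarith

theorem normSq_one_sub {w : ℂ} (hw : ‖w‖ = 1) : ‖1 - w‖ ^ 2 = 2 * (1 - w.re) := by
  have h1 : w.re * w.re + w.im * w.im = 1 := by
    rw [← Complex.normSq_apply, Complex.normSq_eq_norm_sq, hw, one_pow]
  rw [← Complex.normSq_eq_norm_sq, Complex.normSq_apply]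
  simp only [Complex.sub_re, Complex.one_re, Complex.sub_im, Complex.one_im]
  linarith

theorem re_le {w : ℂ} (hw : ‖w‖ = 1) {k : ℕ} (hk : 1 ≤ k) :
    w.re ≤ (1 - 1 / (k : ℝ) ^ 2) + 1 / (k : ℝ) ^ 2 * (w ^ k).re := by
  have hk0 : (0 : ℝ) < (k : ℝ) := by exact_mod_cast hk
  have h1 := norm_one_sub_pow_le hw k
  have h2 := pow_le_pow_left₀ (norm_nonneg _) h1 2
  rw [mul_pow, normSq_one_sub hw, normSq_one_sub (by rw [norm_pow, hw, one_pow])] at h2
  have h3 : 1 - (w ^ k).re ≤ (k : ℝ) ^ 2 * (1 - w.re) := by linarith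
  have h4 : (1 - (w ^ k).re) / (k : ℝ) ^ 2 ≤ 1 - w.re := by
    rw [div_le_iff₀ (by positivity)]
    linarith
  have h5 : (1 - (w ^ k).re) / (k : ℝ) ^ 2
      = 1 / (k : ℝ) ^ 2 - 1 / (k : ℝ) ^ 2 * (w ^ k).re := by ring
  linarith

/-! ### comparison with zeta -/

theorem cm_one : CM (fun _ : ℕ => (1 : ℂ)) where
  one := rfl
  mul := by intro m n; simp
  le := by intro n; simp

theorem LSeries_one {s : ℂ} (hs : 1 < s.re) :
    LSeries (fun _ : ℕ => (1 : ℂ)) s = riemannZeta s :=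
  LSeries_one_eq_riemannZeta hs

/-- `f(p) ∈ {0} ∪ μ_k` at the primes: comparison of the prime sums. -/
theorem P_le (hf : CM f) {k : ℕ} (hk : 2 ≤ k)
    (hp : ∀ p : ℕ, p.Prime → f p = 0 ∨ f p ^ k = 1) {a τ : ℝ} (ha : 0 < a) :
    P hf (1 + a + τ * I) ≤ (1 - 1 / (k : ℝ) ^ 2) * P cm_one (1 + a)
      + 1 / (k : ℝ) ^ 2 * P cm_one (1 + a + ((k * τ : ℝ) : ℂ) * I) := by
  have hs1 : 1 < ((1 : ℂ) + a + τ * I).re := by simp; exact ha
  have hs2 : 1 < ((1 : ℂ) + a).re := by simp; exact ha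
  have hs3 : 1 < ((1 : ℂ) + a + ((k * τ : ℝ) : ℂ) * I).re := by simp; exact ha
  unfold P
  rw [← tsum_mul_left, ← tsum_mul_left,
    ← ((summable_P cm_one hs2).mul_left _).tsum_add ((summable_P cm_one hs3).mul_left _)]
  refine (summable_P hf hs1).tsum_le_tsum (fun p => ?_)
    (((summable_P cm_one hs2).mul_left _).add ((summable_P cm_one hs3).mul_left _))
  have hpp := p.2
  have hp0 : (p : ℕ) ≠ 0 := hpp.ne_zero
  have hpos : (0 : ℝ) < ((p : ℕ) : ℝ) := by exact_mod_cast hpp.pos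
  have hne : ((p : ℕ) : ℂ) ≠ 0 := by exact_mod_cast hp0
  -- the common factor
  set r : ℝ := ((p : ℕ) : ℝ) ^ (-(1 + a)) with hr
  have hr0 : 0 < r := Real.rpow_pos_of_pos hpos _
  have hpow : ∀ t : ℝ, ((p : ℕ) : ℂ) ^ (-((1 : ℂ) + a + t * I)) = (r : ℂ) * nt p t := by
    intro t
    have e1 : -((1 : ℂ) + a + t * I) = ((-(1 + a) : ℝ) : ℂ) + -(t * I) := by push_cast; ring
    have e3 : ((p : ℕ) : ℂ) ^ (-((t : ℂ) * I)) = nt p t := by
      unfold nt
      rw [Complex.cpow_def_of_ne_zero hne]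
      congr 1
      rw [← Complex.natCast_log]
      push_cast
      ring
    rw [e1, Complex.cpow_add _ _ hne, e3, hr, Complex.ofReal_cpow hpos.le]
    push_cast
    rfl
  have hpow0 : ((p : ℕ) : ℂ) ^ (-((1 : ℂ) + a)) = (r : ℂ) := by
    have := hpow 0
    simp only [Complex.ofReal_zero, zero_mul, add_zero] at this
    rw [this]
    simp [nt]
  rw [fhom_apply hf _ hp0, fhom_apply cm_one _ hp0, fhom_apply cm_one _ hp0, hpow, hpow, hpow0,
    one_mul, one_mul]
  have hntk : nt p (k * τ) = nt p τ ^ k := by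
    unfold nt
    rw [← Complex.exp_nat_mul]
    congr 1
    push_cast
    ring
  have hnt1 : ‖nt p τ‖ = 1 := by
    unfold nt
    rw [← Complex.ofReal_neg]
    exact Complex.norm_exp_ofReal_mul_I _
  have hkR : (2 : ℝ) ≤ (k : ℝ) := by exact_mod_cast hk
  have hkap : 1 / (k : ℝ) ^ 2 ≤ 1 / 4 := by
    apply one_div_le_one_div_of_le (by norm_num)
    nlinarith
  have hkap0 : 0 < 1 / (k : ℝ) ^ 2 := by positivity
  -- the key inequality
  have key : (f p * nt p τ).re ≤ (1 - 1 / (k : ℝ) ^ 2)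
      + 1 / (k : ℝ) ^ 2 * (nt p (k * τ)).re := by
    rcases hp p hpp with h0 | h1
    · rw [h0, zero_mul, Complex.zero_re]
      have h2 : -1 ≤ (nt p (k * τ)).re := by
        have h3 := Complex.abs_re_le_norm (nt p (k * τ))
        rw [hntk, norm_pow, hnt1, one_pow, ← hntk] at h3
        exact (abs_le.mp h3).1
      nlinarith
    · have hfn : ‖f p‖ = 1 := by
        have h2 : ‖f p‖ ^ k = 1 := by rw [← norm_pow, h1, norm_one]
        exact (pow_eq_one_iff_of_nonneg (norm_nonneg _) (by omega)).mp h2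
      have h2 := re_le (w := f p * nt p τ) (by rw [norm_mul, hfn, hnt1, one_mul])
        (k := k) (by omega)
      rw [mul_pow, h1, one_mul, ← hntk] at h2
      exact h2
  have e1 : (f p * ((r : ℂ) * nt p τ)).re = r * (f p * nt p τ).re := by
    rw [show f p * ((r : ℂ) * nt p τ) = (r : ℂ) * (f p * nt p τ) by ring, Complex.re_ofReal_mul]
  rw [e1, Complex.ofReal_re, Complex.re_ofReal_mul]
  calc r * (f p * nt p τ).re ≤ r * ((1 - 1 / (k : ℝ) ^ 2)
      + 1 / (k : ℝ) ^ 2 * (nt p (k * τ)).re) := mul_le_mul_of_nonneg_left key hr0.le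
    _ = _ := by ring

/-- (B) -/
theorem norm_LSeries_le (hf : CM f) {k : ℕ} (hk : 2 ≤ k)
    (hp : ∀ p : ℕ, p.Prime → f p = 0 ∨ f p ^ k = 1) {a τ : ℝ} (ha : 0 < a) :
    ‖LSeries f (1 + a + τ * I)‖ ≤ Real.exp (2 * c2) *
      (‖riemannZeta (1 + a)‖ ^ (1 - 1 / (k : ℝ) ^ 2) *
        ‖riemannZeta (1 + a + ((k * τ : ℝ) : ℂ) * I)‖ ^ (1 / (k : ℝ) ^ 2)) := by
  have hs1 : 1 < ((1 : ℂ) + a + τ * I).re := by simp; exact ha
  have hs2 : 1 < ((1 : ℂ) + a).re := by simp; exact ha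
  have hs3 : 1 < ((1 : ℂ) + a + ((k * τ : ℝ) : ℂ) * I).re := by simp; exact ha
  have h1 := (norm_LSeries_bounds hf hs1).1
  have h2 := (norm_LSeries_bounds cm_one hs2).2
  have h3 := (norm_LSeries_bounds cm_one hs3).2
  rw [LSeries_one hs2] at h2
  rw [LSeries_one hs3] at h3
  have h4 := P_le hf hk hp (τ := τ) ha
  have hkR : (2 : ℝ) ≤ (k : ℝ) := by exact_mod_cast hk
  have hkap : 1 / (k : ℝ) ^ 2 ≤ 1 / 4 := by
    apply one_div_le_one_div_of_le (by norm_num)
    nlinarith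
  have hkap0 : 0 < 1 / (k : ℝ) ^ 2 := by positivity
  set κ : ℝ := 1 / (k : ℝ) ^ 2 with hκ
  set P1 := P cm_one (1 + a) with hP1
  set P2 := P cm_one (1 + a + ((k * τ : ℝ) : ℂ) * I) with hP2
  have h5 : Real.exp ((P1 - c2) * (1 - κ)) ≤ ‖riemannZeta (1 + a)‖ ^ (1 - κ) := by
    rw [Real.exp_mul]
    exact Real.rpow_le_rpow (Real.exp_pos _).le h2 (by linarith)
  have h6 : Real.exp ((P2 - c2) * κ) ≤ ‖riemannZeta (1 + a + ((k * τ : ℝ) : ℂ) * I)‖ ^ κ := by
    rw [Real.exp_mul]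
    exact Real.rpow_le_rpow (Real.exp_pos _).le h3 hkap0.le
  calc ‖LSeries f (1 + a + τ * I)‖ ≤ Real.exp (P hf (1 + a + τ * I) + c2) := h1
    _ ≤ Real.exp (2 * c2 + ((P1 - c2) * (1 - κ) + (P2 - c2) * κ)) := by
        rw [Real.exp_le_exp]
        linarith
    _ = Real.exp (2 * c2) * (Real.exp ((P1 - c2) * (1 - κ)) * Real.exp ((P2 - c2) * κ)) := by
        rw [Real.exp_add, Real.exp_add]
    _ ≤ _ := by gcongr

end Pool.Agent.MRF.FLFa
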