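import Mathlib
import Pool.Agent.Lib.MRF.Defs
import Pool.Agent.Lib.MRF.FLFa

/-!
TANK MRF, row FLF, half a, second file: the series `FlF` is an `LSeries`; `lam * χ` is completely
multiplicative with values in roots of unity; bound near the real axis.  helper24.
-/

set_option autoImplicit false

namespace Pool.Agent.MRF.FLFa

open Finset Filter Topology Complex Pool.Agent.MRL
open Pool.Agent.MRHal (CM)

variable {f : ℕ → ℂ}

theorem FlF_eq (f : ℕ → ℂ) (a τ : ℝ) : FlF f a τ = LSeries f (1 + a + τ * I) := by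
  unfold FlF LSeries
  refine tsum_congr fun n => ?_
  rcases Nat.eq_zero_or_pos n with h | h
  · subst h
    rw [LSeries.term_zero]
    simp
  · rw [LSeries.term_of_ne_zero h.ne']
    have hn : (0 : ℝ) < n := by exact_mod_cast h
    have hn' : (n : ℂ) ≠ 0 := by exact_mod_cast h.ne'
    have h1 : (n : ℂ) ^ (-(1 + a + τ * I)) = ((1 / n * (n : ℝ) ^ (-a) : ℝ) : ℂ) * nt n τ := by
      unfold nt
      have e1 : -(1 + (a : ℂ) + τ * I) = -1 + (-(a : ℂ) + -(τ * I)) := by ring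
      rw [e1, Complex.cpow_add _ _ hn', Complex.cpow_add _ _ hn', Complex.cpow_neg_one]
      have e2 : (n : ℂ) ^ (-(a : ℂ)) = (((n : ℝ) ^ (-a) : ℝ) : ℂ) := by
        rw [Complex.ofReal_cpow hn.le]
        push_cast
        rfl
      have e3 : (n : ℂ) ^ (-(τ * I)) = cexp (-((τ * Real.log n : ℝ) : ℂ) * I) := by
        rw [Complex.cpow_def_of_ne_zero hn']
        congr 1
        rw [← Complex.natCast_log]
        push_cast
        ring
      rw [e2, e3]
      push_cast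
      ring
    have h2 : f n / (n : ℂ) ^ (1 + (a : ℂ) + τ * I) = f n * (n : ℂ) ^ (-(1 + (a : ℂ) + τ * I)) := by
      rw [Complex.cpow_neg, div_eq_mul_inv]
    rw [h2, h1, mul_assoc]

/-- (B) for `FlF` -/
theorem norm_FlF_le (hf : CM f) {k : ℕ} (hk : 2 ≤ k)
    (hp : ∀ p : ℕ, p.Prime → f p = 0 ∨ f p ^ k = 1) {a τ : ℝ} (ha : 0 < a) :
    ‖FlF f a τ‖ ≤ Real.exp (2 * c2) *
      (‖riemannZeta (1 + a)‖ ^ (1 - 1 / (k : ℝ) ^ 2) *
        ‖riemannZeta (1 + a + ((k * τ : ℝ) : ℂ) * I)‖ ^ (1 / (k : ℝ) ^ 2)) := by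
  rw [FlF_eq]
  exact norm_LSeries_le hf hk hp ha

/-- `f(p) = -g(p)` at the primes: the two series are inverse up to constants -/
theorem norm_mul_le {g : ℕ → ℂ} (hf : CM f) (hg : CM g)
    (hp : ∀ p : ℕ, p.Prime → f p = -g p) {s : ℂ} (hs : 1 < s.re) :
    ‖LSeries f s‖ * ‖LSeries g s‖ ≤ Real.exp (2 * c2) := by
  have h1 := (norm_LSeries_bounds hf hs).1
  have h2 := (norm_LSeries_bounds hg hs).1
  have h3 : P hf s = -P hg s := by
    unfold P
    rw [← tsum_neg]
    refine tsum_congr fun p => ?_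
    rw [fhom_apply hf s p.2.ne_zero, fhom_apply hg s p.2.ne_zero, hp _ p.2, neg_mul,
      Complex.neg_re]
  calc ‖LSeries f s‖ * ‖LSeries g s‖ ≤ Real.exp (P hf s + c2) * Real.exp (P hg s + c2) := by
        gcongr
    _ = Real.exp (2 * c2) := by
        rw [← Real.exp_add, h3]
        congr 1
        ring

/-! ### `lam * χ` -/

variable {q : ℕ}

theorem lamChi_zero (χ : DirichletCharacter ℂ q) : lamChi χ 0 = 0 := by simp [lamChi]

theorem lamChi_pos (χ : DirichletCharacter ℂ q) {n : ℕ} (hn : n ≠ 0) :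
    lamChi χ n = ((lam n : ℝ) : ℂ) * χ n := by
  rw [lamChi, if_neg hn]

theorem cm_chi (χ : DirichletCharacter ℂ q) : CM (fun n : ℕ => χ n) where
  one := by simp
  mul := by intro m n; simp
  le := fun n => χ.norm_le_one n

theorem cm_lamChi (χ : DirichletCharacter ℂ q) : CM (lamChi χ) where
  one := by
    rw [lamChi_pos χ one_ne_zero, FL.lam_one]
    simp
  mul := by
    intro m n
    rcases Nat.eq_zero_or_pos m with rfl | hm
    · rw [zero_mul, lamChi_zero, zero_mul]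
    rcases Nat.eq_zero_or_pos n with rfl | hn
    · rw [mul_zero, lamChi_zero, mul_zero]
    rw [lamChi_pos χ hm.ne', lamChi_pos χ hn.ne', lamChi_pos χ (Nat.mul_ne_zero hm.ne' hn.ne'),
      FL.lam_mul hm.ne' hn.ne']
    push_cast
    rw [map_mul]
    ring
  le := by
    intro n
    by_cases hn : n = 0
    · rw [hn, lamChi_zero]
      simp
    · rw [lamChi_pos χ hn, norm_mul, Complex.norm_real, Real.norm_eq_abs, FL.abs_lam, one_mul]
      exact χ.norm_le_one n

theorem lamChi_prime (χ : DirichletCharacter ℂ q) (p : ℕ) (hp : p.Prime) :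
    lamChi χ p = -χ p := by
  rw [lamChi_pos χ hp.ne_zero, FL.lam_prime hp]
  push_cast
  ring

/-- values at the primes: `0` or roots of unity of order dividing `2 * ord χ` -/
theorem lamChi_pow [NeZero q] (χ : DirichletCharacter ℂ q) : ∃ k : ℕ, 2 ≤ k ∧
    ∀ p : ℕ, p.Prime → lamChi χ p = 0 ∨ lamChi χ p ^ k = 1 := by
  have hord : 0 < orderOf χ := orderOf_pos χ
  refine ⟨2 * orderOf χ, by omega, fun p hp => ?_⟩
  rw [lamChi_prime χ p hp]
  by_cases hu : IsUnit ((p : ℕ) : ZMod q)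
  · right
    have h1 : (-χ p) ^ (2 * orderOf χ) = χ p ^ (2 * orderOf χ) := by
      rw [pow_mul, neg_sq, ← pow_mul]
    rw [h1, mul_comm, pow_mul, ← MulChar.pow_apply' χ hord.ne', pow_orderOf_eq_one,
      MulChar.one_apply hu, one_pow]
  · left
    rw [MulChar.map_nonunit χ hu, neg_zero]

/-! ### lower bound for `L(s, χ)` near `1` -/

theorem lower_of_continuous {F : ℂ → ℂ} (hF : Continuous F)
    (hne : ∀ s : ℂ, 1 ≤ s.re → F s ≠ 0) : ∃ c : ℝ, 0 < c ∧ ∀ a τ : ℝ, 0 < a → a ≤ 1 → |τ| ≤ 1 →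
    c ≤ ‖F (1 + a + τ * I)‖ := by
  set K : Set ℂ := Set.Icc (1 : ℝ) 2 ×ℂ Set.Icc (-1 : ℝ) 1 with hK
  have hKc : IsCompact K := isCompact_Icc.reProdIm isCompact_Icc
  have hKn : K.Nonempty := ⟨1, by rw [hK, Complex.mem_reProdIm]; simp⟩
  obtain ⟨s0, hs0, hmin⟩ := hKc.exists_isMinOn hKn (continuous_norm.comp hF).continuousOn
  have h0 : F s0 ≠ 0 := hne s0 ((Complex.mem_reProdIm.mp hs0).1.1)
  refine ⟨‖F s0‖, norm_pos_iff.mpr h0, fun a τ ha ha1 hτ => ?_⟩
  have hsK : (1 + a + τ * I : ℂ) ∈ K := by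
    rw [hK, Complex.mem_reProdIm]
    have hre : (1 + a + τ * I : ℂ).re = 1 + a := by simp
    have him : (1 + a + τ * I : ℂ).im = τ := by simp
    rw [hre, him]
    exact ⟨⟨by linarith, by linarith⟩, abs_le.mp hτ⟩
  exact hmin hsK

theorem lower_L [NeZero q] (χ : DirichletCharacter ℂ q) : ∃ c : ℝ, 0 < c ∧ ∀ a τ : ℝ, 0 < a →
    a ≤ 1 → |τ| ≤ 1 → c ≤ ‖χ.LFunction (1 + a + τ * I)‖ := by
  by_cases hχ : χ = 1
  · subst hχ
    obtain ⟨c, hc, h⟩ := lower_of_continuous
      (DirichletCharacter.differentiable_LFunctionTrivChar₁ q).continuous (fun s hs => by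
        by_cases h1 : s = 1
        · rw [h1]
          exact DirichletCharacter.LFunctionTrivChar₁_apply_one_ne_zero q
        · rw [DirichletCharacter.LFunctionTrivChar₁, Function.update_of_ne h1]
          exact mul_ne_zero (sub_ne_zero.mpr h1)
            (DirichletCharacter.LFunction_ne_zero_of_one_le_re _ (Or.inr h1) hs))
    refine ⟨c / 2, by positivity, fun a τ ha ha1 hτ => ?_⟩
    have h2 := h a τ ha ha1 hτ
    set s : ℂ := 1 + a + τ * I with hs
    have hre : s.re = 1 + a := by rw [hs]; simp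
    have h1 : s ≠ 1 := by
      intro h0
      rw [h0] at hre
      simp at hre
      linarith
    rw [DirichletCharacter.LFunctionTrivChar₁, Function.update_of_ne h1, norm_mul] at h2
    have h4 : ‖s - 1‖ ≤ 2 := by
      have e1 : s - 1 = (a : ℂ) + τ * I := by rw [hs]; ring
      rw [e1]
      calc ‖(a : ℂ) + τ * I‖ ≤ ‖(a : ℂ)‖ + ‖(τ : ℂ) * I‖ := norm_add_le _ _
        _ = |a| + |τ| := by simp
        _ ≤ 2 := by rw [abs_of_pos ha]; linarith
    have h5 : c ≤ 2 * ‖DirichletCharacter.LFunction (1 : DirichletCharacter ℂ q) s‖ :=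
      h2.trans (mul_le_mul_of_nonneg_right h4 (norm_nonneg _))
    linarith
  · exact lower_of_continuous (DirichletCharacter.differentiable_LFunction hχ).continuous
      (fun s hs => DirichletCharacter.LFunction_ne_zero_of_one_le_re χ (Or.inl hχ) hs)

/-- (C) -/
theorem norm_FlF_lamChi_near [NeZero q] (χ : DirichletCharacter ℂ q) : ∃ C : ℝ, 0 < C ∧
    ∀ a τ : ℝ, 0 < a → a ≤ 1 → |τ| ≤ 1 → ‖FlF (lamChi χ) a τ‖ ≤ C := by
  obtain ⟨c, hc, h⟩ := lower_L χ
  refine ⟨Real.exp (2 * c2) / c, by positivity, fun a τ ha ha1 hτ => ?_⟩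
  have hs : 1 < ((1 : ℂ) + a + τ * I).re := by simp; exact ha
  have h1 := norm_mul_le (cm_lamChi χ) (cm_chi χ) (lamChi_prime χ) hs
  have h2 := h a τ ha ha1 hτ
  rw [DirichletCharacter.LFunction_eq_LSeries χ hs] at h2
  rw [FlF_eq, le_div_iff₀ hc]
  exact (mul_le_mul_of_nonneg_left h2 (norm_nonneg _)).trans h1

end Pool.Agent.MRF.FLFa
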